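import Pool.Agent.LibCUR.G08b
import Pool.Agent.LibKB.Api
import Pool.Agent.LibLB.Defs

/-!
THEOREM K+, block CUR-1: from the Hilbert polynomials of the divisors on the base surface to the
intersection form.
-/

set_option autoImplicit false

open Pool.Agent.LibGMM Pool.Agent.LibK Pool.Agent.LibKB

namespace Pool.Agent.LibCUR

open Pool.Agent.LibKB2 (dlt dlt_self dlt_ne isDiv_dlt isDiv_ord isDiv_zero IsDiv.add' IsDiv.neg'
  IsDiv.sub' IsDiv.zsmul')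
open Pool.Agent.LibLB (RLR PSurf)

variable {L : Type} [Field L] [Algebra ℂ L]

/-- A smooth projective surface with the numerical facts on Hilbert polynomials: for every divisor
`D` and large `n`, `2 h⁰(D + n A) = d n² + b(D) n + 2 χ(D)`. -/
structure BaseData (L : Type) [Field L] [Algebra ℂ L] where
  prm : Set (DVal L)
  pts : Set (Subalgebra ℂ L)
  dim : Algebra.trdeg ℂ L = 2
  ptsNe : pts.Nonempty
  coord : ∀ x ∈ pts, ∃ a b, RLR x a b
  ess : ∀ x ∈ pts, ∀ ν, ν ∈ Ess x ↔ ν ∈ prm ∧ x ≤ ν.ring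
  finDiv : FinDiv prm
  centre : ∀ V : ValuationSubring L, (∀ c : ℂ, algebraMap ℂ L c ∈ V) → V ≠ ⊤ →
    (∃ x ∈ pts, VDom x V) ∨ ∃ ν ∈ prm, ∀ f, f ∈ V ↔ 0 ≤ ν.ord f
  infPts : ∀ ν ∈ prm, {x | x ∈ pts ∧ x ≤ ν.ring}.Infinite
  finSec : ∀ D, IsDiv prm D → Module.Finite ℂ (sec prm D)
  A : DVal L → ℤ
  divA : IsDiv prm A
  K : DVal L → ℤ
  divK : IsDiv prm K
  sep : ∀ x ∈ pts, ∀ y ∈ pts, x ≠ y → ∃ f, Gen prm y A f ∧ ¬ Gen prm x A f
  jet : ∀ x ∈ pts, ∀ E, LibLB.IsOrd x E → ∀ g, LocEqn prm x A g → ∀ z ∈ x, ∃ f ∈ sec prm A,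
    Ge E 2 (f * g - z)
  gen : ∀ D, IsDiv prm D → ∃ n₀ : ℕ, ∀ n : ℕ, n₀ ≤ n → ∀ x ∈ pts, ∃ f, Gen prm x (D + n • A) f
  van : ∀ D, IsDiv prm D → ∃ n₀ : ℕ, ∀ n : ℕ, n₀ ≤ n → h0 prm (D - n • A) = 0
  d : ℤ
  dpos : 0 < d
  b : (DVal L → ℤ) → ℤ
  chi : (DVal L → ℤ) → ℤ
  poly : ∀ D, IsDiv prm D → ∃ n₀ : ℕ, ∀ n : ℕ, n₀ ≤ n →
    2 * (h0 prm (D + n • A) : ℤ) = d * n ^ 2 + b D * n + 2 * chi D
  dual : ∀ D, IsDiv prm D → chi (K - D) = chi D
  rr : ∀ D, IsDiv prm D → chi D ≤ h0 prm D + h0 prm (K - D)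
  canon : ∀ ω : TopForm L, ω ≠ 0 → IsDiv prm (fun ν => canOrd ν ω) ∧
    ∃ f : L, f ≠ 0 ∧ ∀ ν ∈ prm, canOrd ν ω = K ν + ν.ord f

/-- Irregularity zero. -/
structure BaseData.Reg (B : BaseData L) : Prop where
  chi0 : B.chi 0 = 1 + h0 B.prm B.K
  fg : ∃ T : Finset (DVal L → ℤ), (∀ E ∈ T, IsDiv B.prm E) ∧ ∀ D, IsDiv B.prm D →
    ∃ (c : (DVal L → ℤ) → ℤ) (f : L), f ≠ 0 ∧
      ∀ ν ∈ B.prm, D ν = ∑ E ∈ T, c E * E ν + ν.ord f
  num : ∀ D, IsDiv B.prm D → (∃ t : ℕ, ∀ n : ℤ, 0 < h0 B.prm (t • B.A + n • D)) →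
    ∃ (m : ℕ) (f : L), 0 < m ∧ f ≠ 0 ∧ ∀ ν ∈ B.prm, (m : ℤ) * D ν = ν.ord f

/-- PROOF. Values at `n₀` and `n₀ + 1`. -/
theorem lin_unique {b c b' c' : ℤ} {n₀ : ℕ}
    (h : ∀ n : ℕ, n₀ ≤ n → b * n + c = b' * n + c') : b = b' ∧ c = c' := by
  have h1 := h n₀ le_rfl
  have h2 := h (n₀ + 1) (Nat.le_succ _)
  push_cast at h2
  have h3 : b = b' := by linear_combination h2 - h1
  subst h3
  exact ⟨rfl, by linear_combination h1⟩

namespace BaseData

variable (B : BaseData L)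

/-- Linearly equivalent divisors have the same Hilbert polynomial.

PROOF. `LibKB.h0_lin` for `D + n • A`, `D' + n • A` (`n ≥` both bounds of `B.poly`), `lin_unique`
with the constants `2 * chi`. -/
theorem chi_lin {D D' : DVal L → ℤ} (hD : IsDiv B.prm D) {f : L} (hf : f ≠ 0)
    (h : ∀ ν ∈ B.prm, D' ν = D ν + ν.ord f) : B.chi D' = B.chi D ∧ B.b D' = B.b D := by
  have hD' : IsDiv B.prm D' := by
    have h1 : IsDiv B.prm (D + fun ν => ν.ord f) := IsDiv.add' hD (LibKB2.isDiv_ord B.finDiv hf)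
    refine h1.subset ?_
    rintro ν ⟨h2, h3⟩
    exact ⟨h2, by rw [Pi.add_apply, ← h ν h2]; exact h3⟩
  obtain ⟨n₀, h0⟩ := B.poly D hD
  obtain ⟨n₁, h1⟩ := B.poly D' hD'
  have h2 : ∀ n : ℕ, max n₀ n₁ ≤ n → B.b D' * n + 2 * B.chi D' = B.b D * n + 2 * B.chi D := by
    intro n hn
    have h3 := h0 n ((le_max_left _ _).trans hn)
    have h4 := h1 n ((le_max_right _ _).trans hn)
    have h5 : LibKB.h0 B.prm (D' + n • B.A) = LibKB.h0 B.prm (D + n • B.A) :=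
      LibKB.h0_lin hf (fun ν hν => by
        simp only [Pi.add_apply]
        rw [h ν hν]
        ring)
    rw [h5] at h4
    linear_combination h3 - h4
  obtain ⟨h3, h4⟩ := lin_unique h2
  exact ⟨by omega, h3⟩

/-- PROOF. `D + k • A + n • A = D + (k + n) • A`, `B.poly` for `D + k • A` and for `D`, and
`lin_unique`: `d (k + n) ^ 2 + b D (k + n) + 2 χ D = d n ^ 2 + (b D + 2 d k) n + (d k ^ 2 + b D k +
2 χ D)`. -/
theorem chi_add_nsmul {D : DVal L → ℤ} (hD : IsDiv B.prm D) (k : ℕ) :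
    2 * B.chi (D + k • B.A) = B.d * k ^ 2 + B.b D * k + 2 * B.chi D ∧
      B.b (D + k • B.A) = B.b D + 2 * B.d * k := by
  have hD' : IsDiv B.prm (D + k • B.A) := IsDiv.add' hD (by
    have h1 := IsDiv.zsmul' B.divA (k : ℤ)
    rwa [natCast_zsmul] at h1)
  obtain ⟨n₀, h0⟩ := B.poly D hD
  obtain ⟨n₁, h1⟩ := B.poly _ hD'
  have h2 : ∀ n : ℕ, max n₀ n₁ ≤ n → B.b (D + k • B.A) * n + 2 * B.chi (D + k • B.A) =
      (B.b D + 2 * B.d * k) * n + (B.d * k ^ 2 + B.b D * k + 2 * B.chi D) := by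
    intro n hn
    have h3 := h0 (k + n) (((le_max_left _ _).trans hn).trans (Nat.le_add_left _ _))
    have h4 := h1 n ((le_max_right _ _).trans hn)
    have h5 : D + k • B.A + n • B.A = D + (k + n) • B.A := by
      rw [add_nsmul, add_assoc]
    rw [h5] at h4
    push_cast at h3
    linear_combination h3 - h4
  obtain ⟨h3, h4⟩ := lin_unique h2
  exact ⟨h4, h3⟩

/-- For every prime divisor `ν` the difference `h⁰(D + n A) - h⁰(D + n A - ν)` is linear in `n`.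

PROOF. `B.poly` for `D` and for `D - dlt ν` (`D - dlt ν + n • A = D + n • A - dlt ν`):
`2 * (difference) = (b D - b (D - dlt ν)) * n + 2 * (χ D - χ (D - dlt ν))`; the values at `n` and
`n + 1` show that `b D - b (D - dlt ν) = 2 * a` is even. -/
theorem exists_lin {ν : DVal L} (hν : ν ∈ B.prm) {D : DVal L → ℤ} (hD : IsDiv B.prm D) :
    ∃ a : ℤ, B.b D - B.b (D - dlt ν) = 2 * a ∧ ∃ n₀ : ℕ, ∀ n : ℕ, n₀ ≤ n →
      (h0 B.prm (D + n • B.A) : ℤ) - h0 B.prm (D + n • B.A - dlt ν) =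
        (B.chi D - B.chi (D - dlt ν)) + n * a := by
  obtain ⟨n₀, h0⟩ := B.poly D hD
  obtain ⟨n₁, h1⟩ := B.poly _ (IsDiv.sub' hD (isDiv_dlt B.prm ν))
  have h2 : ∀ n : ℕ, max n₀ n₁ ≤ n →
      2 * ((LibKB.h0 B.prm (D + n • B.A) : ℤ) - LibKB.h0 B.prm (D + n • B.A - dlt ν)) =
        (B.b D - B.b (D - dlt ν)) * n + 2 * (B.chi D - B.chi (D - dlt ν)) := by
    intro n hn
    have h3 := h0 n ((le_max_left _ _).trans hn)
    have h4 := h1 n ((le_max_right _ _).trans hn)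
    have h5 : D - dlt ν + n • B.A = D + n • B.A - dlt ν := by abel
    rw [h5] at h4
    linear_combination h3 - h4
  have h3 := h2 (max n₀ n₁) le_rfl
  have h4 := h2 (max n₀ n₁ + 1) (Nat.le_succ _)
  refine ⟨((LibKB.h0 B.prm (D + (max n₀ n₁ + 1) • B.A) : ℤ) -
      LibKB.h0 B.prm (D + (max n₀ n₁ + 1) • B.A - dlt ν)) -
      ((LibKB.h0 B.prm (D + (max n₀ n₁) • B.A) : ℤ) -
      LibKB.h0 B.prm (D + (max n₀ n₁) • B.A - dlt ν)), ?_, max n₀ n₁, fun n hn => ?_⟩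
  · push_cast at h3 h4
    linear_combination h3 - h4
  · have h5 := h2 n hn
    push_cast at h3 h4
    have h6 : (2 : ℤ) ≠ 0 := two_ne_zero
    apply mul_left_cancel₀ h6
    linear_combination h5 - n * (h4 - h3)

/-- The geometric data of the base. -/
def toGeo : Geo L where
  prm := B.prm
  pts := B.pts
  dim := B.dim
  coord := B.coord
  ess := B.ess
  finDiv := B.finDiv
  centre := B.centre
  infPts := B.infPts
  finSec := B.finSec
  A := B.A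
  divA := B.divA
  sep := B.sep
  gen := B.gen
  lin := by
    intro ν hν D hD
    obtain ⟨a, -, n₀, h⟩ := B.exists_lin hν hD
    exact ⟨a, _, n₀, h⟩

/-- PROOF. `geo_curve B.toGeo hν` gives `a', e`; `exists_lin` and `lin_unique` (for the same `n`)
give `a = a'` and `e D = χ D - χ (D - dlt ν)` for every divisor `D`. -/
theorem exists_deg {ν : DVal L} (hν : ν ∈ B.prm) : ∃ a : ℤ, 0 < a ∧
    (∀ D, IsDiv B.prm D → B.b D - B.b (D - dlt ν) = 2 * a) ∧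
    ∀ D E, IsDiv B.prm D → IsDiv B.prm E →
      (B.chi (D + E) - B.chi (D + E - dlt ν)) + (B.chi 0 - B.chi (0 - dlt ν)) =
        (B.chi D - B.chi (D - dlt ν)) + (B.chi E - B.chi (E - dlt ν)) := by
  obtain ⟨a, e, ha, h1, h2, -⟩ := geo_curve B.toGeo hν
  have h3 : ∀ D, IsDiv B.prm D → B.b D - B.b (D - dlt ν) = 2 * a ∧
      e D = B.chi D - B.chi (D - dlt ν) := by
    intro D hD
    obtain ⟨n₀, h4⟩ := h1 D hD
    obtain ⟨a', h5, n₁, h6⟩ := B.exists_lin hν hD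
    have h7 : ∀ n : ℕ, max n₀ n₁ ≤ n →
        a * n + e D = a' * n + (B.chi D - B.chi (D - dlt ν)) := by
      intro n hn
      have h8 := h4 n ((le_max_left _ _).trans hn)
      have h9 := h6 n ((le_max_right _ _).trans hn)
      have h10 : e D + n * a = (B.chi D - B.chi (D - dlt ν)) + n * a' := h8.symm.trans h9
      linear_combination h10
    obtain ⟨h8, h9⟩ := lin_unique h7
    exact ⟨by rw [h5, h8], h9⟩
  refine ⟨a, ha, fun D hD => (h3 D hD).1, fun D E hD hE => ?_⟩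
  have h4 := h2 D E hD hE
  rw [(h3 D hD).2, (h3 E hE).2, (h3 _ (IsDiv.add' hD hE)).2, (h3 0 (isDiv_zero _)).2] at h4
  exact h4

end BaseData

end Pool.Agent.LibCUR
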