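import Pool.Agent.LibCUR.Basic

set_option autoImplicit false

namespace Pool.Agent.LibCUR

variable {κ : Type} [Field κ] [Algebra ℂ κ]

/-- **Concavity.**

PROOF. Let `E = U₁ × U₁` (dimension `2 dim U₁`) and `φ : E → κ ⧸ T₂`, `φ (u, w) = [h₀ u + h₁ w]`
(`T₂.mkQ ∘ ...`). (a) `range φ` contains `U₂.map T₂.mkQ` (by `h2`), and
`finrank U₂ ≤ finrank (U₂.map T₂.mkQ) + finrank T₂` (rank-nullity for `T₂.mkQ.domRestrict U₂`: its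
kernel embeds into `T₂`). (b) `ψ : U₀ × T₁ × T₁ → ker φ`, `ψ (c, s, t) = (h₁ c + s, - h₀ c + t)`
(elements of `U₁` by `h10 h11 hT1`; `h₀ (h₁ c + s) + h₁ (- h₀ c + t) = h₀ s + h₁ t ∈ T₂`). The kernel
of `ψ` embeds into `T₀` by `(c, s, t) ↦ c` (`h₁ c = -s ∈ T₁`, `h₀ c = t ∈ T₁`, so `c ∈ T₀` by
`sat`; `c = 0` gives `s = t = 0`). So `finrank (ker φ) ≥ finrank U₀ + 2 finrank T₁ - finrank T₀`.
(c) `finrank (range φ) + finrank (ker φ) = 2 finrank U₁`. -/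
theorem conc {h₀ h₁ : κ} (U₀ U₁ U₂ T₀ T₁ T₂ : Submodule ℂ κ) [Module.Finite ℂ U₀]
    [Module.Finite ℂ U₁] [Module.Finite ℂ U₂] [Module.Finite ℂ T₀] [Module.Finite ℂ T₁]
    [Module.Finite ℂ T₂] (hT1 : T₁ ≤ U₁) (h10 : ∀ c ∈ U₀, h₀ * c ∈ U₁)
    (h11 : ∀ c ∈ U₀, h₁ * c ∈ U₁) (h2 : U₂ ≤ Ph h₀ h₁ U₁ ⊔ T₂) (ht0 : ∀ c ∈ T₁, h₀ * c ∈ T₂)
    (ht1 : ∀ c ∈ T₁, h₁ * c ∈ T₂) (sat : ∀ c ∈ U₀, h₀ * c ∈ T₁ → h₁ * c ∈ T₁ → c ∈ T₀) :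
    Module.finrank ℂ U₂ + Module.finrank ℂ U₀ + 2 * Module.finrank ℂ T₁ ≤
      2 * Module.finrank ℂ U₁ + Module.finrank ℂ T₂ + Module.finrank ℂ T₀ := by
  -- the map `φ`
  obtain ⟨φ, hφ⟩ : ∃ φ : (U₁ × U₁) →ₗ[ℂ] (κ ⧸ T₂), ∀ p, φ p = T₂.mkQ (h₀ * p.1 + h₁ * p.2) :=
    ⟨T₂.mkQ ∘ₗ ((LinearMap.mulLeft ℂ h₀ ∘ₗ U₁.subtype).coprod (LinearMap.mulLeft ℂ h₁ ∘ₗ U₁.subtype)),
      fun p => rfl⟩
  obtain ⟨ψ, hψ⟩ : ∃ ψ : (U₀ × (T₁ × T₁)) →ₗ[ℂ] (U₁ × U₁), ∀ p,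
      ((ψ p).1 : κ) = h₁ * p.1 + p.2.1 ∧ ((ψ p).2 : κ) = -(h₀ * p.1) + p.2.2 := by
    refine ⟨LinearMap.prod
      (LinearMap.codRestrict U₁ ((LinearMap.mulLeft ℂ h₁ ∘ₗ U₀.subtype).coprod
        (T₁.subtype ∘ₗ LinearMap.fst ℂ T₁ T₁)) ?_)
      (LinearMap.codRestrict U₁ ((-(LinearMap.mulLeft ℂ h₀ ∘ₗ U₀.subtype)).coprod
        (T₁.subtype ∘ₗ LinearMap.snd ℂ T₁ T₁)) ?_), fun p => ⟨rfl, rfl⟩⟩
    · rintro ⟨c, s, t⟩
      exact U₁.add_mem (h11 _ c.2) (hT1 s.2)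
    · rintro ⟨c, s, t⟩
      exact U₁.add_mem (U₁.neg_mem (h10 _ c.2)) (hT1 t.2)
  have e1 := LinearMap.finrank_range_add_finrank_ker φ
  have e2 := LinearMap.finrank_range_add_finrank_ker ψ
  rw [Module.finrank_prod] at e1 e2
  rw [Module.finrank_prod] at e2
  -- (a)
  have a1 : U₂.map T₂.mkQ ≤ LinearMap.range φ := by
    rintro _ ⟨u, hu, rfl⟩
    obtain ⟨v, hv, t, ht, rfl⟩ := Submodule.mem_sup.1 (h2 hu)
    obtain ⟨a, ha, b, hb, rfl⟩ := Submodule.mem_sup.1 hv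
    obtain ⟨a, ha', rfl⟩ := mem_mulS.1 ha
    obtain ⟨b, hb', rfl⟩ := mem_mulS.1 hb
    refine ⟨(⟨a, ha'⟩, ⟨b, hb'⟩), ?_⟩
    rw [hφ, map_add T₂.mkQ _ t]
    have ht0 : T₂.mkQ t = 0 := by
      rw [Submodule.mkQ_apply, Submodule.Quotient.mk_eq_zero]
      exact ht
    rw [ht0, add_zero]
  have a2 : Module.finrank ℂ U₂ ≤ Module.finrank ℂ (U₂.map T₂.mkQ) + Module.finrank ℂ T₂ := by
    have e3 := LinearMap.finrank_range_add_finrank_ker (T₂.mkQ ∘ₗ U₂.subtype)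
    rw [LinearMap.range_comp, Submodule.range_subtype] at e3
    have e4 : Module.finrank ℂ (LinearMap.ker (T₂.mkQ ∘ₗ U₂.subtype)) ≤ Module.finrank ℂ T₂ := by
      refine LinearMap.finrank_le_finrank_of_injective
        (f := LinearMap.codRestrict T₂ (U₂.subtype ∘ₗ (LinearMap.ker (T₂.mkQ ∘ₗ U₂.subtype)).subtype) ?_) ?_
      · rintro ⟨x, hx⟩
        rw [LinearMap.mem_ker, LinearMap.comp_apply, Submodule.mkQ_apply,
          Submodule.Quotient.mk_eq_zero] at hx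
        exact hx
      · rintro ⟨x, hx⟩ ⟨y, hy⟩ hxy
        have h3 : (x : κ) = y := congrArg (fun z : T₂ => (z : κ)) hxy
        exact Subtype.ext (Subtype.ext h3)
    omega
  have a3 : Module.finrank ℂ (U₂.map T₂.mkQ) ≤ Module.finrank ℂ (LinearMap.range φ) :=
    Submodule.finrank_mono a1
  -- (b)
  have b1 : LinearMap.range ψ ≤ LinearMap.ker φ := by
    rintro _ ⟨p, rfl⟩
    rw [LinearMap.mem_ker, hφ, (hψ p).1, (hψ p).2, Submodule.mkQ_apply, Submodule.Quotient.mk_eq_zero]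
    have e3 : h₀ * (h₁ * (p.1 : κ) + p.2.1) + h₁ * (-(h₀ * p.1) + p.2.2) =
        h₀ * p.2.1 + h₁ * p.2.2 := by ring
    rw [e3]
    exact T₂.add_mem (ht0 _ p.2.1.2) (ht1 _ p.2.2.2)
  have b2 : Module.finrank ℂ (LinearMap.range ψ) ≤ Module.finrank ℂ (LinearMap.ker φ) :=
    Submodule.finrank_mono b1
  have b3 : Module.finrank ℂ (LinearMap.ker ψ) ≤ Module.finrank ℂ T₀ := by
    have key : ∀ p : U₀ × (T₁ × T₁), ψ p = 0 → h₁ * (p.1 : κ) + p.2.1 = 0 ∧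
        -(h₀ * (p.1 : κ)) + p.2.2 = 0 := by
      intro p hp
      rw [← (hψ p).1, ← (hψ p).2, hp]
      exact ⟨rfl, rfl⟩
    refine LinearMap.finrank_le_finrank_of_injective
      (f := LinearMap.codRestrict T₀ (U₀.subtype ∘ₗ LinearMap.fst ℂ U₀ (T₁ × T₁) ∘ₗ
        (LinearMap.ker ψ).subtype) ?_) ?_
    · rintro ⟨p, hp⟩
      obtain ⟨k1, k2⟩ := key p (LinearMap.mem_ker.1 hp)
      refine sat (p.1 : κ) p.1.2 ?_ ?_
      · have e3 : h₀ * (p.1 : κ) = p.2.2 := by linear_combination k2 * (-1)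
        rw [e3]
        exact p.2.2.2
      · have e3 : h₁ * (p.1 : κ) = -p.2.1 := by linear_combination k1
        rw [e3]
        exact T₁.neg_mem p.2.1.2
    · rintro ⟨p, hp⟩ ⟨q, hq⟩ hpq
      have h3 : (p.1 : κ) = q.1 := congrArg (fun z : T₀ => (z : κ)) hpq
      obtain ⟨k1, k2⟩ := key p (LinearMap.mem_ker.1 hp)
      obtain ⟨l1, l2⟩ := key q (LinearMap.mem_ker.1 hq)
      rw [h3] at k1 k2
      refine Subtype.ext (Prod.ext (Subtype.ext h3) (Prod.ext (Subtype.ext ?_) (Subtype.ext ?_)))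
      · linear_combination k1 - l1
      · linear_combination k2 - l2
  omega

end Pool.Agent.LibCUR
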