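import Pool.Agent.LibCUR.Basic

set_option autoImplicit false

namespace Pool.Agent.LibCUR

variable {κ : Type} [Field κ] [Algebra ℂ κ] {Λ : Type} [AddCommGroup Λ] {X : CurveSys κ Λ}
  {h₀ h₁ : κ}

/-- **Riemann's inequality.**

PROOF. Let `n` be large (`X.asym D`, for `n` and for `2 n`), `V = X.V (D + n • A)`. The spaces
`mulS (h₀ ^ n) V` and `mulS (h₁ ^ n) V` lie in `X.V (D + (2 * n) • A)` (`X.mul`, `pow_mem`), so does
their sup. `finrank (sup) + finrank (inf) = 2 finrank V` (`Submodule.finrank_sup_add_finrank_inf_eq`,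
`finrank_mulS`). The inf lies in `mulS (h₀ ^ n * h₁ ^ n) (VV D)`: `h₀ ^ n u = h₁ ^ n w` with
`u, w ∈ V`; `e = u / h₁ ^ n = w / h₀ ^ n` satisfies `e * h₀ ^ n = w ∈ X.V (D + n • A) ≤ VV _`
and `e * h₁ ^ n = u`, so `e ∈ VV D` by `VV_sat` and `le_VV`, and `h₀ ^ n u = h₀ ^ n h₁ ^ n e`. Hence
`finrank (VV D) ≥ 2 (e D + n a) - (e D + 2 n a)`. -/
theorem riemann (P : Pencil X h₀ h₁) (D : Λ) [Module.Finite ℂ (VV X h₀ h₁ D)] :
    X.e D ≤ Module.finrank ℂ (VV X h₀ h₁ D) := by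
  obtain ⟨n, hn⟩ := X.asym D
  have e1 := hn n le_rfl
  have e2 := hn (2 * n) (by omega)
  have e3 := Submodule.finrank_sup_add_finrank_inf_eq (mulS (h₀ ^ n) (X.V (D + n • X.A)))
    (mulS (h₁ ^ n) (X.V (D + n • X.A)))
  rw [finrank_mulS (pow_ne_zero _ P.ne0), finrank_mulS (pow_ne_zero _ P.ne1)] at e3
  have e4 : mulS (h₀ ^ n) (X.V (D + n • X.A)) ⊔ mulS (h₁ ^ n) (X.V (D + n • X.A)) ≤
      X.V (D + (2 * n) • X.A) := by
    have h4 : n • X.A + (D + n • X.A) = D + (2 * n) • X.A := by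
      rw [two_mul, add_nsmul]
      abel
    rw [sup_le_iff, mulS_le, mulS_le]
    refine ⟨fun y hy => ?_, fun y hy => ?_⟩
    · have h5 := X.mul _ _ _ _ (pow_mem P.mem0 n) hy
      rw [h4] at h5
      exact h5
    · have h5 := X.mul _ _ _ _ (pow_mem P.mem1 n) hy
      rw [h4] at h5
      exact h5
  have e5 : mulS (h₀ ^ n) (X.V (D + n • X.A)) ⊓ mulS (h₁ ^ n) (X.V (D + n • X.A)) ≤
      mulS (h₀ ^ n * h₁ ^ n) (VV X h₀ h₁ D) := by
    rintro z ⟨h5, h6⟩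
    obtain ⟨u, hu, rfl⟩ := mem_mulS.1 h5
    obtain ⟨w, hw, hwu⟩ := mem_mulS.1 h6
    have h0 : h₀ ^ n ≠ 0 := pow_ne_zero _ P.ne0
    have h1 : h₁ ^ n ≠ 0 := pow_ne_zero _ P.ne1
    have h7 : w / h₀ ^ n = u / h₁ ^ n := by
      rw [div_eq_div_iff h0 h1]
      linear_combination hwu
    refine mem_mulS.2 ⟨w / h₀ ^ n, VV_sat n n ?_ ?_, ?_⟩
    · rw [div_mul_cancel₀ _ h0]
      exact le_VV P _ hw
    · rw [h7, div_mul_cancel₀ _ h1]
      exact le_VV P _ hu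
    · rw [h7]
      field_simp
  have e6 := Submodule.finrank_mono e4
  have e7 := Submodule.finrank_mono e5
  rw [finrank_mulS (mul_ne_zero (pow_ne_zero _ P.ne0) (pow_ne_zero _ P.ne1))] at e7
  push_cast at e2
  zify at e3 e6 e7
  rw [e1] at e3
  rw [e2] at e6
  linarith

end Pool.Agent.LibCUR
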