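import Pool.Agent.LibCUR.Basic

set_option autoImplicit false

namespace Pool.Agent.LibCUR

section

variable {κ : Type} [Field κ] [Algebra ℂ κ]

/-- PROOF. Let `W` be a complement of `U'` in `U` (e.g. `Submodule.exists_isCompl` for
`U'.submoduleOf U` in `↥U`, mapped to `κ`; `W ⊔ U' = U`, `W ⊓ U' = ⊥`). If `W` were not finite
dimensional or `finrank W > m` it would contain a subspace of dimension exactly `m + 1`
(`exists_finset_linearIndependent_of_le_rank`/`Submodule.exists_finset_...`, or: infinite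
dimensional => there is a linearly independent family `Fin (m+1) → W`, take its span), contradiction
with `h`. So `W` is finite dimensional with `finrank W ≤ m`, and `U = U' ⊔ W`. -/
theorem finrank_le_of_complements {U U' : Submodule ℂ κ} [Module.Finite ℂ U'] (hU : U' ≤ U) (m : ℕ)
    (h : ∀ W : Submodule ℂ κ, W ≤ U → Module.Finite ℂ W → W ⊓ U' = ⊥ → Module.finrank ℂ W ≤ m) :
    Module.Finite ℂ U ∧ Module.finrank ℂ U ≤ Module.finrank ℂ U' + m := by
  classical
  obtain ⟨Q, hQ⟩ := Submodule.exists_isCompl (U'.submoduleOf U)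
  obtain ⟨W, hWdef⟩ : ∃ W : Submodule ℂ κ, W = Q.map U.subtype := ⟨_, rfl⟩
  have hWU : W ≤ U := by
    rw [hWdef]
    rintro _ ⟨q, _, rfl⟩
    exact q.2
  have hinf : W ⊓ U' = ⊥ := by
    rw [eq_bot_iff]
    rintro x ⟨hx1, hx2⟩
    rw [hWdef] at hx1
    obtain ⟨q, hq, rfl⟩ := hx1
    have h1 : q ∈ U'.submoduleOf U ⊓ Q := ⟨hx2, hq⟩
    rw [hQ.inf_eq_bot, Submodule.mem_bot] at h1
    rw [h1]
    exact Submodule.zero_mem _
  have hrank : Module.rank ℂ W ≤ m := by
    refine rank_le fun s hs => ?_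
    have h1 : (Submodule.span ℂ (s : Set W)).map W.subtype ≤ U := by
      rintro _ ⟨w, _, rfl⟩
      exact hWU w.2
    have h2 : Module.Finite ℂ ((Submodule.span ℂ (s : Set W)).map W.subtype) := by
      have : Module.Finite ℂ (Submodule.span ℂ (s : Set W)) := FiniteDimensional.span_finset ℂ s
      infer_instance
    have h3 : (Submodule.span ℂ (s : Set W)).map W.subtype ⊓ U' = ⊥ := by
      rw [eq_bot_iff]
      rintro x ⟨hx1, hx2⟩
      obtain ⟨w, _, rfl⟩ := hx1
      have h4 : (w : κ) ∈ W ⊓ U' := ⟨w.2, hx2⟩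
      rw [hinf] at h4
      exact h4
    have h4 := h _ h1 h2 h3
    have h5 : Module.finrank ℂ ((Submodule.span ℂ (s : Set W)).map W.subtype) =
        Module.finrank ℂ (Submodule.span ℂ (s : Set W)) :=
      (Submodule.equivMapOfInjective W.subtype W.injective_subtype _).finrank_eq.symm
    rw [h5, finrank_span_finset_eq_card hs] at h4
    exact h4
  have hfin : Module.Finite ℂ W := by
    rw [← Module.rank_lt_aleph0_iff]
    exact lt_of_le_of_lt hrank (Cardinal.natCast_lt_aleph0)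
  have hle : Module.finrank ℂ W ≤ m := Module.finrank_le_of_rank_le hrank
  have hU2 : U = U' ⊔ W := by
    apply le_antisymm
    · intro x hx
      have h1 : (⟨x, hx⟩ : U) ∈ U'.submoduleOf U ⊔ Q := by
        rw [hQ.sup_eq_top]
        exact Submodule.mem_top
      obtain ⟨a, ha, b, hb, hab⟩ := Submodule.mem_sup.1 h1
      have h2 : x = a + b := by
        have := congrArg (fun z : U => (z : κ)) hab
        exact this.symm
      rw [h2]
      refine Submodule.add_mem_sup ha ?_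
      rw [hWdef]
      exact ⟨b, hb, rfl⟩
    · exact sup_le hU hWU
  rw [hU2]
  refine ⟨inferInstance, ?_⟩
  have h1 := Submodule.finrank_add_le_finrank_add_finrank U' W
  omega

end

variable {κ : Type} [Field κ] [Algebra ℂ κ] {Λ : Type} [AddCommGroup Λ] {X : CurveSys κ Λ}
  {h₀ h₁ : κ}

/-- PROOF. Induction on `k`. `(Ph h₀ h₁)^[k+1] W = Ph h₀ h₁ ((Ph h₀ h₁)^[k] W)` contains
`mulS h₀ ((Ph h₀ h₁)^[k] W)` and `mulS (h₁ ^ (k+1)) W` (small induction). These two have intersection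
`⊥`: `h₁ ^ (k+1) * w = h₀ * y`, `w ∈ W`, `y ∈ (Ph h₀ h₁)^[k] W ≤ VV (D + k • A)`
(`Ph_iter_VV_le`). Let `e = w / h₀`. Then `e * h₀ ^ 1 = w ∈ VV D = VV (D - A + 1 • A)` and
`e * h₁ ^ (k+1) = y ∈ VV (D + k • A) = VV (D - A + (k+1) • A)`; by `VV_sat` `e ∈ VV (D - A)`, so
`w = h₀ e ∈ W ⊓ mulS h₀ (VV (D - A)) = ⊥`. Dimensions: `Submodule.finrank_sup_add_finrank_inf_eq`,
`finrank_mulS`, `Submodule.finrank_mono`. -/
theorem growth_indep (P : Pencil X h₀ h₁) (D : Λ) (W : Submodule ℂ κ) [Module.Finite ℂ W]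
    (hW : W ≤ VV X h₀ h₁ D) (hd : W ⊓ mulS h₀ (VV X h₀ h₁ (D - X.A)) = ⊥) (k : ℕ) :
    (k + 1) * Module.finrank ℂ W ≤
      Module.finrank ℂ ((Ph h₀ h₁)^[k] W : Submodule ℂ κ) := by
  have hpow : ∀ k : ℕ, mulS (h₁ ^ k) W ≤ (Ph h₀ h₁)^[k] W := by
    intro k
    induction k with
    | zero =>
      rw [mulS_le]
      intro y hy
      simpa using hy
    | succ k ih =>
      rw [Function.iterate_succ_apply', pow_succ', ← mulS_mulS]
      exact (mulS_mono ih).trans le_sup_right
  induction k with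
  | zero =>
    rw [zero_add, one_mul]
    exact le_rfl
  | succ k ih =>
    have h1 : mulS h₀ ((Ph h₀ h₁)^[k] W) ⊔ mulS (h₁ ^ (k + 1)) W ≤ (Ph h₀ h₁)^[k + 1] W := by
      refine sup_le ?_ (hpow (k + 1))
      rw [Function.iterate_succ_apply']
      exact le_sup_left
    have h2 : mulS h₀ ((Ph h₀ h₁)^[k] W) ⊓ mulS (h₁ ^ (k + 1)) W = ⊥ := by
      rw [eq_bot_iff]
      rintro z ⟨hz1, hz2⟩
      obtain ⟨y, hy, rfl⟩ := mem_mulS.1 hz1
      obtain ⟨w, hw, hwy⟩ := mem_mulS.1 hz2
      have hy' := Ph_iter_VV_le P hW k hy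
      have e1 : w / h₀ ∈ VV X h₀ h₁ (D - X.A) := by
        refine VV_sat 1 (k + 1) ?_ ?_
        · rw [pow_one, div_mul_cancel₀ _ P.ne0, one_nsmul, sub_add_cancel]
          exact hW hw
        · have e2 : w / h₀ * h₁ ^ (k + 1) = y := by
            rw [div_mul_eq_mul_div, div_eq_iff P.ne0]
            linear_combination hwy
          have e3 : D - X.A + (k + 1) • X.A = D + k • X.A := by
            rw [succ_nsmul]
            abel
          rw [e2, e3]
          exact hy'
      have e2 : w ∈ W ⊓ mulS h₀ (VV X h₀ h₁ (D - X.A)) :=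
        ⟨hw, mem_mulS.2 ⟨_, e1, mul_div_cancel₀ _ P.ne0⟩⟩
      rw [hd, Submodule.mem_bot] at e2
      rw [← hwy, e2, mul_zero]
      exact Submodule.zero_mem _
    have h3 := Submodule.finrank_sup_add_finrank_inf_eq (mulS h₀ ((Ph h₀ h₁)^[k] W))
      (mulS (h₁ ^ (k + 1)) W)
    rw [h2, finrank_bot, add_zero, finrank_mulS P.ne0, finrank_mulS (pow_ne_zero _ P.ne1)] at h3
    have h4 := Submodule.finrank_mono h1
    have h5 : (k + 1 + 1) * Module.finrank ℂ W = (k + 1) * Module.finrank ℂ W + Module.finrank ℂ W := by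
      ring
    omega

end Pool.Agent.LibCUR
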