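import Pool.Agent.LibCUR.A03

set_option autoImplicit false

namespace Pool.Agent.LibCUR

variable {κ : Type} [Field κ] [Algebra ℂ κ] {Λ : Type} [AddCommGroup Λ] {X : CurveSys κ Λ}
  {h₀ h₁ : κ}

/-- PROOF. Suppose not. Let `a = X.a`, `m = (a - 1).toNat`. Claim: every finite dimensional
`W ≤ VV (n • A)` with `W ⊓ mulS h₀ (VV (n • A - A)) = ⊥` has `finrank W ≤ m`: otherwise
`a ≤ finrank W` and `growth_indep` shows that `n, W` are as wanted. Induction on `n`: `VV (n • A)` is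
finite dimensional of dimension `≤ 1 + n * m`: `n = 0`: `VV 0 ≤ span {1}` by `P.sat`; step:
`finrank_le_of_complements` with `U = VV ((n+1) • A)`, `U' = mulS h₀ (VV (n • A))` (`≤ U` by
`VV_mul`, `le_VV`, `P.mem0`; `(n+1) • A - A = n • A`). For `n ≥ n₀` (`X.asym 0`) and `n ≥ 2 - e 0`:
`e 0 + n a = finrank (X.V (n • A)) ≤ finrank (VV (n • A)) ≤ 1 + n (a - 1)`, contradiction. -/
theorem exists_indep (P : Pencil X h₀ h₁) : ∃ (n : ℕ) (W : Submodule ℂ κ),
    W ≤ VV X h₀ h₁ (n • X.A) ∧ Module.Finite ℂ W ∧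
      ∀ k : ℕ, X.a * (k + 1) ≤
        (Module.finrank ℂ ((Ph h₀ h₁)^[k] W : Submodule ℂ κ) : ℤ) := by
  by_contra hcon
  push Not at hcon
  have ha := X.apos
  set a : ℤ := X.a with haa
  obtain ⟨m, hm⟩ : ∃ m : ℕ, (m : ℤ) = a - 1 := ⟨(a - 1).toNat, Int.toNat_of_nonneg (by omega)⟩
  have claim : ∀ (n : ℕ) (W : Submodule ℂ κ), W ≤ VV X h₀ h₁ (n • X.A) → Module.Finite ℂ W →
      W ⊓ mulS h₀ (VV X h₀ h₁ (n • X.A - X.A)) = ⊥ → Module.finrank ℂ W ≤ m := by
    intro n W hW hfin hd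
    by_contra hlt
    push Not at hlt
    obtain ⟨k, hk⟩ := hcon n W hW hfin
    haveI := hfin
    have h1 := growth_indep P (n • X.A) W hW hd k
    have h2 : a ≤ (Module.finrank ℂ W : ℤ) := by
      have : (m : ℤ) + 1 ≤ (Module.finrank ℂ W : ℤ) := by exact_mod_cast hlt
      omega
    have h3 : ((k : ℤ) + 1) * (Module.finrank ℂ W : ℤ) ≤
        (Module.finrank ℂ ((Ph h₀ h₁)^[k] W : Submodule ℂ κ) : ℤ) := by exact_mod_cast h1
    have h4 : a * ((k : ℤ) + 1) ≤ ((k : ℤ) + 1) * (Module.finrank ℂ W : ℤ) := by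
      rw [mul_comm]
      exact mul_le_mul_of_nonneg_left h2 (by positivity)
    linarith
  have main : ∀ n : ℕ, Module.Finite ℂ (VV X h₀ h₁ (n • X.A)) ∧
      Module.finrank ℂ (VV X h₀ h₁ (n • X.A)) ≤ 1 + n * m := by
    intro n
    induction n with
    | zero =>
      have h1 : VV X h₀ h₁ ((0 : ℕ) • X.A) ≤ Submodule.span ℂ {(1 : κ)} := by
        intro c hc
        rw [zero_nsmul] at hc
        obtain ⟨z, rfl⟩ := P.sat c hc
        rw [Submodule.mem_span_singleton]
        exact ⟨z, by rw [Algebra.smul_def, mul_one]⟩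
      haveI : Module.Finite ℂ (Submodule.span ℂ {(1 : κ)}) :=
        Module.Finite.span_of_finite ℂ (Set.finite_singleton _)
      refine ⟨Submodule.finiteDimensional_of_le h1, ?_⟩
      have h2 := Submodule.finrank_mono h1
      have h3 : Module.finrank ℂ (Submodule.span ℂ {(1 : κ)}) ≤ 1 := by
        have := finrank_span_le_card (R := ℂ) ({(1 : κ)} : Set κ)
        simpa using this
      omega
    | succ n ih =>
      obtain ⟨ih1, ih2⟩ := ih
      haveI := ih1
      have h1 : (n + 1) • X.A - X.A = n • X.A := by rw [succ_nsmul, add_sub_cancel_right]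
      have hU : mulS h₀ (VV X h₀ h₁ (n • X.A)) ≤ VV X h₀ h₁ ((n + 1) • X.A) := by
        rw [mulS_le]
        intro y hy
        rw [succ_nsmul, mul_comm]
        exact VV_mul hy (le_VV P _ P.mem0)
      have h2 := finrank_le_of_complements hU m (fun W hW hfin hd => by
        refine claim (n + 1) W hW hfin ?_
        rw [h1]
        exact hd)
      refine ⟨h2.1, h2.2.trans ?_⟩
      rw [finrank_mulS P.ne0]
      nlinarith
  obtain ⟨n₀, hn₀⟩ := X.asym 0
  set n : ℕ := max n₀ (2 - X.e 0).toNat with hn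
  have h1 := hn₀ n (le_max_left _ _)
  rw [zero_add] at h1
  obtain ⟨h2, h3⟩ := main n
  haveI := h2
  have h4 := Submodule.finrank_mono (le_VV P (n • X.A))
  have h5 : 2 - X.e 0 ≤ (n : ℤ) := by
    have := Int.self_le_toNat (2 - X.e 0)
    have h6 : ((2 - X.e 0).toNat : ℤ) ≤ n := by exact_mod_cast le_max_right _ _
    omega
  have h6 : (Module.finrank ℂ (X.V (n • X.A)) : ℤ) ≤ 1 + n * m := by exact_mod_cast h4.trans h3
  rw [h1, hm] at h6
  nlinarith

end Pool.Agent.LibCUR
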