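import Pool.Agent.LibCUR.A01

set_option autoImplicit false

namespace Pool.Agent.LibCUR

variable {κ : Type} [Field κ] [Algebra ℂ κ]

/-- PROOF. `u k = finrank ((Ph h₀ h₁)^[k] F)` is concave: `conc` with `U₀ = Ph^[k] F`,
`U₁ = Ph^[k+1] F = Ph U₀`, `U₂ = Ph^[k+2] F = Ph U₁` and `T₀ = T₁ = T₂ = ⊥` (`sat`: `h₀ * c = 0`
implies `c = 0`). `u k ≥ finrank (Ph^[k] W) ≥ a (k + 1)` (`Ph_iter_mono`,
`Submodule.finrank_mono`). Use `seq_growth` (with constant `a`). -/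
theorem growth {h₀ h₁ : κ} (hne : h₀ ≠ 0) (W F : Submodule ℂ κ) [Module.Finite ℂ F] (a : ℤ)
    (hW : ∀ k : ℕ, a * (k + 1) ≤ (Module.finrank ℂ ((Ph h₀ h₁)^[k] W : Submodule ℂ κ) : ℤ))
    (hle : W ≤ F) (k : ℕ) : (Module.finrank ℂ F : ℤ) + a * k ≤
      Module.finrank ℂ ((Ph h₀ h₁)^[k] F : Submodule ℂ κ) := by
  have h1 := seq_growth (fun k => (Module.finrank ℂ ((Ph h₀ h₁)^[k] F : Submodule ℂ κ) : ℤ)) ?_ a a ?_ k
  · exact h1
  · intro k
    have h2 := conc (h₀ := h₀) (h₁ := h₁) ((Ph h₀ h₁)^[k] F) ((Ph h₀ h₁)^[k + 1] F)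
      ((Ph h₀ h₁)^[k + 2] F) ⊥ ⊥ ⊥ bot_le ?_ ?_ ?_ ?_ ?_ ?_
    · rw [finrank_bot] at h2
      have h3 : Module.finrank ℂ ((Ph h₀ h₁)^[k + 2] F : Submodule ℂ κ) +
          Module.finrank ℂ ((Ph h₀ h₁)^[k] F : Submodule ℂ κ) ≤
          2 * Module.finrank ℂ ((Ph h₀ h₁)^[k + 1] F : Submodule ℂ κ) := by omega
      exact_mod_cast h3
    · intro c hc
      rw [Function.iterate_succ_apply']
      exact (Ph_le.1 le_rfl c hc).1
    · intro c hc
      rw [Function.iterate_succ_apply']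
      exact (Ph_le.1 le_rfl c hc).2
    · rw [Function.iterate_succ_apply']
      exact le_sup_left
    · intro c hc
      rw [Submodule.mem_bot] at hc ⊢
      rw [hc, mul_zero]
    · intro c hc
      rw [Submodule.mem_bot] at hc ⊢
      rw [hc, mul_zero]
    · intro c _ h3 _
      rw [Submodule.mem_bot] at h3 ⊢
      exact (mul_eq_zero.1 h3).resolve_left hne
  · intro k
    have h2 := hW k
    have h3 : Module.finrank ℂ ((Ph h₀ h₁)^[k] W : Submodule ℂ κ) ≤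
        Module.finrank ℂ ((Ph h₀ h₁)^[k] F : Submodule ℂ κ) := Submodule.finrank_mono (Ph_iter_mono hle k)
    have h4 : (Module.finrank ℂ ((Ph h₀ h₁)^[k] W : Submodule ℂ κ) : ℤ) ≤
        Module.finrank ℂ ((Ph h₀ h₁)^[k] F : Submodule ℂ κ) := by exact_mod_cast h3
    linarith

end Pool.Agent.LibCUR
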