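import Pool.Agent.LibCUR.A04
import Pool.Agent.LibCUR.A05

set_option autoImplicit false

namespace Pool.Agent.LibCUR

variable {κ : Type} [Field κ] [Algebra ℂ κ] {Λ : Type} [AddCommGroup Λ] {X : CurveSys κ Λ}
  {h₀ h₁ : κ}

/-- PROOF. Let `a = X.a`. Take `n', W` from `exists_indep P`; `j₀` from `exists_uniform`
(`(Ph h₀ h₁)^[j] W ≤ X.V (n' • A + j • A)` for `j ≥ j₀`; in particular
`mulS (h₀ ^ j) W ≤ X.V ((n' + j) • A)`); `m ≥ n₀(D)` so large that `e D + m a ≥ 1`, and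
`0 ≠ β ∈ X.V (D + m • A)`. Let `n ≥ n' + m + j₀`, `n ≥ n₀(D)`, `j = n - n' - m`,
`W₁ = mulS (β * h₀ ^ j) W ≤ X.V (D + n • A)`; `finrank (Ph^[k] W₁) = finrank (Ph^[k] W)` by
`mulS_Ph_iter` and `finrank_mulS`. Let `c ∈ VV (D + n • A)` and
`F = X.V (D + n • A) ⊔ span {c} ≤ VV (D + n • A)`. By `exists_uniform`
`Ph^[k] F ≤ X.V (D + n • A + k • A)` for all large `k`; by `growth`
`finrank F + a k ≤ finrank (Ph^[k] F) ≤ e D + (n + k) a`, so
`finrank F ≤ e D + n a = finrank (X.V (D + n • A))`, so `F = X.V (D + n • A)`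
(`Submodule.eq_of_le_of_finrank_le`), `c ∈ X.V (D + n • A)`. The other inclusion is `le_VV`. -/
theorem VV_eq (P : Pencil X h₀ h₁) (D : Λ) :
    ∃ n₁ : ℕ, ∀ n, n₁ ≤ n → VV X h₀ h₁ (D + n • X.A) = X.V (D + n • X.A) := by
  have ha := X.apos
  obtain ⟨n', W, hW, hWfin, hgrow⟩ := exists_indep P
  haveI := hWfin
  obtain ⟨j₀, hj₀⟩ := exists_uniform hW
  obtain ⟨n₀, hn₀⟩ := X.asym D
  -- a nonzero section `β`
  obtain ⟨m, hm, hmd⟩ : ∃ m : ℕ, n₀ ≤ m ∧ 1 ≤ X.e D + m * X.a := by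
    refine ⟨max n₀ (1 - X.e D).toNat, le_max_left _ _, ?_⟩
    have h1 := Int.self_le_toNat (1 - X.e D)
    have h2 : ((1 - X.e D).toNat : ℤ) ≤ (max n₀ (1 - X.e D).toNat : ℕ) := by
      exact_mod_cast le_max_right _ _
    have h3 : (0 : ℤ) ≤ (max n₀ (1 - X.e D).toNat : ℕ) := by positivity
    nlinarith
  have hfr := hn₀ m hm
  obtain ⟨β, hβ, hβ0⟩ : ∃ β ∈ X.V (D + m • X.A), β ≠ 0 := by
    by_contra hcon
    push Not at hcon
    have h1 : X.V (D + m • X.A) = ⊥ := by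
      rw [Submodule.eq_bot_iff]
      exact hcon
    rw [h1, finrank_bot] at hfr
    push_cast at hfr
    omega
  refine ⟨n' + m + j₀ + n₀, fun n hn => le_antisymm ?_ (le_VV P _)⟩
  intro c hc
  set j : ℕ := n - n' - m with hj
  have hW₁ : mulS (β * h₀ ^ j) W ≤ X.V (D + n • X.A) := by
    rw [mulS_le]
    intro y hy
    have h1 : h₀ ^ j * y ∈ X.V (n' • X.A + j • X.A) := by
      refine hj₀ j (by omega) ?_
      have h2 : ∀ i : ℕ, h₀ ^ i * y ∈ (Ph h₀ h₁)^[i] W := by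
        intro i
        induction i with
        | zero => simpa using hy
        | succ i ih =>
          rw [Function.iterate_succ_apply', Ph, pow_succ, mul_comm (h₀ ^ i) h₀, mul_assoc]
          exact Submodule.mem_sup_left (mulS_mem ih)
      exact h2 j
    have h2 := X.mul _ _ _ _ hβ h1
    have h3 : D + m • X.A + (n' • X.A + j • X.A) = D + n • X.A := by
      have h4 : n • X.A = m • X.A + (n' • X.A + j • X.A) := by
        rw [← add_nsmul, ← add_nsmul]
        congr 1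
        omega
      rw [h4, add_assoc]
    rw [h3] at h2
    rw [mul_assoc]
    exact h2
  have hgrow₁ : ∀ k : ℕ, X.a * (k + 1) ≤
      (Module.finrank ℂ ((Ph h₀ h₁)^[k] (mulS (β * h₀ ^ j) W) : Submodule ℂ κ) : ℤ) := by
    intro k
    rw [← mulS_Ph_iter, finrank_mulS (mul_ne_zero hβ0 (pow_ne_zero _ P.ne0))]
    exact hgrow k
  haveI : Module.Finite ℂ (Submodule.span ℂ {c}) :=
    Module.Finite.span_of_finite ℂ (Set.finite_singleton _)
  set F : Submodule ℂ κ := X.V (D + n • X.A) ⊔ Submodule.span ℂ {c} with hF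
  haveI : Module.Finite ℂ F := by
    rw [hF]
    infer_instance
  have hFV : F ≤ VV X h₀ h₁ (D + n • X.A) := by
    rw [hF]
    refine sup_le (le_VV P _) ?_
    rw [Submodule.span_le, Set.singleton_subset_iff]
    exact hc
  obtain ⟨k₀, hk₀⟩ := exists_uniform hFV
  have h1 := growth P.ne0 (mulS (β * h₀ ^ j) W) F (X.a) hgrow₁ (hW₁.trans le_sup_left)
    (max k₀ n₀)
  have h2 := Submodule.finrank_mono (hk₀ (max k₀ n₀) (le_max_left _ _))
  have h3 := hn₀ (n + max k₀ n₀) (by omega)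
  have h4 : D + n • X.A + (max k₀ n₀) • X.A = D + (n + max k₀ n₀) • X.A := by
    rw [add_nsmul, add_assoc]
  rw [h4] at h2
  have h2' : (Module.finrank ℂ ((Ph h₀ h₁)^[max k₀ n₀] F : Submodule ℂ κ) : ℤ) ≤
      (Module.finrank ℂ (X.V (D + (n + max k₀ n₀) • X.A)) : ℤ) := by exact_mod_cast h2
  have h5 := hn₀ n (by omega)
  have h6 : (Module.finrank ℂ F : ℤ) ≤ (Module.finrank ℂ (X.V (D + n • X.A)) : ℤ) := by
    rw [h5]
    rw [h3] at h2'
    push_cast at h1 h2'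
    nlinarith
  have h7 : X.V (D + n • X.A) = F :=
    Submodule.eq_of_le_of_finrank_le (by rw [hF]; exact le_sup_left) (by exact_mod_cast h6)
  rw [h7, hF]
  exact Submodule.mem_sup_right (Submodule.mem_span_singleton_self c)

/-- PROOF. `VV_eq`: `VV (D + n • A) = X.V (D + n • A)` is finite dimensional, and multiplication with
`h₀ ^ n ≠ 0` is an injective map `VV D → VV (D + n • A)` (`VV_mul`, `le_VV`, `pow_mem`). -/
theorem VV_finite (P : Pencil X h₀ h₁) (D : Λ) : Module.Finite ℂ (VV X h₀ h₁ D) := by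
  obtain ⟨n, hn⟩ := VV_eq P D
  have h1 := hn n le_rfl
  have h2 : mulS (h₀ ^ n) (VV X h₀ h₁ D) ≤ X.V (D + n • X.A) := by
    rw [← h1, mulS_le]
    intro y hy
    rw [mul_comm]
    exact VV_mul hy (le_VV P _ (pow_mem P.mem0 n))
  have h3 : Module.Finite ℂ (Submodule.map (LinearMap.mulLeft ℂ (h₀ ^ n)) (VV X h₀ h₁ D)) :=
    Submodule.finiteDimensional_of_le h2
  have h4 : Function.Injective (LinearMap.mulLeft ℂ (h₀ ^ n)) := fun a b hab =>
    mul_left_cancel₀ (pow_ne_zero n P.ne0) (by simpa using hab)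
  exact Module.Finite.equiv
    (Submodule.equivMapOfInjective (LinearMap.mulLeft ℂ (h₀ ^ n)) h4 (VV X h₀ h₁ D)).symm

end Pool.Agent.LibCUR
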