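import Pool.Agent.LibCUR.A06

set_option autoImplicit false

namespace Pool.Agent.LibCUR

variable {κ : Type} [Field κ] [Algebra ℂ κ] {Λ : Type} [AddCommGroup Λ] {X : CurveSys κ Λ}
  {h₀ h₁ : κ}

/-- PROOF. All `VV` are finite dimensional (`VV_finite`). Let `T k = mulS τ (VV (D' + k • A))`,
`U 0 = VV D`, `U (k+1) = Ph h₀ h₁ (U k) ⊔ T (k+1)` (recursively). Then `T k ≤ VV (D + k • A)`
(`VV_mul`), `T k ≤ U k`, `U k ≤ VV (D + k • A)` (`Ph_VV_le`), `h₀ T k, h₁ T k ≤ T (k+1)`. Saturation: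
`h₀ c, h₁ c ∈ T (k+1)` implies `c ∈ T k`: `h₀ (c / τ), h₁ (c / τ) ∈ VV (D' + (k+1) • A)`, so
`c / τ ∈ VV (D' + k • A)` by `VV_sat_one`. By `conc` (`U k, U (k+1), U (k+2), T k, T (k+1),
T (k+2)`) the sequence `u k = finrank (U k) - finrank (T k)` is concave, it is `≥ 0`, so
`u 0 ≤ u k` (`seq_le`). For large `k` (`VV_eq` and `X.asym` for `D` and `D'`; `finrank_mulS`):
`u k ≤ (e D + k a) - (e D' + k a)`. -/
theorem VV_mono (P : Pencil X h₀ h₁) (D D' : Λ) {τ : κ} (hτ : τ ≠ 0)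
    (hτ' : τ ∈ VV X h₀ h₁ (D - D')) :
    (Module.finrank ℂ (VV X h₀ h₁ D) : ℤ) - Module.finrank ℂ (VV X h₀ h₁ D') ≤
      X.e D - X.e D' := by
  have hfin : ∀ E, Module.Finite ℂ (VV X h₀ h₁ E) := fun E => VV_finite P E
  obtain ⟨T, hT⟩ : ∃ T : ℕ → Submodule ℂ κ, ∀ k, T k = mulS τ (VV X h₀ h₁ (D' + k • X.A)) :=
    ⟨_, fun _ => rfl⟩
  obtain ⟨U, hU0, hUs⟩ : ∃ U : ℕ → Submodule ℂ κ, U 0 = VV X h₀ h₁ D ∧
      ∀ k, U (k + 1) = Ph h₀ h₁ (U k) ⊔ T (k + 1) :=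
    ⟨fun k => Nat.rec (VV X h₀ h₁ D) (fun k V => Ph h₀ h₁ V ⊔ T (k + 1)) k, rfl, fun _ => rfl⟩
  have hTV : ∀ k, T k ≤ VV X h₀ h₁ (D + k • X.A) := by
    intro k
    rw [hT, mulS_le]
    intro y hy
    have h1 := VV_mul hτ' hy
    have h2 : D - D' + (D' + k • X.A) = D + k • X.A := by abel
    rw [h2] at h1
    exact h1
  have hUV : ∀ k, U k ≤ VV X h₀ h₁ (D + k • X.A) := by
    intro k
    induction k with
    | zero =>
      rw [hU0, zero_nsmul, add_zero]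
    | succ k ih =>
      rw [hUs]
      refine sup_le ?_ (hTV _)
      rw [succ_nsmul, ← add_assoc]
      exact Ph_VV_le P ih
  have hTU : ∀ k, T k ≤ U k := by
    intro k
    cases k with
    | zero =>
      rw [hU0]
      have h1 := hTV 0
      rw [zero_nsmul, add_zero] at h1
      exact h1
    | succ k =>
      rw [hUs]
      exact le_sup_right
  have hUf : ∀ k, Module.Finite ℂ (U k) := fun k => Submodule.finiteDimensional_of_le (hUV k)
  have hTf : ∀ k, Module.Finite ℂ (T k) := fun k => Submodule.finiteDimensional_of_le (hTV k)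
  have hT0 : ∀ k, ∀ c ∈ T k, h₀ * c ∈ T (k + 1) ∧ h₁ * c ∈ T (k + 1) := by
    intro k c hc
    rw [hT] at hc
    obtain ⟨y, hy, rfl⟩ := mem_mulS.1 hc
    have h1 := Ph_le.1 (Ph_VV_le P (le_refl (VV X h₀ h₁ (D' + k • X.A)))) y hy
    rw [add_assoc, ← succ_nsmul] at h1
    rw [hT]
    refine ⟨mem_mulS.2 ⟨_, h1.1, by ring⟩, mem_mulS.2 ⟨_, h1.2, by ring⟩⟩
  have hTsat : ∀ k, ∀ c, h₀ * c ∈ T (k + 1) → h₁ * c ∈ T (k + 1) → c ∈ T k := by
    intro k c hc0 hc1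
    rw [hT] at hc0 hc1
    obtain ⟨y0, hy0, h3⟩ := mem_mulS.1 hc0
    obtain ⟨y1, hy1, h4⟩ := mem_mulS.1 hc1
    rw [succ_nsmul, ← add_assoc] at hy0 hy1
    rw [hT]
    refine mem_mulS.2 ⟨c / τ, VV_sat_one ?_ ?_, mul_div_cancel₀ _ hτ⟩
    · have h5 : h₀ * (c / τ) = y0 := by
        rw [mul_div_assoc', ← h3, mul_div_cancel_left₀ _ hτ]
      rw [h5]
      exact hy0
    · have h5 : h₁ * (c / τ) = y1 := by
        rw [mul_div_assoc', ← h4, mul_div_cancel_left₀ _ hτ]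
      rw [h5]
      exact hy1
  have hconc : ∀ k, ((Module.finrank ℂ (U (k + 2)) : ℤ) - Module.finrank ℂ (T (k + 2))) +
      ((Module.finrank ℂ (U k) : ℤ) - Module.finrank ℂ (T k)) ≤
      2 * ((Module.finrank ℂ (U (k + 1)) : ℤ) - Module.finrank ℂ (T (k + 1))) := by
    intro k
    have h1 := conc (h₀ := h₀) (h₁ := h₁) (U k) (U (k + 1)) (U (k + 2)) (T k) (T (k + 1)) (T (k + 2))
      (hTU _) ?_ ?_ ?_ ?_ ?_ ?_
    · zify at h1
      linarith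
    · intro c hc
      rw [hUs]
      exact (le_sup_left : Ph h₀ h₁ (U k) ≤ _) (Ph_le.1 le_rfl c hc).1
    · intro c hc
      rw [hUs]
      exact (le_sup_left : Ph h₀ h₁ (U k) ≤ _) (Ph_le.1 le_rfl c hc).2
    · exact (hUs (k + 1)).le
    · exact fun c hc => (hT0 (k + 1) c hc).1
    · exact fun c hc => (hT0 (k + 1) c hc).2
    · exact fun c _ h2 h3 => hTsat k c h2 h3
  have hmain := fun k => seq_le (fun k => (Module.finrank ℂ (U k) : ℤ) - Module.finrank ℂ (T k)) hconc 0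
    (fun k => by
      have h1 := Submodule.finrank_mono (hTU k)
      have h2 : (Module.finrank ℂ (T k) : ℤ) ≤ Module.finrank ℂ (U k) := by exact_mod_cast h1
      linarith) k
  obtain ⟨n1, hn1⟩ := VV_eq P D
  obtain ⟨n2, hn2⟩ := VV_eq P D'
  obtain ⟨n3, hn3⟩ := X.asym D
  obtain ⟨n4, hn4⟩ := X.asym D'
  obtain ⟨k, hk⟩ : ∃ k, k = n1 + n2 + n3 + n4 := ⟨_, rfl⟩
  have h1 := hmain k
  have h2 : (Module.finrank ℂ (U k) : ℤ) ≤ Module.finrank ℂ (VV X h₀ h₁ (D + k • X.A)) := by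
    exact_mod_cast Submodule.finrank_mono (hUV k)
  rw [hn1 k (by omega), hn3 k (by omega)] at h2
  have h3 : (Module.finrank ℂ (T k) : ℤ) = Module.finrank ℂ (VV X h₀ h₁ (D' + k • X.A)) := by
    rw [hT, finrank_mulS hτ]
  rw [hn2 k (by omega), hn4 k (by omega)] at h3
  have h4 : (Module.finrank ℂ (T 0) : ℤ) = Module.finrank ℂ (VV X h₀ h₁ D') := by
    rw [hT, finrank_mulS hτ, zero_nsmul, add_zero]
  rw [hU0, h4, h3] at h1
  linarith

end Pool.Agent.LibCUR
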