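import Pool.Agent.LibCUR.A02
import Pool.Agent.LibCUR.A07

set_option autoImplicit false

namespace Pool.Agent.LibCUR

variable {κ : Type} [Field κ] [Algebra ℂ κ] {Λ : Type} [AddCommGroup Λ] {X : CurveSys κ Λ}
  {h₀ h₁ : κ}

theorem e_add_nsmul (X : CurveSys κ Λ) (D : Λ) (n : ℕ) :
    X.e (D + n • X.A) = X.e D + n * X.a := by
  obtain ⟨n₀, h0⟩ := X.asym D
  obtain ⟨n₁, h1⟩ := X.asym (D + n • X.A)
  have h2 := h0 (n + (n₀ + n₁)) (by omega)
  have h3 := h1 (n₀ + n₁) (by omega)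
  rw [add_assoc, ← add_nsmul, h2] at h3
  push_cast at h3
  linarith

theorem e_sub_nsmul (X : CurveSys κ Λ) (D : Λ) (n : ℕ) :
    X.e (D - n • X.A) = X.e D - n * X.a := by
  have h := e_add_nsmul X (D - n • X.A) n
  rw [sub_add_cancel] at h
  linarith

theorem VV_zero (P : Pencil X h₀ h₁) : VV X h₀ h₁ 0 = Submodule.span ℂ {1} := by
  apply le_antisymm
  · intro c hc
    obtain ⟨z, rfl⟩ := P.sat c hc
    rw [Submodule.mem_span_singleton]
    exact ⟨z, by rw [Algebra.smul_def, mul_one]⟩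
  · rw [Submodule.span_singleton_le_iff_mem]
    exact le_VV P 0 X.one

theorem finrank_VV_zero (P : Pencil X h₀ h₁) : Module.finrank ℂ (VV X h₀ h₁ 0) = 1 := by
  rw [VV_zero P, finrank_span_singleton one_ne_zero]

theorem finrank_V_le (P : Pencil X h₀ h₁) (D : Λ) :
    (Module.finrank ℂ (X.V D) : ℤ) ≤ Module.finrank ℂ (VV X h₀ h₁ D) := by
  have := VV_finite P D
  exact_mod_cast Submodule.finrank_mono (le_VV P D)

theorem bounds_of_ne_bot (P : Pencil X h₀ h₁) (D : Λ) (h : X.V D ≠ ⊥) :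
    X.e 0 ≤ X.e D ∧ (Module.finrank ℂ (X.V D) : ℤ) ≤ X.e D - X.e 0 + 1 := by
  obtain ⟨τ, hτ, hτ0⟩ := Submodule.exists_mem_ne_zero_of_ne_bot h
  have h1 := VV_mono P D 0 hτ0 (by rw [sub_zero]; exact le_VV P D hτ)
  rw [finrank_VV_zero P] at h1
  have h2 := finrank_V_le P D
  have h3 : 0 < Module.finrank ℂ (X.V D) := by
    rw [Nat.pos_iff_ne_zero]
    intro h4
    exact h (Submodule.finrank_eq_zero.1 h4)
  push_cast at h1
  constructor <;> omega

/-- **Bounds for the dimensions of spaces of sections on a curve.** -/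
theorem curve_bounds (P : Pencil X h₀ h₁) :
    X.e 0 ≤ 1 ∧ (∀ D, X.V D ≠ ⊥ → X.e 0 ≤ X.e D) ∧
      (∀ D, X.e 0 ≤ X.e D → (Module.finrank ℂ (X.V D) : ℤ) ≤ X.e D - X.e 0 + 1) ∧
      ∃ c₀ : ℤ, ∀ D, c₀ ≤ X.e D → (Module.finrank ℂ (X.V D) : ℤ) ≤ X.e D := by
  refine ⟨?_, fun D h => (bounds_of_ne_bot P D h).1, ?_, ?_⟩
  · have := VV_finite P 0
    have h1 := riemann P 0
    rw [finrank_VV_zero P] at h1
    exact_mod_cast h1
  · intro D hD
    by_cases h : X.V D = ⊥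
    · rw [h, finrank_bot]
      push_cast
      omega
    · exact (bounds_of_ne_bot P D h).2
  · obtain ⟨n₁, hn₁⟩ := VV_eq P 0
    obtain ⟨n₂, hn₂⟩ := X.asym 0
    have h4 := hn₁ (max n₁ n₂) (le_max_left _ _)
    have h5 := hn₂ (max n₁ n₂) (le_max_right _ _)
    generalize max n₁ n₂ = n at h4 h5
    rw [zero_add] at h4 h5
    have h6 := e_add_nsmul X 0 n
    rw [zero_add] at h6
    refine ⟨n * X.a + 1, fun D hD => ?_⟩
    have := VV_finite P (D - n • X.A)
    have h7 := riemann P (D - n • X.A)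
    rw [e_sub_nsmul] at h7
    have h8 : VV X h₀ h₁ (D - n • X.A) ≠ ⊥ := by
      intro h9
      rw [h9, finrank_bot] at h7
      push_cast at h7
      omega
    obtain ⟨τ, hτ, hτ0⟩ := Submodule.exists_mem_ne_zero_of_ne_bot h8
    have h10 := VV_mono P D (n • X.A) hτ0 hτ
    rw [h4, h5, h6] at h10
    have h11 := finrank_V_le P D
    omega

end Pool.Agent.LibCUR
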