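import Pool.Agent.LibCUR.Defs

set_option autoImplicit false

namespace Pool.Agent.LibCUR

variable {κ : Type} [Field κ] [Algebra ℂ κ]

/-- PROOF. `⨅` of the valuation subrings containing the range of `algebraMap ℂ κ` is the integral
closure of this range in `κ` (Mathlib: `iInf_valuationSubring_superset` or similar in
`Mathlib/RingTheory/Valuation/LocalSubring.lean`, line ~218), so `c` is integral over `ℂ`; `ℂ` is
algebraically closed (`IsAlgClosed.algebraMap_surjective_of_isIntegral` or: the minimal polynomial is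
linear / splits). -/
theorem mem_const_of_forall (c : κ) (h : ∀ W : ValuationSubring κ, Const W → c ∈ W) :
    c ∈ Set.range (algebraMap ℂ κ) := by
  have hint : IsIntegral ℂ c := by
    have hI : IsIntegrallyClosedIn (integralClosure ℂ κ).toSubring κ :=
      inferInstanceAs (IsIntegrallyClosedIn (integralClosure ℂ κ) κ)
    have h1 : c ∈ (integralClosure ℂ κ).toSubring := by
      rw [Subring.eq_iInf_of_isIntegrallyClosedIn (R := (integralClosure ℂ κ).toSubring)]
      rw [Subring.mem_iInf]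
      rintro ⟨V, hV⟩
      exact h V fun z => hV (Subalgebra.algebraMap_mem _ z)
    exact h1
  exact minpoly.mem_range_of_degree_eq_one ℂ c
    (IsAlgClosed.degree_eq_one_of_irreducible ℂ (minpoly.irreducible hint))

/-- an element `x` for which `x - l` is no unit of `W` has residue `l` -/
private theorem a09_res {W : ValuationSubring κ} (hW : Const W) (x : κ) (l : ℂ)
    (h : ¬ (x - algebraMap ℂ κ l ≠ 0 ∧ (x - algebraMap ℂ κ l)⁻¹ ∈ W)) :
    ∃ X : W, (X : κ) = x ∧ IsLocalRing.residue W X =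
      IsLocalRing.residue W (⟨algebraMap ℂ κ l, hW l⟩ : W) := by
  have h1 : x - algebraMap ℂ κ l ∈ W := by
    rcases W.mem_or_inv_mem (x - algebraMap ℂ κ l) with h2 | h2
    · exact h2
    · by_cases h3 : x - algebraMap ℂ κ l = 0
      · rw [h3]
        exact zero_mem W
      · exact absurd ⟨h3, h2⟩ h
  have h2 : IsLocalRing.residue W (⟨x - algebraMap ℂ κ l, h1⟩ : W) = 0 := by
    rw [IsLocalRing.residue_eq_zero_iff, IsLocalRing.mem_maximalIdeal, mem_nonunits_iff]
    intro h3
    obtain ⟨u, hu⟩ := h3.exists_right_inv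
    have h4 : (x - algebraMap ℂ κ l) * (u : κ) = 1 := congrArg Subtype.val hu
    apply h
    have h5 : x - algebraMap ℂ κ l ≠ 0 := left_ne_zero_of_mul_eq_one h4
    refine ⟨h5, ?_⟩
    rw [inv_eq_of_mul_eq_one_right h4]
    exact u.2
  refine ⟨⟨x - algebraMap ℂ κ l, h1⟩ + ⟨algebraMap ℂ κ l, hW l⟩, ?_, ?_⟩
  · simp
  · rw [map_add, h2, zero_add]

/-- PROOF. There is `0 ≠ F : MvPolynomial (Fin 2) ℂ` with `aeval ![a / c, b / c] F = 0`. Choose
`l, m : ℂ` with `eval ![l, m] F ≠ 0` (`MvPolynomial.funext`). Let `W` be given, `x = (a - l c) / c`,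
`y = (b - m c) / c`. If `x = 0` or `x⁻¹ ∉ W` is false, i.e. if `x ≠ 0` and `x⁻¹ ∈ W`, then
`c = x⁻¹ (a - l c)`: take `u = x⁻¹`, `v = 0`. Same for `y`. Otherwise `x, y` are non-units of `W`
(in the maximal ideal, 0 allowed), and in the residue field of `W` (a ring homomorphism
`r : W → k`; `W` is a `ℂ`-algebra by `hW`): `0 = r (F (x + l, y + m)) = r (F (l, m))`, but `F (l, m)`
is a nonzero constant, a unit of `W`: contradiction. -/
theorem exists_shift (a b c : κ) (hc : c ≠ 0) (h : ¬ AlgebraicIndependent ℂ ![a / c, b / c]) :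
    ∃ l m : ℂ, ∀ W : ValuationSubring κ, Const W →
      ∃ u ∈ W, ∃ v ∈ W, c = u * (a - algebraMap ℂ κ l * c) + v * (b - algebraMap ℂ κ m * c) := by
  obtain ⟨F, hF0, hF⟩ : ∃ F : MvPolynomial (Fin 2) ℂ,
      MvPolynomial.aeval ![a / c, b / c] F = 0 ∧ F ≠ 0 := by
    by_contra h0
    push Not at h0
    exact h ((injective_iff_map_eq_zero _).2 h0)
  obtain ⟨v, hv⟩ : ∃ v : Fin 2 → ℂ, MvPolynomial.eval v F ≠ 0 := by
    by_contra h0
    push Not at h0
    apply hF
    apply MvPolynomial.funext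
    intro v
    rw [h0 v, map_zero]
  refine ⟨v 0, v 1, fun W hW => ?_⟩
  by_cases hx : a / c - algebraMap ℂ κ (v 0) ≠ 0 ∧ (a / c - algebraMap ℂ κ (v 0))⁻¹ ∈ W
  · refine ⟨_, hx.2, 0, zero_mem W, ?_⟩
    have h1 : a - algebraMap ℂ κ (v 0) * c = (a / c - algebraMap ℂ κ (v 0)) * c := by
      rw [sub_mul, div_mul_cancel₀ _ hc]
    rw [h1, ← mul_assoc, inv_mul_cancel₀ hx.1]
    ring
  by_cases hy : b / c - algebraMap ℂ κ (v 1) ≠ 0 ∧ (b / c - algebraMap ℂ κ (v 1))⁻¹ ∈ W
  · refine ⟨0, zero_mem W, _, hy.2, ?_⟩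
    have h1 : b - algebraMap ℂ κ (v 1) * c = (b / c - algebraMap ℂ κ (v 1)) * c := by
      rw [sub_mul, div_mul_cancel₀ _ hc]
    rw [h1, ← mul_assoc, inv_mul_cancel₀ hy.1]
    ring
  exfalso
  let j : ℂ →+* W := (algebraMap ℂ κ).codRestrict W.toSubring hW
  obtain ⟨X, hX, hX'⟩ := a09_res hW (a / c) (v 0) hx
  obtain ⟨Y, hY, hY'⟩ := a09_res hW (b / c) (v 1) hy
  have h1 : MvPolynomial.eval₂ j ![X, Y] F = 0 := by
    apply Subtype.ext
    have h2 := MvPolynomial.eval₂_comp_left W.subtype j ![X, Y] F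
    have h3 : (W.subtype : W →+* κ).comp j = algebraMap ℂ κ := rfl
    have h4 : W.subtype ∘ ![X, Y] = ![a / c, b / c] := by
      funext i
      fin_cases i
      · exact hX
      · exact hY
    rw [h3, h4, ← MvPolynomial.aeval_def, hF0] at h2
    exact h2
  have h5 := MvPolynomial.eval₂_comp_left (IsLocalRing.residue W) j ![X, Y] F
  have h6 : (IsLocalRing.residue W) ∘ ![X, Y] = fun i => (IsLocalRing.residue W).comp j (v i) := by
    funext i
    fin_cases i
    · exact hX'
    · exact hY'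
  rw [h1, map_zero, h6] at h5
  have h7 := MvPolynomial.eval₂_comp_left ((IsLocalRing.residue W).comp j) (RingHom.id ℂ) v F
  rw [RingHom.comp_id] at h7
  have h8 : (IsLocalRing.residue W).comp j (MvPolynomial.eval v F) = 0 := by
    have h9 : MvPolynomial.eval v F = MvPolynomial.eval₂ (RingHom.id ℂ) v F := rfl
    rw [h9, h7]
    exact h5.symm
  exact hv ((map_eq_zero _).1 h8)

end Pool.Agent.LibCUR
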