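import Pool.Agent.LibCUR.Basic
import Pool.Agent.LibCUR.A09

set_option autoImplicit false

namespace Pool.Agent.LibCUR

section

variable {κ : Type} [Field κ] [Algebra ℂ κ]

/-- PROOF. `U` is finitely generated; induct over the number of generators (e.g.
`Submodule.fg_induction`-like, or over a finset `S` with `U = span S`: statement for all finsets `S`:
`∃ h₀ ∈ span S, ∃ h₁ ∈ span S, ∀ W, Const W → ∀ g ∈ span S, ...`; for a fixed `W` the set of the `g`
with a representation is a `ℂ`-subspace since `ℂ ⊆ W`, so it is enough to treat `g ∈ S`). Step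
`S ∪ {c}`: `c = 0` trivial; otherwise `exists_shift h₀ h₁ c` gives `l, m`; take
`h₀' = h₀ - l c`, `h₁' = h₁ - m c`; `c = u h₀' + v h₁'`, and `h₀ = h₀' + l c`, `h₁ = h₁' + m c`, hence
every old `g = u' h₀ + v' h₁` has a representation. -/
theorem exists_pencil_span (htr : ∀ a b : κ, ¬ AlgebraicIndependent ℂ ![a, b])
    (U : Submodule ℂ κ) [Module.Finite ℂ U] :
    ∃ h₀ ∈ U, ∃ h₁ ∈ U, ∀ W : ValuationSubring κ, Const W → ∀ g ∈ U,
      ∃ u ∈ W, ∃ v ∈ W, g = u * h₀ + v * h₁ := by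
  classical
  have key : ∀ S : Finset κ, ∃ h₀ ∈ Submodule.span ℂ (S : Set κ),
      ∃ h₁ ∈ Submodule.span ℂ (S : Set κ), ∀ W : ValuationSubring κ, Const W → ∀ g ∈ S,
      ∃ u ∈ W, ∃ v ∈ W, g = u * h₀ + v * h₁ := by
    intro S
    induction S using Finset.induction_on with
    | empty =>
      exact ⟨0, Submodule.zero_mem _, 0, Submodule.zero_mem _, fun W _ g hg => by simp at hg⟩
    | insert c S hcS ih =>
      obtain ⟨h₀, hh₀, h₁, hh₁, hrep⟩ := ih
      have hle : Submodule.span ℂ (S : Set κ) ≤ Submodule.span ℂ ((insert c S : Finset κ) : Set κ) :=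
        Submodule.span_mono (by
          intro x hx
          simp only [Finset.coe_insert]
          exact Set.mem_insert_of_mem _ hx)
      have hcmem : c ∈ Submodule.span ℂ ((insert c S : Finset κ) : Set κ) :=
        Submodule.subset_span (by simp)
      by_cases hc : c = 0
      · refine ⟨h₀, hle hh₀, h₁, hle hh₁, fun W hW g hg => ?_⟩
        rw [Finset.mem_insert] at hg
        rcases hg with rfl | hg
        · exact ⟨0, W.zero_mem, 0, W.zero_mem, by rw [hc]; ring⟩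
        · exact hrep W hW g hg
      · obtain ⟨l, m, hlm⟩ := exists_shift h₀ h₁ c hc (htr _ _)
        have hsm : ∀ z : ℂ, algebraMap ℂ κ z * c ∈
            Submodule.span ℂ ((insert c S : Finset κ) : Set κ) := by
          intro z
          rw [← Algebra.smul_def]
          exact Submodule.smul_mem _ _ hcmem
        refine ⟨h₀ - algebraMap ℂ κ l * c, Submodule.sub_mem _ (hle hh₀) (hsm l),
          h₁ - algebraMap ℂ κ m * c, Submodule.sub_mem _ (hle hh₁) (hsm m), fun W hW g hg => ?_⟩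
        obtain ⟨u, hu, v, hv, huv⟩ := hlm W hW
        rw [Finset.mem_insert] at hg
        rcases hg with rfl | hg
        · exact ⟨u, hu, v, hv, huv⟩
        · obtain ⟨u', hu', v', hv', huv'⟩ := hrep W hW g hg
          have hl := hW l
          have hm := hW m
          refine ⟨u' + (u' * algebraMap ℂ κ l + v' * algebraMap ℂ κ m) * u,
            W.add_mem _ _ hu' (W.mul_mem _ _ (W.add_mem _ _ (W.mul_mem _ _ hu' hl)
              (W.mul_mem _ _ hv' hm)) hu),
            v' + (u' * algebraMap ℂ κ l + v' * algebraMap ℂ κ m) * v,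
            W.add_mem _ _ hv' (W.mul_mem _ _ (W.add_mem _ _ (W.mul_mem _ _ hu' hl)
              (W.mul_mem _ _ hv' hm)) hv), ?_⟩
          rw [huv']
          linear_combination (u' * algebraMap ℂ κ l + v' * algebraMap ℂ κ m) * huv
  have hfg : U.FG := Module.Finite.iff_fg.1 inferInstance
  obtain ⟨S, rfl⟩ := hfg
  obtain ⟨h₀, hh₀, h₁, hh₁, hrep⟩ := key S
  refine ⟨h₀, hh₀, h₁, hh₁, fun W hW g hg => ?_⟩
  induction hg using Submodule.span_induction with
  | mem x hx => exact hrep W hW x hx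
  | zero => exact ⟨0, W.zero_mem, 0, W.zero_mem, by ring⟩
  | add x y _ _ hx hy =>
    obtain ⟨u, hu, v, hv, rfl⟩ := hx
    obtain ⟨u', hu', v', hv', rfl⟩ := hy
    exact ⟨u + u', W.add_mem _ _ hu hu', v + v', W.add_mem _ _ hv hv', by ring⟩
  | smul z x _ hx =>
    obtain ⟨u, hu, v, hv, rfl⟩ := hx
    refine ⟨algebraMap ℂ κ z * u, W.mul_mem _ _ (hW z) hu, algebraMap ℂ κ z * v,
      W.mul_mem _ _ (hW z) hv, ?_⟩
    rw [Algebra.smul_def]
    ring

end

variable {κ : Type} [Field κ] [Algebra ℂ κ] {Λ : Type} [AddCommGroup Λ] {X : CurveSys κ Λ}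

private theorem pencil_aux (X : CurveSys κ Λ)
    (bpf : ∀ W : ValuationSubring κ, Const W → ∃ g ∈ X.V X.A, g ≠ 0 ∧
      ∀ (n : ℕ), ∀ s ∈ X.V (n • X.A), s / g ^ n ∈ W)
    (h₀ h₁ : κ) (hh₀ : h₀ ∈ X.V X.A) (hh₁ : h₁ ∈ X.V X.A) (hne₀ : h₀ ≠ 0) (hne₁ : h₁ ≠ 0)
    (hrep : ∀ W : ValuationSubring κ, Const W → ∀ g ∈ X.V X.A,
      ∃ u ∈ W, ∃ v ∈ W, g = u * h₀ + v * h₁) : Pencil X h₀ h₁ := by
  refine ⟨hh₀, hh₁, hne₀, hne₁, fun c hc => ?_⟩
  obtain ⟨k, hk⟩ := hc
  refine mem_const_of_forall c fun W hW => ?_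
  obtain ⟨g, hg, hg0, hgs⟩ := bpf W hW
  obtain ⟨u, hu, v, hv, huv⟩ := hrep W hW g hg
  rcases W.mem_or_inv_mem (h₀ / h₁) with h | h
  · have h1 : g / h₁ ∈ W := by
      have h2 : g / h₁ = u * (h₀ / h₁) + v := by
        rw [huv]
        field_simp
      rw [h2]
      exact W.add_mem _ _ (W.mul_mem _ _ hu h) hv
    have h2 := hk k le_rfl 0 (Nat.zero_le _)
    rw [zero_add] at h2
    have h3 := hgs k _ h2
    have h4 : c = c * (h₀ ^ 0 * h₁ ^ (k - 0)) / g ^ k * (g / h₁) ^ k := by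
      rw [pow_zero, one_mul, Nat.sub_zero, div_pow]
      field_simp
    rw [h4]
    exact W.mul_mem _ _ h3 (_root_.pow_mem h1 k)
  · rw [inv_div] at h
    have h1 : g / h₀ ∈ W := by
      have h2 : g / h₀ = u + v * (h₁ / h₀) := by
        rw [huv]
        field_simp
      rw [h2]
      exact W.add_mem _ _ hu (W.mul_mem _ _ hv h)
    have h2 := hk k le_rfl k le_rfl
    rw [zero_add] at h2
    have h3 := hgs k _ h2
    have h4 : c = c * (h₀ ^ k * h₁ ^ (k - k)) / g ^ k * (g / h₀) ^ k := by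
      rw [Nat.sub_self, pow_zero, mul_one, div_pow]
      field_simp
    rw [h4]
    exact W.mul_mem _ _ h3 (_root_.pow_mem h1 k)

/-- PROOF. Take `h₀, h₁` from `exists_pencil_span htr (X.V X.A)`. Not both are zero (`bpf` for
`W = ⊤` gives `0 ≠ g ∈ X.V X.A`). If one is zero replace it by the other one (the representation
property stays true: `u h₀ + v 0 = u h₀ + 0 h₀`). `sat`: let `c ∈ VV 0` (`k` from the definition). By
`mem_const_of_forall` it is enough that `c ∈ W` for every `W` with `Const W`. Take `g` from `bpf W`,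
`g = u h₀ + v h₁`. `h₀ / h₁ ∈ W` or `h₁ / h₀ ∈ W` (`W.mem_or_inv_mem`). In the first case
`g / h₁ = u (h₀ / h₁) + v ∈ W` and, with `i = 0`, `n = k`: `c * h₁ ^ k ∈ X.V (0 + k • A)`, so
`(c * h₁ ^ k) / g ^ k ∈ W` and `c = (c * h₁ ^ k / g ^ k) * (g / h₁) ^ k ∈ W`. The other case is the
same with `i = n = k`. -/
theorem exists_pencil (X : CurveSys κ Λ) (htr : ∀ a b : κ, ¬ AlgebraicIndependent ℂ ![a, b])
    (bpf : ∀ W : ValuationSubring κ, Const W → ∃ g ∈ X.V X.A, g ≠ 0 ∧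
      ∀ (n : ℕ), ∀ s ∈ X.V (n • X.A), s / g ^ n ∈ W) :
    ∃ h₀ h₁ : κ, Pencil X h₀ h₁ := by
  obtain ⟨h₀, hh₀, h₁, hh₁, hrep⟩ := exists_pencil_span htr (X.V X.A)
  by_cases h0 : h₀ = 0
  · by_cases h1 : h₁ = 0
    · exfalso
      obtain ⟨g, hg, hg0, -⟩ := bpf ⊤ (fun c => trivial)
      obtain ⟨u, -, v, -, huv⟩ := hrep ⊤ (fun c => trivial) g hg
      rw [h0, h1] at huv
      exact hg0 (by rw [huv]; ring)
    · refine ⟨h₁, h₁, pencil_aux X bpf h₁ h₁ hh₁ hh₁ h1 h1 fun W hW g hg => ?_⟩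
      obtain ⟨u, hu, v, hv, huv⟩ := hrep W hW g hg
      refine ⟨v, hv, 0, W.zero_mem, ?_⟩
      rw [huv, h0]
      ring
  · by_cases h1 : h₁ = 0
    · refine ⟨h₀, h₀, pencil_aux X bpf h₀ h₀ hh₀ hh₀ h0 h0 fun W hW g hg => ?_⟩
      obtain ⟨u, hu, v, hv, huv⟩ := hrep W hW g hg
      refine ⟨u, hu, 0, W.zero_mem, ?_⟩
      rw [huv, h1]
      ring
    · exact ⟨h₀, h₁, pencil_aux X bpf h₀ h₁ hh₀ hh₁ h0 h1 hrep⟩

end Pool.Agent.LibCUR
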