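import Mathlib

/-!
Curve inequalities by dimension counting: definitions.

`κ` is a function field of one variable over `ℂ`. A `CurveSys` is a family of spaces of sections
`V D ⊆ κ`, `D` in an abelian group `Λ`, with `dim V (D + n A) = e D + n a` for large `n`.
-/

set_option autoImplicit false

namespace Pool.Agent.LibCUR

section

variable {κ : Type} [Field κ] [Algebra ℂ κ]

/-- The valuation ring contains the constants. -/
def Const (W : ValuationSubring κ) : Prop := ∀ c : ℂ, algebraMap ℂ κ c ∈ W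

/-- The multiple `h U` of a subspace. -/
def mulS (h : κ) (U : Submodule ℂ κ) : Submodule ℂ κ := U.map (LinearMap.mulLeft ℂ h)

/-- The subspace `h₀ U + h₁ U`. -/
def Ph (h₀ h₁ : κ) (U : Submodule ℂ κ) : Submodule ℂ κ := mulS h₀ U ⊔ mulS h₁ U

theorem mem_mulS {h : κ} {U : Submodule ℂ κ} {x : κ} : x ∈ mulS h U ↔ ∃ y ∈ U, h * y = x := by
  simp [mulS, Submodule.mem_map]

theorem mulS_mem {h : κ} {U : Submodule ℂ κ} {y : κ} (hy : y ∈ U) : h * y ∈ mulS h U :=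
  mem_mulS.2 ⟨y, hy, rfl⟩

theorem mulS_mono {h : κ} {U U' : Submodule ℂ κ} (hU : U ≤ U') : mulS h U ≤ mulS h U' :=
  Submodule.map_mono hU

theorem mulS_le {h : κ} {U U' : Submodule ℂ κ} : mulS h U ≤ U' ↔ ∀ y ∈ U, h * y ∈ U' := by
  rw [mulS, Submodule.map_le_iff_le_comap]
  rfl

theorem Ph_le {h₀ h₁ : κ} {U U' : Submodule ℂ κ} :
    Ph h₀ h₁ U ≤ U' ↔ ∀ y ∈ U, h₀ * y ∈ U' ∧ h₁ * y ∈ U' := by
  rw [Ph, sup_le_iff, mulS_le, mulS_le]
  exact ⟨fun h y hy => ⟨h.1 y hy, h.2 y hy⟩, fun h => ⟨fun y hy => (h y hy).1, fun y hy => (h y hy).2⟩⟩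

theorem Ph_mono {h₀ h₁ : κ} {U U' : Submodule ℂ κ} (hU : U ≤ U') : Ph h₀ h₁ U ≤ Ph h₀ h₁ U' :=
  sup_le_sup (mulS_mono hU) (mulS_mono hU)

theorem finrank_mulS {h : κ} (hh : h ≠ 0) (U : Submodule ℂ κ) :
    Module.finrank ℂ (mulS h U) = Module.finrank ℂ U := by
  have h1 : Function.Injective (LinearMap.mulLeft ℂ h) := fun a b hab =>
    mul_left_cancel₀ hh (by simpa using hab)
  exact (Submodule.equivMapOfInjective (LinearMap.mulLeft ℂ h) h1 U).finrank_eq.symm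

instance finite_mulS (h : κ) (U : Submodule ℂ κ) [Module.Finite ℂ U] :
    Module.Finite ℂ (mulS h U) := by
  unfold mulS
  infer_instance

instance finite_Ph (h₀ h₁ : κ) (U : Submodule ℂ κ) [Module.Finite ℂ U] :
    Module.Finite ℂ (Ph h₀ h₁ U) := by
  unfold Ph
  infer_instance

end

/-- Spaces of sections on a curve. -/
structure CurveSys (κ : Type) [Field κ] [Algebra ℂ κ] (Λ : Type) [AddCommGroup Λ] where
  V : Λ → Submodule ℂ κ
  fin : ∀ D, Module.Finite ℂ (V D)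
  mul : ∀ (D E : Λ) (a b : κ), a ∈ V D → b ∈ V E → a * b ∈ V (D + E)
  one : (1 : κ) ∈ V 0
  A : Λ
  a : ℤ
  apos : 0 < a
  e : Λ → ℤ
  asym : ∀ F, ∃ n₀ : ℕ, ∀ n : ℕ, n₀ ≤ n →
    (Module.finrank ℂ (V (F + n • A)) : ℤ) = e F + n * a

attribute [instance] CurveSys.fin

/-- The saturation of `V D` with respect to a pencil. -/
def VV {κ : Type} [Field κ] [Algebra ℂ κ] {Λ : Type} [AddCommGroup Λ]
    (X : CurveSys κ Λ) (h₀ h₁ : κ) (D : Λ) : Submodule ℂ κ where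
  carrier := {c | ∃ k : ℕ, ∀ n, k ≤ n → ∀ i, i ≤ n →
    c * (h₀ ^ i * h₁ ^ (n - i)) ∈ X.V (D + n • X.A)}
  zero_mem' := ⟨0, fun n _ i _ => by rw [zero_mul]; exact Submodule.zero_mem _⟩
  add_mem' := by
    rintro a b ⟨k, hk⟩ ⟨l, hl⟩
    refine ⟨max k l, fun n hn i hi => ?_⟩
    rw [add_mul]
    exact Submodule.add_mem _ (hk n ((le_max_left _ _).trans hn) i hi)
      (hl n ((le_max_right _ _).trans hn) i hi)
  smul_mem' := by
    rintro c a ⟨k, hk⟩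
    refine ⟨k, fun n hn i hi => ?_⟩
    rw [smul_mul_assoc]
    exact Submodule.smul_mem _ _ (hk n hn i hi)

/-- A base point free pencil. -/
structure Pencil {κ : Type} [Field κ] [Algebra ℂ κ] {Λ : Type} [AddCommGroup Λ]
    (X : CurveSys κ Λ) (h₀ h₁ : κ) : Prop where
  mem0 : h₀ ∈ X.V X.A
  mem1 : h₁ ∈ X.V X.A
  ne0 : h₀ ≠ 0
  ne1 : h₁ ≠ 0
  sat : ∀ c ∈ VV X h₀ h₁ 0, c ∈ Set.range (algebraMap ℂ κ)

end Pool.Agent.LibCUR
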