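import Pool.Agent.LibCUR.A08
import Pool.Agent.LibCUR.A10

/-! Local generators at the valuation rings of a curve. -/

set_option autoImplicit false

namespace Pool.Agent.LibCUR

variable {κ : Type} [Field κ] [Algebra ℂ κ] {Λ : Type} [AddCommGroup Λ]

/-- Local generators at all valuation rings: `γ W D` is a local equation of `D` at `W`; the classes
`D + n A`, `n ≥ n₀(D)`, and `A` itself have no base points. -/
structure Trivs (X : CurveSys κ Λ) where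
  γ : ValuationSubring κ → Λ → κ
  ne : ∀ W, Const W → ∀ D, γ W D ≠ 0
  add : ∀ W, Const W → ∀ D E, γ W (D + E) / (γ W D * γ W E) ∈ W ∧
    γ W D * γ W E / γ W (D + E) ∈ W
  mem : ∀ W, Const W → ∀ D, ∀ s ∈ X.V D, s * γ W D ∈ W
  gen : ∀ D, ∃ n₀ : ℕ, ∀ n : ℕ, n₀ ≤ n → ∀ W, Const W → ∃ g ∈ X.V (D + n • X.A),
    g ≠ 0 ∧ (g * γ W (D + n • X.A))⁻¹ ∈ W
  genA : ∀ W, Const W → ∃ g ∈ X.V X.A, g ≠ 0 ∧ (g * γ W X.A)⁻¹ ∈ W

/-- `g` generates `D` at `W`. -/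
def GenW {X : CurveSys κ Λ} (Γ : Trivs X) (W : ValuationSubring κ) (D : Λ) (g : κ) : Prop :=
  g ≠ 0 ∧ (g * Γ.γ W D)⁻¹ ∈ W

variable {X : CurveSys κ Λ} (Γ : Trivs X)

/-- PROOF. Induction on `n`. `n = 0`: `Γ.add W hW 0 0` says that `γ W 0` and its inverse are in `W`
(`zero_add`, `zero_nsmul`). Step: `Γ.add W hW (n • D) D`. -/
theorem γ_nsmul {W : ValuationSubring κ} (hW : Const W) (D : Λ) (n : ℕ) :
    Γ.γ W (n • D) / Γ.γ W D ^ n ∈ W ∧ Γ.γ W D ^ n / Γ.γ W (n • D) ∈ W := by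
  induction n with
  | zero =>
    have h := Γ.add W hW 0 0
    have h0 := Γ.ne W hW 0
    rw [add_zero] at h
    rw [zero_nsmul, pow_zero, div_one]
    refine ⟨?_, ?_⟩
    · have h1 := h.2
      rwa [mul_div_assoc, div_self h0, mul_one] at h1
    · have h1 := h.1
      rwa [← div_div, div_self h0] at h1
  | succ n ih =>
    have h := Γ.add W hW (n • D) D
    have h0 := Γ.ne W hW (n • D)
    have h1 := Γ.ne W hW D
    have h2 := Γ.ne W hW (n • D + D)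
    rw [succ_nsmul]
    refine ⟨?_, ?_⟩
    · have e : Γ.γ W (n • D + D) / Γ.γ W D ^ (n + 1) =
          (Γ.γ W (n • D + D) / (Γ.γ W (n • D) * Γ.γ W D)) * (Γ.γ W (n • D) / Γ.γ W D ^ n) := by
        rw [pow_succ]
        field_simp
      rw [e]
      exact mul_mem h.1 ih.1
    · have e : Γ.γ W D ^ (n + 1) / Γ.γ W (n • D + D) =
          (Γ.γ W (n • D) * Γ.γ W D / Γ.γ W (n • D + D)) * (Γ.γ W D ^ n / Γ.γ W (n • D)) := by
        rw [pow_succ]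
        field_simp
      rw [e]
      exact mul_mem h.2 ih.2

include Γ in
/-- PROOF. `g` from `Γ.genA`; `s / g ^ n = (s * γ (n A)) * (γ A ^ n / γ (n A)) * ((g * γ A)⁻¹) ^ n`. -/
theorem bpf_of_trivs (W : ValuationSubring κ) (hW : Const W) :
    ∃ g ∈ X.V X.A, g ≠ 0 ∧ ∀ (n : ℕ), ∀ s ∈ X.V (n • X.A), s / g ^ n ∈ W := by
  obtain ⟨g, hg, hg0, hgW⟩ := Γ.genA W hW
  refine ⟨g, hg, hg0, fun n s hs => ?_⟩
  have h0 := Γ.ne W hW (n • X.A)
  have h1 := Γ.ne W hW X.A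
  have e : s / g ^ n = (s * Γ.γ W (n • X.A)) * (Γ.γ W X.A ^ n / Γ.γ W (n • X.A)) *
      ((g * Γ.γ W X.A)⁻¹) ^ n := by
    rw [inv_pow, mul_pow]
    field_simp
  rw [e]
  exact mul_mem (mul_mem (Γ.mem W hW _ s hs) (γ_nsmul Γ hW X.A n).2) (_root_.pow_mem hgW n)

/-- Products of generators. PROOF. `(g * h * γ (D + E))⁻¹ =
(g * γ D)⁻¹ * (h * γ E)⁻¹ * (γ D * γ E / γ (D + E))`. -/
theorem GenW.mul {W : ValuationSubring κ} (hW : Const W) {D E : Λ} {g h : κ}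
    (hg : GenW Γ W D g) (hh : GenW Γ W E h) : GenW Γ W (D + E) (g * h) := by
  refine ⟨mul_ne_zero hg.1 hh.1, ?_⟩
  have h0 := Γ.ne W hW D
  have h1 := Γ.ne W hW E
  have h2 := Γ.ne W hW (D + E)
  have h3 := hg.1
  have h4 := hh.1
  have e : (g * h * Γ.γ W (D + E))⁻¹ = (g * Γ.γ W D)⁻¹ * (h * Γ.γ W E)⁻¹ *
      (Γ.γ W D * Γ.γ W E / Γ.γ W (D + E)) := by
    field_simp
  rw [e]
  exact mul_mem (mul_mem hg.2 hh.2) (Γ.add W hW D E).2

omit [Algebra ℂ κ] in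
/-- an element of `W` which is not a unit has valuation `< 1` -/
theorem e01_lt {W : ValuationSubring κ} {t : κ} (ht : t ∈ W) (h : ¬ (t ≠ 0 ∧ t⁻¹ ∈ W)) :
    W.valuation t < 1 := by
  by_cases h0 : t = 0
  · rw [h0, map_zero]
    exact zero_lt_one
  · refine lt_of_le_of_ne ((W.valuation_le_one_iff t).2 ht) fun h1 => h ⟨h0, ?_⟩
    rw [← W.valuation_le_one_iff, map_inv₀, h1, inv_one]

omit [Algebra ℂ κ] in
theorem e01_ge {W : ValuationSubring κ} {t : κ} (h0 : t ≠ 0) (h : t⁻¹ ∈ W) :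
    1 ≤ W.valuation t := by
  by_contra hcon
  rw [not_le] at hcon
  have h1 := (W.valuation_le_one_iff t⁻¹).2 h
  have h2 : W.valuation t * W.valuation t⁻¹ < 1 := mul_lt_one_of_lt_of_le hcon h1
  rw [← map_mul, mul_inv_cancel₀ h0, map_one] at h2
  exact lt_irrefl _ h2

theorem e01_not {W : ValuationSubring κ} {D : Λ} {g : κ} (h : ¬ GenW Γ W D g) :
    ¬ (g * Γ.γ W D ≠ 0 ∧ (g * Γ.γ W D)⁻¹ ∈ W) := by
  rintro ⟨h1, h2⟩
  exact h ⟨left_ne_zero_of_mul h1, h2⟩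

/-- PROOF. `exists_pencil_span htr (X.V D)` gives `τ₀, τ₁`. Let `g` generate `D` at `W`,
`g = u * τ₀ + v * τ₁`. `τ₀ * γ, τ₁ * γ ∈ W` (`Γ.mem`). If neither of them were a unit of `W`, then
`g * γ = u * (τ₀ * γ) + v * (τ₁ * γ)` would be a nonunit (`W` is local; use e.g. the valuation
`W.valuation` and `Valuation.map_add_lt`, or `nonunits`), contradiction. If `τ₀ = 0` then its product
is not a unit, fine. -/
theorem exists_pencil_at (htr : ∀ a b : κ, ¬ AlgebraicIndependent ℂ ![a, b]) (D : Λ)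
    (hD : ∀ W, Const W → ∃ g ∈ X.V D, GenW Γ W D g) :
    ∃ τ₀ ∈ X.V D, ∃ τ₁ ∈ X.V D, ∀ W, Const W → GenW Γ W D τ₀ ∨ GenW Γ W D τ₁ := by
  obtain ⟨τ₀, h0, τ₁, h1, hτ⟩ := exists_pencil_span htr (X.V D)
  refine ⟨τ₀, h0, τ₁, h1, fun W hW => ?_⟩
  by_contra hcon
  rw [not_or] at hcon
  obtain ⟨g, hg, hgg⟩ := hD W hW
  obtain ⟨u, hu, v, hv, huv⟩ := hτ W hW g hg
  have h2 := e01_lt (Γ.mem W hW D τ₀ h0) (e01_not Γ hcon.1)
  have h3 := e01_lt (Γ.mem W hW D τ₁ h1) (e01_not Γ hcon.2)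
  have h4 : 1 ≤ W.valuation (g * Γ.γ W D) := e01_ge (mul_ne_zero hgg.1 (Γ.ne W hW D)) hgg.2
  have h5 : g * Γ.γ W D = u * (τ₀ * Γ.γ W D) + v * (τ₁ * Γ.γ W D) := by
    rw [huv]
    ring
  have h6 : W.valuation (u * (τ₀ * Γ.γ W D)) < 1 := by
    rw [map_mul]
    exact (mul_le_mul' ((W.valuation_le_one_iff u).2 hu) le_rfl).trans_lt (by rwa [one_mul])
  have h7 : W.valuation (v * (τ₁ * Γ.γ W D)) < 1 := by
    rw [map_mul]
    exact (mul_le_mul' ((W.valuation_le_one_iff v).2 hv) le_rfl).trans_lt (by rwa [one_mul])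
  rw [h5] at h4
  exact absurd (W.valuation.map_add_lt h6 h7) (not_lt.2 h4)

end Pool.Agent.LibCUR
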