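import Pool.Agent.LibCUR.E01

/-! Coprime sections. -/

set_option autoImplicit false

namespace Pool.Agent.LibCUR

variable {κ : Type} [Field κ] [Algebra ℂ κ] {Λ : Type} [AddCommGroup Λ] {X : CurveSys κ Λ}
  (Γ : Trivs X)

/-- an element `x` for which `x - l` is no unit of `W` has residue `l` -/
private theorem e03_res {W : ValuationSubring κ} (hW : Const W) (x : κ) (l : ℂ)
    (h : ¬ (x - algebraMap ℂ κ l ≠ 0 ∧ (x - algebraMap ℂ κ l)⁻¹ ∈ W)) :
    ∃ X : W, (X : κ) = x ∧ IsLocalRing.residue W X =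
      IsLocalRing.residue W (⟨algebraMap ℂ κ l, hW l⟩ : W) := by
  have h1 : x - algebraMap ℂ κ l ∈ W := by
    rcases W.mem_or_inv_mem (x - algebraMap ℂ κ l) with h2 | h2
    · exact h2
    · by_cases h3 : x - algebraMap ℂ κ l = 0
      · rw [h3]
        exact zero_mem W
      · exact absurd ⟨h3, h2⟩ h
  have h2 : IsLocalRing.residue W (⟨x - algebraMap ℂ κ l, h1⟩ : W) = 0 := by
    rw [IsLocalRing.residue_eq_zero_iff, IsLocalRing.mem_maximalIdeal, mem_nonunits_iff]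
    intro h3
    obtain ⟨u, hu⟩ := h3.exists_right_inv
    have h4 : (x - algebraMap ℂ κ l) * (u : κ) = 1 := congrArg Subtype.val hu
    apply h
    have h5 : x - algebraMap ℂ κ l ≠ 0 := left_ne_zero_of_mul_eq_one h4
    refine ⟨h5, ?_⟩
    rw [inv_eq_of_mul_eq_one_right h4]
    exact u.2
  refine ⟨⟨x - algebraMap ℂ κ l, h1⟩ + ⟨algebraMap ℂ κ l, hW l⟩, ?_, ?_⟩
  · simp
  · rw [map_add, h2, zero_add]

/-- the two residues are `v 0` and `v 1`: contradiction if `F (v) ≠ 0` -/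
private theorem e03_contra {W : ValuationSubring κ} (hW : Const W) {x y : κ}
    {F : MvPolynomial (Fin 2) ℂ} (hF0 : MvPolynomial.aeval ![x, y] F = 0) {v : Fin 2 → ℂ}
    (hv : MvPolynomial.eval v F ≠ 0)
    (hx : ¬ (x - algebraMap ℂ κ (v 0) ≠ 0 ∧ (x - algebraMap ℂ κ (v 0))⁻¹ ∈ W))
    (hy : ¬ (y - algebraMap ℂ κ (v 1) ≠ 0 ∧ (y - algebraMap ℂ κ (v 1))⁻¹ ∈ W)) : False := by
  let j : ℂ →+* W := (algebraMap ℂ κ).codRestrict W.toSubring hW
  obtain ⟨X, hX, hX'⟩ := e03_res hW x (v 0) hx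
  obtain ⟨Y, hY, hY'⟩ := e03_res hW y (v 1) hy
  have h1 : MvPolynomial.eval₂ j ![X, Y] F = 0 := by
    apply Subtype.ext
    have h2 := MvPolynomial.eval₂_comp_left W.subtype j ![X, Y] F
    have h3 : (W.subtype : W →+* κ).comp j = algebraMap ℂ κ := rfl
    have h4 : W.subtype ∘ ![X, Y] = ![x, y] := by
      funext i
      fin_cases i
      · exact hX
      · exact hY
    rw [h3, h4, ← MvPolynomial.aeval_def, hF0] at h2
    exact h2
  have h5 := MvPolynomial.eval₂_comp_left (IsLocalRing.residue W) j ![X, Y] F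
  have h6 : (IsLocalRing.residue W) ∘ ![X, Y] = fun i => (IsLocalRing.residue W).comp j (v i) := by
    funext i
    fin_cases i
    · exact hX'
    · exact hY'
  rw [h1, map_zero, h6] at h5
  have h7 := MvPolynomial.eval₂_comp_left ((IsLocalRing.residue W).comp j) (RingHom.id ℂ) v F
  rw [RingHom.comp_id] at h7
  have h8 : (IsLocalRing.residue W).comp j (MvPolynomial.eval v F) = 0 := by
    have h9 : MvPolynomial.eval v F = MvPolynomial.eval₂ (RingHom.id ℂ) v F := rfl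
    rw [h9, h7]
    exact h5.symm
  exact hv ((map_eq_zero _).1 h8)

/-- if `τ₀ - l τ₁` does not generate, but `τ₀` or `τ₁` does, then `τ₀ / τ₁ - l` is no unit -/
private theorem e03_quot {W : ValuationSubring κ} (hW : Const W) {D : Λ} {τ₀ τ₁ : κ}
    (h0 : τ₀ ∈ X.V D) (h1 : τ₁ ∈ X.V D) (hne : τ₁ ≠ 0) (l : ℂ)
    (hg : GenW Γ W D τ₀ ∨ GenW Γ W D τ₁)
    (hn : ¬ GenW Γ W D (τ₀ - algebraMap ℂ κ l * τ₁)) :
    ¬ (τ₀ / τ₁ - algebraMap ℂ κ l ≠ 0 ∧ (τ₀ / τ₁ - algebraMap ℂ κ l)⁻¹ ∈ W) := by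
  have hγ := Γ.ne W hW D
  have hm0 := Γ.mem W hW D τ₀ h0
  have hm1 := Γ.mem W hW D τ₁ h1
  have hm : (τ₀ - algebraMap ℂ κ l * τ₁) * Γ.γ W D ∈ W := by
    have e : (τ₀ - algebraMap ℂ κ l * τ₁) * Γ.γ W D =
        τ₀ * Γ.γ W D - algebraMap ℂ κ l * (τ₁ * Γ.γ W D) := by ring
    rw [e]
    exact sub_mem hm0 (mul_mem (hW l) hm1)
  have h2 : W.valuation ((τ₀ - algebraMap ℂ κ l * τ₁) * Γ.γ W D) < 1 :=
    e01_lt hm (e01_not Γ hn)
  have h3 : 1 ≤ W.valuation (τ₁ * Γ.γ W D) := by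
    rcases hg with hg | hg
    · by_contra hcon
      rw [not_le] at hcon
      have h4 : 1 ≤ W.valuation (τ₀ * Γ.γ W D) := e01_ge (mul_ne_zero hg.1 hγ) hg.2
      have h5 : W.valuation (algebraMap ℂ κ l * (τ₁ * Γ.γ W D)) < 1 := by
        rw [map_mul]
        exact (mul_le_mul' ((W.valuation_le_one_iff _).2 (hW l)) le_rfl).trans_lt (by rwa [one_mul])
      have h6 := W.valuation.map_add_lt h2 h5
      have e : (τ₀ - algebraMap ℂ κ l * τ₁) * Γ.γ W D + algebraMap ℂ κ l * (τ₁ * Γ.γ W D) =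
          τ₀ * Γ.γ W D := by ring
      rw [e] at h6
      exact absurd h6 (not_lt.2 h4)
    · exact e01_ge (mul_ne_zero hg.1 hγ) hg.2
  rintro ⟨h4, h5⟩
  have h6 : 1 ≤ W.valuation (τ₀ / τ₁ - algebraMap ℂ κ l) := e01_ge h4 h5
  have e : (τ₀ - algebraMap ℂ κ l * τ₁) * Γ.γ W D =
      (τ₀ / τ₁ - algebraMap ℂ κ l) * (τ₁ * Γ.γ W D) := by
    field_simp
  rw [e, map_mul] at h2
  exact absurd h2 (not_lt.2 (one_le_mul h6 h3))

/-- **Coprime sections.**

PROOF. Take `τ₀, τ₁` for `D` and `s₀, s₁` for `E` from `exists_pencil_at`. `⊤` is a valuation ring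
with `Const`, so one of `τ₀, τ₁` is `≠ 0`, same for `s₀, s₁`. (a) If `τ₁ = 0` then `τ₀` generates
`D` at all `W` (`GenW` includes `≠ 0`): take `τ = τ₀` and any nonzero `s ∈ {s₀, s₁}`. If `s₁ = 0` the
same with the roles exchanged. (b) `τ₁ ≠ 0 ≠ s₁`: `x = τ₀ / τ₁`, `y = s₀ / s₁`; by `htr` there is a
polynomial `F ≠ 0` in two variables with `F(x, y) = 0` (`aeval ![x, y] F = 0`); choose `l, m : ℂ`
with `eval ![-l, -m] F ≠ 0` (compare the proof of `exists_shift`), `τ = τ₀ + l τ₁`,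
`s = s₀ + m s₁`. CLAIM: at every `W` with `Const W` one of `GenW D τ`, `GenW E s` holds: if not, then
`τ * γ` is a nonunit (or 0) of `W`; if `τ₁ * γ` were a nonunit then also
`τ₀ * γ = τ * γ - l (τ₁ * γ)`, contradiction; so `τ₁ * γ` is a unit and
`x + l = (τ * γ) / (τ₁ * γ)` is a nonunit; in the same way `y + m` is a nonunit. In the residue field
of `W`: `0 = F(x, y) = F(-l, -m)`, but this is a nonzero constant, contradiction. (c) If `τ = 0`,
then by the claim `s` generates `E` at all `W`; replace `τ` by a nonzero one of `τ₀, τ₁`. Same if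
`s = 0` (not both: `W = ⊤`). -/
theorem exists_coprime (htr : ∀ a b : κ, ¬ AlgebraicIndependent ℂ ![a, b]) (D E : Λ)
    (hD : ∀ W, Const W → ∃ g ∈ X.V D, GenW Γ W D g)
    (hE : ∀ W, Const W → ∃ g ∈ X.V E, GenW Γ W E g) :
    ∃ τ ∈ X.V D, ∃ s ∈ X.V E, τ ≠ 0 ∧ s ≠ 0 ∧ ∀ W, Const W → GenW Γ W D τ ∨ GenW Γ W E s := by
  obtain ⟨τ₀, hτ₀, τ₁, hτ₁, hτ⟩ := exists_pencil_at Γ htr D hD
  obtain ⟨s₀, hs₀, s₁, hs₁, hs⟩ := exists_pencil_at Γ htr E hE
  have htop : Const (⊤ : ValuationSubring κ) := fun c => ValuationSubring.mem_top _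
  by_cases hτ1 : τ₁ = 0
  · have hall : ∀ W, Const W → GenW Γ W D τ₀ := fun W hW => by
      rcases hτ W hW with h | h
      · exact h
      · exact absurd hτ1 h.1
    rcases hs ⊤ htop with h | h
    · exact ⟨τ₀, hτ₀, s₀, hs₀, (hall ⊤ htop).1, h.1, fun W hW => Or.inl (hall W hW)⟩
    · exact ⟨τ₀, hτ₀, s₁, hs₁, (hall ⊤ htop).1, h.1, fun W hW => Or.inl (hall W hW)⟩
  by_cases hs1 : s₁ = 0
  · have hall : ∀ W, Const W → GenW Γ W E s₀ := fun W hW => by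
      rcases hs W hW with h | h
      · exact h
      · exact absurd hs1 h.1
    exact ⟨τ₁, hτ₁, s₀, hs₀, hτ1, (hall ⊤ htop).1, fun W hW => Or.inr (hall W hW)⟩
  obtain ⟨F, hF0, hF⟩ : ∃ F : MvPolynomial (Fin 2) ℂ,
      MvPolynomial.aeval ![τ₀ / τ₁, s₀ / s₁] F = 0 ∧ F ≠ 0 := by
    by_contra h0
    push Not at h0
    exact htr (τ₀ / τ₁) (s₀ / s₁) ((injective_iff_map_eq_zero _).2 h0)
  obtain ⟨v, hv⟩ : ∃ v : Fin 2 → ℂ, MvPolynomial.eval v F ≠ 0 := by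
    by_contra h0
    push Not at h0
    apply hF
    apply MvPolynomial.funext
    intro v
    rw [h0 v, map_zero]
  have claim : ∀ W, Const W → GenW Γ W D (τ₀ - algebraMap ℂ κ (v 0) * τ₁) ∨
      GenW Γ W E (s₀ - algebraMap ℂ κ (v 1) * s₁) := by
    intro W hW
    by_contra hcon
    rw [not_or] at hcon
    exact e03_contra hW hF0 hv (e03_quot Γ hW hτ₀ hτ₁ hτ1 (v 0) (hτ W hW) hcon.1)
      (e03_quot Γ hW hs₀ hs₁ hs1 (v 1) (hs W hW) hcon.2)
  have hτm : τ₀ - algebraMap ℂ κ (v 0) * τ₁ ∈ X.V D := by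
    rw [← Algebra.smul_def]
    exact Submodule.sub_mem _ hτ₀ (Submodule.smul_mem _ _ hτ₁)
  have hsm : s₀ - algebraMap ℂ κ (v 1) * s₁ ∈ X.V E := by
    rw [← Algebra.smul_def]
    exact Submodule.sub_mem _ hs₀ (Submodule.smul_mem _ _ hs₁)
  by_cases hτz : τ₀ - algebraMap ℂ κ (v 0) * τ₁ = 0
  · have hall : ∀ W, Const W → GenW Γ W E (s₀ - algebraMap ℂ κ (v 1) * s₁) := fun W hW => by
      rcases claim W hW with h | h
      · exact absurd hτz h.1
      · exact h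
    exact ⟨τ₁, hτ₁, _, hsm, hτ1, (hall ⊤ htop).1, fun W hW => Or.inr (hall W hW)⟩
  by_cases hsz : s₀ - algebraMap ℂ κ (v 1) * s₁ = 0
  · have hall : ∀ W, Const W → GenW Γ W D (τ₀ - algebraMap ℂ κ (v 0) * τ₁) := fun W hW => by
      rcases claim W hW with h | h
      · exact h
      · exact absurd hsz h.1
    exact ⟨_, hτm, s₁, hs₁, hτz, hs1, fun W hW => Or.inl (hall W hW)⟩
  exact ⟨_, hτm, _, hsm, hτz, hsz, claim⟩

end Pool.Agent.LibCUR
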