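import Pool.Agent.LibCUR.E01

/-! The ideal of two coprime sections. -/

set_option autoImplicit false

namespace Pool.Agent.LibCUR

variable {κ : Type} [Field κ] [Algebra ℂ κ] {Λ : Type} [AddCommGroup Λ] {X : CurveSys κ Λ}
  (Γ : Trivs X)

theorem e04_pow {h : κ} (hh : h ∈ X.V X.A) (n : ℕ) : h ^ n ∈ X.V (n • X.A) := by
  induction n with
  | zero => rw [pow_zero, zero_nsmul]; exact X.one
  | succ n ih => rw [pow_succ, succ_nsmul]; exact X.mul _ _ _ _ ih hh

/-- The ring of quotients with denominators powers of `h`. -/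
def e04R (X : CurveSys κ Λ) {h : κ} (hh : h ∈ X.V X.A) : Subring κ where
  carrier := {c | ∃ n : ℕ, c * h ^ n ∈ X.V (n • X.A)}
  one_mem' := ⟨0, by rw [pow_zero, zero_nsmul, mul_one]; exact X.one⟩
  zero_mem' := ⟨0, by rw [zero_mul]; exact Submodule.zero_mem _⟩
  neg_mem' := by
    rintro c ⟨n, hn⟩
    exact ⟨n, by rw [neg_mul]; exact Submodule.neg_mem _ hn⟩
  mul_mem' := by
    rintro c d ⟨n, hn⟩ ⟨m, hm⟩
    refine ⟨n + m, ?_⟩
    have h1 : c * d * h ^ (n + m) = (c * h ^ n) * (d * h ^ m) := by rw [pow_add]; ring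
    rw [h1, add_nsmul]
    exact X.mul _ _ _ _ hn hm
  add_mem' := by
    rintro c d ⟨n, hn⟩ ⟨m, hm⟩
    refine ⟨n + m, ?_⟩
    have h1 : (c + d) * h ^ (n + m) = (c * h ^ n) * h ^ m + h ^ n * (d * h ^ m) := by rw [pow_add]; ring
    rw [h1, add_nsmul]
    exact Submodule.add_mem _ (X.mul _ _ _ _ hn (e04_pow hh m)) (X.mul _ _ _ _ (e04_pow hh n) hm)

/-- The ideal of two sections. -/
def e04I {h : κ} (hh : h ∈ X.V X.A) (D E : Λ) (τ s : κ) : Ideal (e04R X hh) where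
  carrier := {c | ∃ N : ℕ, ∃ α ∈ X.V (N • X.A - D), ∃ β ∈ X.V (N • X.A - E),
    (c : κ) * h ^ N = τ * α + s * β}
  zero_mem' := ⟨0, 0, Submodule.zero_mem _, 0, Submodule.zero_mem _, by
    simp⟩
  add_mem' := by
    rintro c d ⟨n, α, hα, β, hβ, h1⟩ ⟨m, α', hα', β', hβ', h2⟩
    refine ⟨n + m, h ^ m * α + h ^ n * α', ?_, h ^ m * β + h ^ n * β', ?_, ?_⟩
    · have e1 : (n + m) • X.A - D = m • X.A + (n • X.A - D) := by rw [add_nsmul]; abel
      have e2 : (n + m) • X.A - D = n • X.A + (m • X.A - D) := by rw [add_nsmul]; abel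
      refine Submodule.add_mem _ ?_ ?_
      · rw [e1]; exact X.mul _ _ _ _ (e04_pow hh m) hα
      · rw [e2]; exact X.mul _ _ _ _ (e04_pow hh n) hα'
    · have e1 : (n + m) • X.A - E = m • X.A + (n • X.A - E) := by rw [add_nsmul]; abel
      have e2 : (n + m) • X.A - E = n • X.A + (m • X.A - E) := by rw [add_nsmul]; abel
      refine Submodule.add_mem _ ?_ ?_
      · rw [e1]; exact X.mul _ _ _ _ (e04_pow hh m) hβ
      · rw [e2]; exact X.mul _ _ _ _ (e04_pow hh n) hβ'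
    · have e3 : ((c + d : e04R X hh) : κ) = (c : κ) + (d : κ) := rfl
      rw [e3]
      calc ((c : κ) + (d : κ)) * h ^ (n + m) = h ^ m * ((c : κ) * h ^ n) + h ^ n * ((d : κ) * h ^ m) := by
            rw [pow_add]; ring
        _ = _ := by rw [h1, h2]; ring
  smul_mem' := by
    rintro ⟨r, m, hr⟩ c ⟨n, α, hα, β, hβ, h1⟩
    refine ⟨m + n, (r * h ^ m) * α, ?_, (r * h ^ m) * β, ?_, ?_⟩
    · have e1 : (m + n) • X.A - D = m • X.A + (n • X.A - D) := by rw [add_nsmul]; abel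
      rw [e1]; exact X.mul _ _ _ _ hr hα
    · have e1 : (m + n) • X.A - E = m • X.A + (n • X.A - E) := by rw [add_nsmul]; abel
      rw [e1]; exact X.mul _ _ _ _ hr hβ
    · change r * (c : κ) * h ^ (m + n) = _
      calc r * (c : κ) * h ^ (m + n) = (r * h ^ m) * ((c : κ) * h ^ n) := by rw [pow_add]; ring
        _ = _ := by rw [h1]; ring

theorem e04_unit {W : ValuationSubring κ} (hW : Const W) {h : κ} (hh : h ∈ X.V X.A) (hh0 : h ≠ 0)
    {N : ℕ} {t : κ} (ht : GenW Γ W (N • X.A) t) (hn : t / h ^ N ∈ W.nonunits) : False := by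
  obtain ⟨ht0, ht1⟩ := ht
  have hp : h ^ N ≠ 0 := pow_ne_zero _ hh0
  have hγ := Γ.ne W hW (N • X.A)
  have h1 : (t / h ^ N)⁻¹ ∈ W := by
    have h2 : (t / h ^ N)⁻¹ = (h ^ N * Γ.γ W (N • X.A)) * (t * Γ.γ W (N • X.A))⁻¹ := by
      field_simp
    rw [h2]
    exact W.mul_mem _ _ (Γ.mem W hW _ _ (e04_pow hh N)) ht1
  have h3 : t / h ^ N ≠ 0 := div_ne_zero ht0 hp
  rw [ValuationSubring.mem_nonunits_iff] at hn
  rw [← W.valuation_le_one_iff] at h1
  have h4 : W.valuation (t / h ^ N) * W.valuation (t / h ^ N)⁻¹ = 1 := by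
    rw [← map_mul, mul_inv_cancel₀ h3, map_one]
  have h5 : W.valuation (t / h ^ N) * W.valuation (t / h ^ N)⁻¹ < 1 := by
    calc W.valuation (t / h ^ N) * W.valuation (t / h ^ N)⁻¹ ≤ W.valuation (t / h ^ N) * 1 :=
          mul_le_mul_right h1 _
      _ < 1 := by rw [mul_one]; exact hn
  exact absurd h4 h5.ne

/-- **Nullstellensatz.**

PROOF. Let `R = {c : ∃ n, c * h ^ n ∈ X.V (n • A)}`: a subring of `κ` containing the constants
(`X.one`, `X.mul`; for sums pass to the larger exponent: `h ^ k ∈ X.V (k • A)`, `pow_mem hh k`), and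
`I = {c : ∃ N, ∃ α ∈ X.V (N • A - D), ∃ β ∈ X.V (N • A - E), c * h ^ N = τ * α + s * β}`: contained
in `R` (`D + (N • A - D) = N • A`), an ideal of `R`. If `1 ∈ I` we are done. Otherwise by Mathlib's
`Ideal.image_subset_nonunits_valuationSubring` there is a valuation ring `W ⊇ R` with all
elements of `I` nonunits of `W`; `Const W`. By hypothesis `hco`, say, `τ` generates `D` at `W` (the
other case is the same). `Γ.gen (-D)` gives `N` and `α ∈ X.V (-D + N • A) = X.V (N • A - D)` which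
generates it at `W`, so `τ * α` generates `N • A` at `W` (`GenW.mul`, `D + (-D + N • A) = N • A`).
`c = τ * α / h ^ N ∈ I` is a nonunit of `W`, but `c⁻¹ = (h ^ N * γ (N A)) * (τ * α * γ (N A))⁻¹ ∈ W`
(`Γ.mem` for `h ^ N ∈ X.V (N • A)`), and `c ∈ R ⊆ W`, so `c` is a unit: contradiction. -/
theorem exists_pow_mem {D E : Λ} {τ s h : κ} (hτ : τ ∈ X.V D) (hs : s ∈ X.V E) (hh : h ∈ X.V X.A)
    (hh0 : h ≠ 0) (hco : ∀ W, Const W → GenW Γ W D τ ∨ GenW Γ W E s) :
    ∃ N : ℕ, ∃ α ∈ X.V (N • X.A - D), ∃ β ∈ X.V (N • X.A - E), h ^ N = τ * α + s * β := by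
  by_cases hI : (1 : e04R X hh) ∈ e04I hh D E τ s
  · obtain ⟨N, α, hα, β, hβ, h1⟩ := hI
    refine ⟨N, α, hα, β, hβ, ?_⟩
    rw [← h1]
    change h ^ N = 1 * h ^ N
    rw [one_mul]
  · exfalso
    have hI' : e04I hh D E τ s ≠ ⊤ := fun h => hI (by rw [h]; trivial)
    obtain ⟨W, hRW, hIW⟩ := Ideal.image_subset_nonunits_valuationSubring _ hI'
    have hW : Const W := by
      intro c
      refine hRW ?_
      refine ⟨0, ?_⟩
      rw [pow_zero, zero_nsmul, mul_one, Algebra.algebraMap_eq_smul_one]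
      exact Submodule.smul_mem _ _ X.one
    rcases hco W hW with h1 | h1
    · obtain ⟨N, hN⟩ := Γ.gen (-D)
      obtain ⟨g, hg, hg0, hg1⟩ := hN N le_rfl W hW
      have h2 := GenW.mul Γ hW h1 ⟨hg0, hg1⟩
      rw [add_neg_cancel_left] at h2
      have hgm : τ * g ∈ X.V (N • X.A) := by
        have := X.mul _ _ _ _ hτ hg
        rwa [add_neg_cancel_left] at this
      have hc : τ * g / h ^ N * h ^ N = τ * g := div_mul_cancel₀ _ (pow_ne_zero _ hh0)
      refine e04_unit Γ hW hh hh0 h2 (hIW ⟨⟨τ * g / h ^ N, N, by rw [hc]; exact hgm⟩, ?_, rfl⟩)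
      refine ⟨N, g, ?_, 0, Submodule.zero_mem _, ?_⟩
      · rwa [sub_eq_neg_add]
      · change τ * g / h ^ N * h ^ N = _
        rw [hc, mul_zero, add_zero]
    · obtain ⟨N, hN⟩ := Γ.gen (-E)
      obtain ⟨g, hg, hg0, hg1⟩ := hN N le_rfl W hW
      have h2 := GenW.mul Γ hW h1 ⟨hg0, hg1⟩
      rw [add_neg_cancel_left] at h2
      have hgm : s * g ∈ X.V (N • X.A) := by
        have := X.mul _ _ _ _ hs hg
        rwa [add_neg_cancel_left] at this
      have hc : s * g / h ^ N * h ^ N = s * g := div_mul_cancel₀ _ (pow_ne_zero _ hh0)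
      refine e04_unit Γ hW hh hh0 h2 (hIW ⟨⟨s * g / h ^ N, N, by rw [hc]; exact hgm⟩, ?_, rfl⟩)
      refine ⟨N, 0, Submodule.zero_mem _, g, ?_, ?_⟩
      · rwa [sub_eq_neg_add]
      · change s * g / h ^ N * h ^ N = _
        rw [hc, mul_zero, zero_add]

end Pool.Agent.LibCUR
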