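import Pool.Agent.LibCUR.E03
import Pool.Agent.LibCUR.E04

/-! Additivity of the degree. -/

set_option autoImplicit false

namespace Pool.Agent.LibCUR

variable {κ : Type} [Field κ] [Algebra ℂ κ] {Λ : Type} [AddCommGroup Λ] {X : CurveSys κ Λ}
  {h₀ h₁ : κ} (Γ : Trivs X)

/-- PROOF. `h₀ ^ N = τ α + s β` (`exists_pow_mem` for `h = h₀`), `α ∈ V (N A - E)`,
`β ∈ V (N A - F)`, so `c * h₀ ^ N = (c τ) α + (c s) β ∈ VV (D + N A)` (`VV_mul`, `le_VV`:
`D + E + (N A - E) = D + N A`). Same for `h₁` (exponent `N'`). `VV_sat N N'`. -/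
theorem mem_VV_of_coprime (P : Pencil X h₀ h₁) {D E F : Λ} {τ s c : κ} (hτ : τ ∈ X.V E)
    (hs : s ∈ X.V F) (hco : ∀ W, Const W → GenW Γ W E τ ∨ GenW Γ W F s)
    (hcτ : c * τ ∈ VV X h₀ h₁ (D + E)) (hcs : c * s ∈ VV X h₀ h₁ (D + F)) :
    c ∈ VV X h₀ h₁ D := by
  have key : ∀ h : κ, h ∈ X.V X.A → h ≠ 0 → ∃ N : ℕ, c * h ^ N ∈ VV X h₀ h₁ (D + N • X.A) := by
    intro h hh hh0
    obtain ⟨N, α, hα, β, hβ, hN⟩ := exists_pow_mem Γ hτ hs hh hh0 hco
    refine ⟨N, ?_⟩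
    have e1 : c * h ^ N = c * τ * α + c * s * β := by
      rw [hN]
      ring
    have m1 := VV_mul hcτ (le_VV P _ hα)
    have m2 := VV_mul hcs (le_VV P _ hβ)
    have d1 : D + E + (N • X.A - E) = D + N • X.A := by abel
    have d2 : D + F + (N • X.A - F) = D + N • X.A := by abel
    rw [d1] at m1
    rw [d2] at m2
    rw [e1]
    exact Submodule.add_mem _ m1 m2
  obtain ⟨N, hN⟩ := key h₀ P.mem0 P.ne0
  obtain ⟨N', hN'⟩ := key h₁ P.mem1 P.ne1
  exact VV_sat N N' hN hN'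

include Γ in
/-- PROOF. `Γ.gen E` and `Γ.gen F` give `m`, `k` such that `E' = E + m • A`, `F' = F + k • A` are
generated at all `W`; `τ ∈ V E'`, `s ∈ V F'` coprime (`exists_coprime`). Let `n` be large
(`X.asym` for `D + F'`, `D + E'`, `D + E' + F'`, `D`, and `VV_eq P D`). `mulS τ (V (D + F' + n A))`
and `mulS s (V (D + E' + n A))` lie in `V (D + E' + F' + n A)`; their intersection lies in
`mulS (τ * s) (V (D + n A))`: `τ u = s w`, `c = u / s = w / τ`, `c s = u`, `c τ = w`, so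
`c ∈ VV (D + n A) = V (D + n A)` (`mem_VV_of_coprime` for `D + n • A`). Dimensions
(`Submodule.finrank_sup_add_finrank_inf_eq`, `finrank_mulS`):
`e (D + F') + e (D + E') + 2 n a ≤ e (D + E' + F') + e D + 2 n a`, and `e_add_nsmul`. -/
theorem e_super (htr : ∀ a b : κ, ¬ AlgebraicIndependent ℂ ![a, b]) (P : Pencil X h₀ h₁)
    (D E F : Λ) : X.e (D + E) + X.e (D + F) ≤ X.e (D + E + F) + X.e D := by
  obtain ⟨m, hm⟩ := Γ.gen E
  obtain ⟨k, hk⟩ := Γ.gen F
  obtain ⟨τ, hτ, s, hs, hτ0, hs0, hco⟩ := exists_coprime Γ htr (E + m • X.A) (F + k • X.A)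
    (fun W hW => hm m le_rfl W hW) (fun W hW => hk k le_rfl W hW)
  obtain ⟨n₁, h1⟩ := X.asym (D + (F + k • X.A))
  obtain ⟨n₂, h2⟩ := X.asym (D + (E + m • X.A))
  obtain ⟨n₃, h3⟩ := X.asym (D + (E + m • X.A) + (F + k • X.A))
  obtain ⟨n₄, h4⟩ := X.asym D
  obtain ⟨n₅, h5⟩ := VV_eq P D
  obtain ⟨n, hn⟩ : ∃ n : ℕ, n = n₁ + n₂ + n₃ + n₄ + n₅ := ⟨_, rfl⟩
  have g1 := h1 n (by omega)
  have g2 := h2 n (by omega)
  have g3 := h3 n (by omega)
  have g4 := h4 n (by omega)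
  have g5 := h5 n (by omega)
  have i1 : mulS τ (X.V (D + (F + k • X.A) + n • X.A)) ≤
      X.V (D + (E + m • X.A) + (F + k • X.A) + n • X.A) := by
    rw [mulS_le]
    intro y hy
    have i2 := X.mul _ _ _ _ hτ hy
    have i3 : E + m • X.A + (D + (F + k • X.A) + n • X.A) =
        D + (E + m • X.A) + (F + k • X.A) + n • X.A := by abel
    rw [i3] at i2
    exact i2
  have i2 : mulS s (X.V (D + (E + m • X.A) + n • X.A)) ≤
      X.V (D + (E + m • X.A) + (F + k • X.A) + n • X.A) := by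
    rw [mulS_le]
    intro y hy
    have i2 := X.mul _ _ _ _ hs hy
    have i3 : F + k • X.A + (D + (E + m • X.A) + n • X.A) =
        D + (E + m • X.A) + (F + k • X.A) + n • X.A := by abel
    rw [i3] at i2
    exact i2
  have i3 : mulS τ (X.V (D + (F + k • X.A) + n • X.A)) ⊓ mulS s (X.V (D + (E + m • X.A) + n • X.A)) ≤
      mulS (τ * s) (X.V (D + n • X.A)) := by
    rintro z ⟨hz1, hz2⟩
    obtain ⟨u, hu, rfl⟩ := mem_mulS.1 hz1
    obtain ⟨w, hw, hwu⟩ := mem_mulS.1 hz2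
    have j1 : u / s * s = u := div_mul_cancel₀ _ hs0
    have j2 : u / s * τ = w := by
      rw [div_mul_eq_mul_div, div_eq_iff hs0]
      linear_combination -hwu
    refine mem_mulS.2 ⟨u / s, ?_, ?_⟩
    · rw [← g5]
      refine mem_VV_of_coprime Γ P (E := E + m • X.A) (F := F + k • X.A) hτ hs hco ?_ ?_
      · rw [j2]
        have j3 : D + n • X.A + (E + m • X.A) = D + (E + m • X.A) + n • X.A := by abel
        rw [j3]
        exact le_VV P _ hw
      · rw [j1]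
        have j3 : D + n • X.A + (F + k • X.A) = D + (F + k • X.A) + n • X.A := by abel
        rw [j3]
        exact le_VV P _ hu
    · linear_combination τ * j1
  have f1 := Submodule.finrank_sup_add_finrank_inf_eq (mulS τ (X.V (D + (F + k • X.A) + n • X.A)))
    (mulS s (X.V (D + (E + m • X.A) + n • X.A)))
  rw [finrank_mulS hτ0, finrank_mulS hs0] at f1
  have f2 := Submodule.finrank_mono (sup_le i1 i2)
  have f3 := Submodule.finrank_mono i3
  rw [finrank_mulS (mul_ne_zero hτ0 hs0)] at f3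
  zify at f1 f2 f3
  rw [g1, g2] at f1
  rw [g3] at f2
  rw [g4] at f3
  have k1 : X.e (D + (F + k • X.A)) = X.e (D + F) + k * X.a := by
    rw [← add_assoc, e_add_nsmul]
  have k2 : X.e (D + (E + m • X.A)) = X.e (D + E) + m * X.a := by
    rw [← add_assoc, e_add_nsmul]
  have k3 : X.e (D + (E + m • X.A) + (F + k • X.A)) = X.e (D + E + F) + (m + k) * X.a := by
    have k4 : D + (E + m • X.A) + (F + k • X.A) = D + E + F + (m + k) • X.A := by
      rw [add_nsmul]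
      abel
    rw [k4, e_add_nsmul]
    push_cast
    ring
  rw [k1, k2] at f1
  rw [k3] at f2
  linarith

include Γ in
/-- **Additivity.** PROOF. `e_super` for `(0, D, E)`: `e D + e E ≤ e (D + E) + e 0`; `e_super` for
`(E, D, -E)`: `e (E + D) + e 0 ≤ e D + e E`. -/
theorem e_add (htr : ∀ a b : κ, ¬ AlgebraicIndependent ℂ ![a, b]) (D E : Λ) :
    X.e (D + E) + X.e 0 = X.e D + X.e E := by
  obtain ⟨h₀, h₁, P⟩ := exists_pencil X htr (bpf_of_trivs Γ)
  have h1 := e_super Γ htr P 0 D E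
  have h2 := e_super Γ htr P E D (-E)
  rw [zero_add, zero_add] at h1
  rw [add_neg_cancel, add_comm E D, add_neg_cancel_right] at h2
  linarith

include Γ in
/-- All facts together. -/
theorem curve_theorem (htr : ∀ a b : κ, ¬ AlgebraicIndependent ℂ ![a, b]) :
    (∀ D E, X.e (D + E) + X.e 0 = X.e D + X.e E) ∧
    X.e 0 ≤ 1 ∧ (∀ D, X.V D ≠ ⊥ → X.e 0 ≤ X.e D) ∧
      (∀ D, X.e 0 ≤ X.e D → (Module.finrank ℂ (X.V D) : ℤ) ≤ X.e D - X.e 0 + 1) ∧
      ∃ c₀ : ℤ, ∀ D, c₀ ≤ X.e D → (Module.finrank ℂ (X.V D) : ℤ) ≤ X.e D := by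
  obtain ⟨h₀, h₁, P⟩ := exists_pencil X htr (bpf_of_trivs Γ)
  exact ⟨e_add Γ htr, curve_bounds P⟩

end Pool.Agent.LibCUR
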