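import Pool.Agent.LibCUR.Geo

set_option autoImplicit false

open Pool.Agent.LibGMM Pool.Agent.LibK Pool.Agent.LibKB

namespace Pool.Agent.LibCUR

open Pool.Agent.LibKB2 (dlt dlt_self dlt_ne resV mem_resV mem_ring_of_mem_sec finrank_resV resV_mul
  one_mem_resV isDiv_dlt isDiv_ord isDiv_zero IsDiv.add' IsDiv.neg' IsDiv.sub' IsDiv.zsmul'
  exists_compVal)
open Pool.Agent.LibLB (RLR)

variable {L : Type} [Field L] [Algebra ℂ L] {κ : Type} [Field κ] [Algebra ℂ κ]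

/-- A section which generates `D` at a point of `ν` has a nonzero residue.

PROOF. `ν.ord f + D ν = 0` (`hf.2.2 ν hν hx`), so `ν.ord f = 0` and `ρ f ≠ 0` by `hρ`. -/
theorem residue_ne_zero_of_gen (g : Geo L) {ν : DVal L} (hν : ν ∈ g.prm) (ρ : ν.ring →ₐ[ℂ] κ)
    (hρ : ∀ x : ν.ring, ρ x = 0 ↔ ((x : L) = 0 ∨ 0 < ν.ord x)) {D : DVal L → ℤ} (hD : D ν = 0)
    {x : Subalgebra ℂ L} (hx : x ≤ ν.ring) {f : L} (hf : Gen g.prm x D f) :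
    ∃ h : f ∈ ν.ring, ρ ⟨f, h⟩ ≠ 0 ∧ ρ ⟨f, h⟩ ∈ resV g.prm ρ D := by
  have h1 : ν.ord f = 0 := by
    have h2 := hf.2.2 ν hν hx
    rw [hD, add_zero] at h2
    exact h2
  have hfr : f ∈ ν.ring := mem_ring_of_mem_sec hν hD hf.1
  refine ⟨hfr, ?_, mem_resV.2 ⟨⟨f, hfr⟩, hf.1, rfl⟩⟩
  intro h0
  rcases (hρ _).1 h0 with h2 | h2
  · exact hf.2.1 h2
  · change 0 < ν.ord f at h2
    omega

/-- PROOF: adapt `LibKB2.exists_nonconst` (Pool/Agent/LibKB2/B05.lean; `S` = `g`, `B S.A` = `g.A`,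
`Coord.mem_iff` + `S.ess` = `g.mem_iff`, `inv_sub_mem` = `LibCUR.inv_sub_mem` with
`g.coord x hx`). -/
theorem exists_nonconst (g : Geo L) {ν : DVal L} (hν : ν ∈ g.prm) (hA : g.A ν = 0)
    (ρ : ν.ring →ₐ[ℂ] κ) (hρ : ∀ x : ν.ring, ρ x = 0 ↔ ((x : L) = 0 ∨ 0 < ν.ord x)) :
    ∃ u ∈ resV g.prm ρ g.A, ∃ v ∈ resV g.prm ρ g.A, u ≠ 0 ∧ v ≠ 0 ∧
      u / v ∉ Set.range (algebraMap ℂ κ) := by
  obtain ⟨x, hx, y, hy, hxy⟩ := (g.infPts ν hν).nontrivial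
  obtain ⟨f, hf, hfx⟩ := g.sep x hx.1 y hy.1 hxy
  obtain ⟨f', hf', -⟩ := g.sep y hy.1 x hx.1 hxy.symm
  obtain ⟨hfr, hu, hum⟩ := residue_ne_zero_of_gen g hν ρ hρ hA hy.2 hf
  obtain ⟨hfr', hv, hvm⟩ := residue_ne_zero_of_gen g hν ρ hρ hA hx.2 hf'
  refine ⟨_, hum, _, hvm, hu, hv, ?_⟩
  rintro ⟨lam, hlam⟩
  have hl : lam ≠ 0 := by
    rintro rfl
    rw [map_zero] at hlam
    exact div_ne_zero hu hv hlam.symm
  obtain ⟨a, b, hab⟩ := g.coord x hx.1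
  have hz0 : f / f' ≠ 0 := div_ne_zero hf.2.1 hf'.2.1
  have hzord : ∀ μ ∈ g.prm, x ≤ μ.ring → μ.ord (f / f') = μ.ord f + g.A μ := by
    intro μ hμ hxμ
    have h2 := hf'.2.2 μ hμ hxμ
    have h3 : μ.ord (f / f') + μ.ord f' = μ.ord f := by
      rw [← μ.ord_mul _ _ hz0 hf'.2.1, div_mul_cancel₀ _ hf'.2.1]
    omega
  have hz : f / f' ∈ x := by
    rw [g.mem_iff hx.1]
    intro μ hμ hxμ
    rw [hzord μ hμ hxμ]
    exact hf.1 μ hμ hf.2.1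
  have hz' : (f / f')⁻¹ ∉ x := by
    intro hcon
    apply hfx
    refine ⟨hf.1, hf.2.1, fun μ hμ hxμ => ?_⟩
    have h2 : 0 ≤ μ.ord (f / f')⁻¹ := hxμ hcon
    have h3 : μ.ord (f / f')⁻¹ + μ.ord (f / f') = 0 := by
      rw [← μ.ord_mul _ _ (inv_ne_zero hz0) hz0, inv_mul_cancel₀ hz0]
      have h4 := μ.ord_const 1
      rw [map_one] at h4
      exact h4
    have h4 := hzord μ hμ hxμ
    have h5 := hf.1 μ hμ hf.2.1
    omega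
  obtain ⟨h5, h6⟩ := inv_sub_mem hab hz hz' hl
  have h7 : 0 ≤ ν.ord (f / f' - algebraMap ℂ L lam)⁻¹ := hx.2 h5
  have h8 : ν.ord (f / f' - algebraMap ℂ L lam)⁻¹ + ν.ord (f / f' - algebraMap ℂ L lam) = 0 := by
    rw [← ν.ord_mul _ _ (inv_ne_zero h6) h6, inv_mul_cancel₀ h6]
    have h4 := ν.ord_const 1
    rw [map_one] at h4
    exact h4
  have hzr : f / f' ∈ ν.ring := hx.2 hz
  have h9 : ρ ⟨f / f', hzr⟩ * ρ ⟨f', hfr'⟩ = ρ ⟨f, hfr⟩ := by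
    rw [← map_mul]
    congr 1
    exact Subtype.ext (div_mul_cancel₀ _ hf'.2.1)
  have h10 : ρ (⟨f / f', hzr⟩ - algebraMap ℂ ν.ring lam) = 0 := by
    rw [map_sub, AlgHom.commutes, hlam, ← h9, mul_div_cancel_right₀ _ hv, sub_self]
  rcases (hρ _).1 h10 with h11 | h11
  · exact h6 h11
  · change 0 < ν.ord (f / f' - algebraMap ℂ L lam) at h11
    omega

end Pool.Agent.LibCUR
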