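import Pool.Agent.LibCUR.G02

set_option autoImplicit false

open Pool.Agent.LibGMM Pool.Agent.LibK Pool.Agent.LibKB

namespace Pool.Agent.LibCUR

open Pool.Agent.LibKB2 (dlt dlt_self dlt_ne resV mem_resV mem_ring_of_mem_sec finrank_resV resV_mul
  one_mem_resV isDiv_dlt isDiv_ord isDiv_zero IsDiv.add' IsDiv.neg' IsDiv.sub' IsDiv.zsmul'
  exists_compVal)
open Pool.Agent.LibLB (RLR)

variable {L : Type} [Field L] [Algebra ℂ L] {κ : Type} [Field κ] [Algebra ℂ κ]

/-- The divisors with coefficient `0` at `ν`. -/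
def gnu (g : Geo L) (ν : DVal L) : AddSubgroup (DVal L → ℤ) where
  carrier := {D | IsDiv g.prm D ∧ D ν = 0}
  zero_mem' := ⟨isDiv_zero _, rfl⟩
  add_mem' := by
    rintro D E ⟨h1, h2⟩ ⟨h3, h4⟩
    exact ⟨IsDiv.add' h1 h3, by rw [Pi.add_apply, h2, h4, add_zero]⟩
  neg_mem' := by
    rintro D ⟨h1, h2⟩
    exact ⟨IsDiv.neg' h1, by rw [Pi.neg_apply, h2, neg_zero]⟩

theorem coe_add_nsmul (g : Geo L) {ν : DVal L} (D A : gnu g ν) (n : ℕ) :
    ((D + n • A : gnu g ν) : DVal L → ℤ) = (D : DVal L → ℤ) + n • (A : DVal L → ℤ) := by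
  simp

private theorem g03_slope {a1 a2 c1 c2 : ℤ} (N : ℕ)
    (h : ∀ n : ℕ, N ≤ n → c1 + n * a1 ≤ c2 + n * a2) : a1 ≤ a2 := by
  by_contra hcon
  push Not at hcon
  have h1 := h (max N (c2 - c1).natAbs.succ) (le_max_left _ _)
  have h2 : (((c2 - c1).natAbs.succ : ℕ) : ℤ) ≤ ((max N (c2 - c1).natAbs.succ : ℕ) : ℤ) := by
    exact_mod_cast le_max_right _ _
  obtain ⟨M, hM⟩ : ∃ M : ℤ, M = ((max N (c2 - c1).natAbs.succ : ℕ) : ℤ) := ⟨_, rfl⟩
  rw [← hM] at h1 h2
  have h3 : (((c2 - c1).natAbs.succ : ℕ) : ℤ) = |c2 - c1| + 1 := by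
    rw [Nat.succ_eq_add_one, Nat.cast_add, Int.natCast_natAbs, Nat.cast_one]
  rw [h3] at h2
  have h4 := le_abs_self (c2 - c1)
  have h5 := abs_nonneg (c2 - c1)
  nlinarith

private theorem g03_transc {t : κ} (ht : t ∉ Set.range (algebraMap ℂ κ)) : Transcendental ℂ t := by
  intro hal
  apply ht
  have h1 : IsIntegral ℂ t := hal.isIntegral
  exact minpoly.mem_range_of_degree_eq_one ℂ t
    (IsAlgClosed.degree_eq_one_of_irreducible ℂ (minpoly.irreducible h1))

private theorem g03_indep {u v : κ} (hv : v ≠ 0) (h : u / v ∉ Set.range (algebraMap ℂ κ))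
    (n : ℕ) : LinearIndependent ℂ (fun i : Fin (n + 1) => u ^ (i : ℕ) * v ^ (n - i)) := by
  rw [Fintype.linearIndependent_iff]
  intro c hc i
  obtain ⟨P, hP⟩ : ∃ P : Polynomial ℂ, P = ∑ j : Fin (n + 1),
      Polynomial.C (c j) * Polynomial.X ^ (j : ℕ) := ⟨_, rfl⟩
  have h1 : v ^ n * Polynomial.aeval (u / v) P = 0 := by
    rw [← hc, hP, map_sum, Finset.mul_sum]
    refine Finset.sum_congr rfl fun j _ => ?_
    rw [map_mul, Polynomial.aeval_C, map_pow, Polynomial.aeval_X, Algebra.smul_def]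
    have h2 : v ^ n = v ^ (j : ℕ) * v ^ (n - j) := by
      rw [← pow_add, Nat.add_sub_cancel' (Nat.lt_succ_iff.1 j.2)]
    have h3 : v ^ (j : ℕ) ≠ 0 := pow_ne_zero _ hv
    rw [h2, div_pow]
    field_simp
  have h2 : Polynomial.aeval (u / v) P = 0 :=
    (mul_eq_zero.1 h1).resolve_left (pow_ne_zero n hv)
  have h3 : P = 0 := (transcendental_iff.1 (g03_transc h)) P h2
  have h4 : P.coeff i = c i := by
    rw [hP, Polynomial.finsetSum_coeff, Finset.sum_eq_single i]
    · simp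
    · intro j _ hj
      rw [Polynomial.coeff_C_mul, Polynomial.coeff_X_pow, if_neg, mul_zero]
      intro hij
      exact hj (Fin.ext hij.symm)
    · intro hcon
      exact absurd (Finset.mem_univ i) hcon
  rw [← h4, h3, Polynomial.coeff_zero]

private theorem g03_pow {P : Set (DVal L)} {ν : DVal L} {ρ : ν.ring →ₐ[ℂ] κ}
    {A : DVal L → ℤ} {u : κ} (hu : u ∈ resV P ρ A) (i : ℕ) : u ^ i ∈ resV P ρ (i • A) := by
  induction i with
  | zero =>
    rw [pow_zero, zero_nsmul]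
    exact one_mem_resV
  | succ i ih =>
    rw [pow_succ, succ_nsmul]
    exact resV_mul ih hu

private theorem g03_mono (g : Geo L) {ν : DVal L} (hν : ν ∈ g.prm) (ρ : ν.ring →ₐ[ℂ] κ)
    (hρ : ∀ x : ν.ring, ρ x = 0 ↔ ((x : L) = 0 ∨ 0 < ν.ord x)) {D E : DVal L → ℤ}
    (hE : IsDiv g.prm E) (hD : IsDiv g.prm D) (hDν : D ν = 0) (hEν : E ν = 0) {β : κ} (hβ : β ≠ 0)
    (hβE : β ∈ resV g.prm ρ E) : Module.finrank ℂ (resV g.prm ρ D) ≤
      Module.finrank ℂ (resV g.prm ρ (D + E)) := by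
  have hf := g.finSec _ (IsDiv.add' hD hE)
  have h0 : (D + E) ν = 0 := by rw [Pi.add_apply, hDν, hEν, add_zero]
  have hfin := (finrank_resV hν hρ h0).1
  rw [← finrank_mulS hβ]
  refine Submodule.finrank_mono ?_
  rw [mulS_le]
  intro y hy
  rw [mul_comm]
  exact resV_mul hy hβE

/-- **The curve system of `ν`.**

PROOF. `V D = resV g.prm ρ D` (`resV_mul`, `one_mem_resV`, finite dimensional by `finrank_resV` with
`g.finSec`). For `D ∈ gnu g ν`: `finrank (V (D + n A)) = h0 (D + n A) - h0 (D + n A - dlt ν)`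
(`finrank_resV`) `= e D + n * a D` for `n ≥ n₀ D` (`g.lin`, `choose`). (1) `a D = a 0`: let `x` be a
point on `ν` (`g.infPts`). `g.gen (-D)` gives `m` and `f` with `Gen x (-D + m A) f`,
`β = ρ f ≠ 0` (`residue_ne_zero_of_gen`), `mulS β (V (D + n A)) ≤ V (0 + (n + m) A)`, so
`e D + n a D ≤ e 0 + (n + m) a 0` for all large `n`, hence `a D ≤ a 0`; with `g.gen D`:
`mulS β (V (0 + n A)) ≤ V (D + (n + m) A)`, so `a 0 ≤ a D`. (2) `a 0 ≥ 1`: `u, v` from
`exists_nonconst`, the `n + 1` elements `u ^ i * v ^ (n - i)` of `V (0 + n A)` are linearly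
independent (`LibKB2.b05_indep` in B05.lean; compare `LibKB2.A_pos`), so
`n + 1 ≤ e 0 + n a 0` for all large `n`. So `a = a 0` and `asym` holds with `e`. -/
theorem exists_curveSys (g : Geo L) {ν : DVal L} (hν : ν ∈ g.prm) (hA : g.A ν = 0)
    (ρ : ν.ring →ₐ[ℂ] κ) (hρ : ∀ x : ν.ring, ρ x = 0 ↔ ((x : L) = 0 ∨ 0 < ν.ord x)) :
    ∃ X : CurveSys κ (gnu g ν), (∀ D, X.V D = resV g.prm ρ D) ∧ (X.A : DVal L → ℤ) = g.A := by
  have hlin0 : ∀ D : gnu g ν, ∃ (a e : ℤ) (n₀ : ℕ), ∀ n : ℕ, n₀ ≤ n →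
      (Module.finrank ℂ (resV g.prm ρ ((D : DVal L → ℤ) + n • g.A)) : ℤ) = e + n * a := by
    intro D
    obtain ⟨a, e, n₀, h⟩ := g.lin ν hν D D.2.1
    refine ⟨a, e, n₀, fun n hn => ?_⟩
    have hd : IsDiv g.prm ((D : DVal L → ℤ) + n • g.A) := by
      have h1 := IsDiv.zsmul' g.divA (n : ℤ)
      rw [natCast_zsmul] at h1
      exact IsDiv.add' D.2.1 h1
    have hf := g.finSec _ hd
    have h0 : ((D : DVal L → ℤ) + n • g.A) ν = 0 := by
      rw [Pi.add_apply, D.2.2, Pi.smul_apply, hA, smul_zero, add_zero]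
    rw [(finrank_resV hν hρ h0).2]
    exact h n hn
  choose aa ee nn hlin using hlin0
  have hdiv : ∀ (D : gnu g ν) (n : ℕ), IsDiv g.prm ((D : DVal L → ℤ) + n • g.A) := by
    intro D n
    have h1 := IsDiv.zsmul' g.divA (n : ℤ)
    rw [natCast_zsmul] at h1
    exact IsDiv.add' D.2.1 h1
  have hval : ∀ (D : gnu g ν) (n : ℕ), ((D : DVal L → ℤ) + n • g.A) ν = 0 := by
    intro D n
    rw [Pi.add_apply, D.2.2, Pi.smul_apply, hA, smul_zero, add_zero]
  obtain ⟨x, hx⟩ := (g.infPts ν hν).nonempty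
  have hgen : ∀ D : gnu g ν, ∃ (m : ℕ) (β : κ), β ≠ 0 ∧
      β ∈ resV g.prm ρ ((D : DVal L → ℤ) + m • g.A) := by
    intro D
    obtain ⟨m, hm⟩ := g.gen D D.2.1
    obtain ⟨f, hf⟩ := hm m le_rfl x hx.1
    obtain ⟨h1, h2, h3⟩ := residue_ne_zero_of_gen g hν ρ hρ (hval D m) hx.2 hf
    exact ⟨m, _, h2, h3⟩
  have hle : ∀ D E : gnu g ν, aa D ≤ aa (D + E) := by
    intro D E
    obtain ⟨m, β, hβ, hβm⟩ := hgen E
    refine g03_slope (c1 := ee D) (c2 := ee (D + E) + m * aa (D + E))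
      (max (nn D) (nn (D + E))) ?_
    intro n hn
    have h1 := g03_mono g hν ρ hρ (hdiv E m) (hdiv D n) (hval D n) (hval E m) hβ hβm
    have h2 : (D : DVal L → ℤ) + n • g.A + ((E : DVal L → ℤ) + m • g.A) =
        ((D + E : gnu g ν) : DVal L → ℤ) + (n + m) • g.A := by
      rw [AddSubgroup.coe_add, add_nsmul]
      abel
    rw [h2] at h1
    have h3 : (Module.finrank ℂ (resV g.prm ρ ((D : DVal L → ℤ) + n • g.A)) : ℤ) ≤
        (Module.finrank ℂ (resV g.prm ρ (((D + E : gnu g ν) : DVal L → ℤ) + (n + m) • g.A)) : ℤ) := by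
      exact_mod_cast h1
    rw [hlin D n ((le_max_left _ _).trans hn),
      hlin (D + E) (n + m) (((le_max_right _ _).trans hn).trans (Nat.le_add_right _ _))] at h3
    push_cast at h3
    linarith
  have haa : ∀ D : gnu g ν, aa D = aa 0 := by
    intro D
    refine le_antisymm ?_ ?_
    · have h1 := hle D (-D)
      rw [add_neg_cancel] at h1
      exact h1
    · have h1 := hle 0 D
      rw [zero_add] at h1
      exact h1
  have hpos : 0 < aa 0 := by
    obtain ⟨u, hu, v, hv, hu0, hv0, huv⟩ := exists_nonconst g hν hA ρ hρ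
    have h1 : (1 : ℤ) ≤ aa 0 := by
      refine g03_slope (c1 := 1) (c2 := ee 0) (nn 0) ?_
      intro n hn
      have h2 := hlin 0 n hn
      have hfs := g.finSec _ (hdiv 0 n)
      have hfin := (finrank_resV hν hρ (hval 0 n)).1
      have hw : ∀ i : Fin (n + 1), u ^ (i : ℕ) * v ^ (n - i) ∈
          resV g.prm ρ (((0 : gnu g ν) : DVal L → ℤ) + n • g.A) := by
        intro i
        have h3 := resV_mul (g03_pow hu i) (g03_pow hv (n - i))
        rw [← add_nsmul, Nat.add_sub_cancel' (Nat.lt_succ_iff.1 i.2)] at h3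
        rw [AddSubgroup.coe_zero, zero_add]
        exact h3
      have hli : LinearIndependent ℂ
          (fun i : Fin (n + 1) => (⟨_, hw i⟩ :
            resV g.prm ρ (((0 : gnu g ν) : DVal L → ℤ) + n • g.A))) := by
        have h3 := g03_indep hv0 huv n
        rw [← LinearMap.linearIndependent_iff
          (resV g.prm ρ (((0 : gnu g ν) : DVal L → ℤ) + n • g.A)).subtype
          (Submodule.ker_subtype _)]
        exact h3
      have h4 := hli.fintype_card_le_finrank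
      rw [Fintype.card_fin] at h4
      have h5 : ((n + 1 : ℕ) : ℤ) ≤ (Module.finrank ℂ
          (resV g.prm ρ (((0 : gnu g ν) : DVal L → ℤ) + n • g.A)) : ℤ) := by exact_mod_cast h4
      rw [h2] at h5
      push_cast at h5
      linarith
    linarith
  refine ⟨{ V := fun D => resV g.prm ρ D
            fin := ?_
            mul := ?_
            one := ?_
            A := ⟨g.A, g.divA, hA⟩
            a := aa 0
            apos := hpos
            e := ee
            asym := ?_ }, fun _ => rfl, rfl⟩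
  · intro D
    have hf := g.finSec _ D.2.1
    exact (finrank_resV hν hρ D.2.2).1
  · intro D E a b ha hb
    rw [AddSubgroup.coe_add]
    exact resV_mul ha hb
  · rw [AddSubgroup.coe_zero]
    exact one_mem_resV
  · intro F
    refine ⟨nn F, fun n hn => ?_⟩
    rw [coe_add_nsmul, ← haa F]
    exact hlin F n hn

end Pool.Agent.LibCUR
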