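import Pool.Agent.LibCUR.G03

set_option autoImplicit false

open Pool.Agent.LibGMM Pool.Agent.LibK Pool.Agent.LibKB

namespace Pool.Agent.LibCUR

open Pool.Agent.LibKB2 (dlt dlt_self dlt_ne resV mem_resV mem_ring_of_mem_sec finrank_resV resV_mul
  one_mem_resV isDiv_dlt isDiv_ord isDiv_zero IsDiv.add' IsDiv.neg' IsDiv.sub' IsDiv.zsmul'
  exists_compVal)
open Pool.Agent.LibLB (RLR)

variable {L : Type} [Field L] [Algebra ℂ L] {κ : Type} [Field κ] [Algebra ℂ κ]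

/-- Local generators at one valuation ring `W`.

PROOF (compare `LibKB2.exists_bpf`, B06.lean). `V` from `exists_compVal ρ hρ W` (the composite
valuation ring of `L`); it contains the constants and is `≠ ⊤`. `g.centre V`:
(i) `x ∈ g.pts` with `VDom x V`; then `x ≤ ν.ring`. For `D ∈ gnu g ν` let `h D` be a local equation
at `x` (`g.exists_loc`): `ν.ord (h D) = D ν = 0`; `γ D = ρ (h D) ≠ 0`. `add`: for all `μ` through
`x` the orders of `h (D + E)` and `h D * h E` agree, so their quotients lie in `x ≤ V`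
(`g.mem_iff`), and `ρ` of an element of `x` lies in `W` (`V`). `mem`: `s = ρ f`, `f ∈ sec D`:
`f * h D ∈ x` (orders `≥ 0`), so `s * γ D ∈ W`. `gen`: if `Gen x D f` then
`(f * h D)⁻¹ ∈ x` (orders `= 0`), so `(ρ f * γ D)⁻¹ ∈ W`, `ρ f ≠ 0` by `residue_ne_zero_of_gen`.
(ii) `V` is the ring of a prime `μ`: then `W = ⊤` (see `LibKB2.exists_bpf`), take `γ = 1`; for the last
claim let `x` be any point on `ν`: hypothesis `hf` for this point. -/
theorem exists_triv (g : Geo L) {ν : DVal L} (hν : ν ∈ g.prm) (ρ : ν.ring →ₐ[ℂ] κ)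
    (hρs : Function.Surjective ρ)
    (hρ : ∀ x : ν.ring, ρ x = 0 ↔ ((x : L) = 0 ∨ 0 < ν.ord x)) (W : ValuationSubring κ)
    (hW : Const W) : ∃ γ : gnu g ν → κ, (∀ D, γ D ≠ 0) ∧
      (∀ D E, γ (D + E) / (γ D * γ E) ∈ W ∧ γ D * γ E / γ (D + E) ∈ W) ∧
      (∀ D : gnu g ν, ∀ s ∈ resV g.prm ρ (D : DVal L → ℤ), s * γ D ∈ W) ∧
      ∀ D : gnu g ν, (∀ x ∈ g.pts, ∃ f, Gen g.prm x (D : DVal L → ℤ) f) →
        ∃ s ∈ resV g.prm ρ (D : DVal L → ℤ), s ≠ 0 ∧ (s * γ D)⁻¹ ∈ W := by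
  obtain ⟨V, hV⟩ := exists_compVal ρ hρ W
  obtain ⟨t, ht⟩ := ν.exists_ord_one
  have ht0 : t ≠ 0 := by
    rintro rfl
    rw [ν.ord_zero] at ht
    exact zero_ne_one ht
  have hc : ∀ c : ℂ, algebraMap ℂ L c ∈ V := by
    intro c
    rw [hV]
    refine ⟨ν.ring.algebraMap_mem c, ?_⟩
    have h1 : (⟨algebraMap ℂ L c, ν.ring.algebraMap_mem c⟩ : ν.ring) =
        algebraMap ℂ ν.ring c := rfl
    rw [h1, AlgHom.commutes]
    exact hW c
  have hne : V ≠ ⊤ := by
    intro h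
    have h1 : t⁻¹ ∈ V := by
      rw [h]
      exact ValuationSubring.mem_top _
    obtain ⟨h2, _⟩ := (hV _).1 h1
    have h3 : 0 ≤ ν.ord t⁻¹ := h2
    rw [ν.ord_inv, ht] at h3
    norm_num at h3
  rcases g.centre V hc hne with ⟨x, hx, hdom⟩ | ⟨μ, hμ, hμV⟩
  · have hxν : x ≤ ν.ring := by
      intro z hz
      exact ((hV z).1 (hdom.1 z hz)).1
    have key : ∀ (a b : L) (ha : a ∈ ν.ring) (hb : b ∈ ν.ring), b ≠ 0 → ρ ⟨b, hb⟩ ≠ 0 →
        a / b ∈ x → ρ ⟨a, ha⟩ / ρ ⟨b, hb⟩ ∈ W := by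
      intro a b ha hb hb0 hρb hab
      obtain ⟨h1, h2⟩ := (hV _).1 (hdom.1 _ hab)
      have h3 : ρ ⟨a / b, h1⟩ * ρ ⟨b, hb⟩ = ρ ⟨a, ha⟩ := by
        rw [← map_mul]
        congr 1
        apply Subtype.ext
        change a / b * b = a
        exact div_mul_cancel₀ _ hb0
      rw [← h3, mul_div_assoc, div_self hρb, mul_one]
      exact h2
    choose h hh using fun D : gnu g ν => g.exists_loc hx D.2.1
    have hν0 : ∀ D : gnu g ν, ν.ord (h D) = 0 := fun D => by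
      rw [(hh D).2 ν hν hxν]
      exact D.2.2
    have hr : ∀ D : gnu g ν, h D ∈ ν.ring := fun D => (hν0 D).ge
    have hρ0 : ∀ D : gnu g ν, ρ ⟨h D, hr D⟩ ≠ 0 := by
      intro D h1
      rcases (hρ _).1 h1 with h2 | h2
      · exact (hh D).1 h2
      · exact absurd (hν0 D) (ne_of_gt h2)
    have hmul : ∀ D E : gnu g ν, ρ ⟨h D * h E, mul_mem (hr D) (hr E)⟩ =
        ρ ⟨h D, hr D⟩ * ρ ⟨h E, hr E⟩ := by
      intro D E
      rw [← map_mul]
      rfl
    refine ⟨fun D => ρ ⟨h D, hr D⟩, hρ0, ?_, ?_, ?_⟩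
    · intro D E
      have hDE : ∀ μ ∈ g.prm, x ≤ μ.ring → μ.ord (h (D + E)) = μ.ord (h D) + μ.ord (h E) := by
        intro μ hμ hxμ
        rw [(hh (D + E)).2 μ hμ hxμ, (hh D).2 μ hμ hxμ, (hh E).2 μ hμ hxμ]
        rfl
      constructor
      · have h1 := key (h (D + E)) (h D * h E) (hr _) (mul_mem (hr D) (hr E))
          (mul_ne_zero (hh D).1 (hh E).1) (by
            rw [hmul]
            exact mul_ne_zero (hρ0 D) (hρ0 E)) (by
            rw [g.mem_iff hx]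
            intro μ hμ hxμ
            rw [μ.ord_div (hh (D + E)).1 (mul_ne_zero (hh D).1 (hh E).1),
              μ.ord_mul _ _ (hh D).1 (hh E).1, hDE μ hμ hxμ]
            omega)
        rw [hmul] at h1
        exact h1
      · have h1 := key (h D * h E) (h (D + E)) (mul_mem (hr D) (hr E)) (hr _)
          (hh (D + E)).1 (hρ0 _) (by
            rw [g.mem_iff hx]
            intro μ hμ hxμ
            rw [μ.ord_div (mul_ne_zero (hh D).1 (hh E).1) (hh (D + E)).1,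
              μ.ord_mul _ _ (hh D).1 (hh E).1, hDE μ hμ hxμ]
            omega)
        rw [hmul] at h1
        exact h1
    · intro D s hs
      obtain ⟨⟨u, hur⟩, hu, rfl⟩ := mem_resV.1 hs
      have hux : u * h D ∈ x := by
        rw [g.mem_iff hx]
        intro μ hμ hxμ
        by_cases hu0 : u = 0
        · rw [hu0, zero_mul, μ.ord_zero]
        have h1 : 0 ≤ μ.ord u + (D : DVal L → ℤ) μ := hu μ hμ hu0
        rw [μ.ord_mul _ _ hu0 (hh D).1, (hh D).2 μ hμ hxμ]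
        exact h1
      obtain ⟨h1, h2⟩ := (hV _).1 (hdom.1 _ hux)
      have h3 : ρ ⟨u, hur⟩ * ρ ⟨h D, hr D⟩ = ρ ⟨u * h D, h1⟩ := by
        rw [← map_mul]
        rfl
      change ρ ⟨u, hur⟩ * ρ ⟨h D, hr D⟩ ∈ W
      rw [h3]
      exact h2
    · intro D hD
      obtain ⟨f, hf⟩ := hD x hx
      obtain ⟨hfr, hf0, hfs⟩ := residue_ne_zero_of_gen g hν ρ hρ D.2.2 hxν hf
      refine ⟨ρ ⟨f, hfr⟩, hfs, hf0, ?_⟩
      have h3 : ρ ⟨f, hfr⟩ * ρ ⟨h D, hr D⟩ = ρ ⟨f * h D, mul_mem hfr (hr D)⟩ := by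
        rw [← map_mul]
        rfl
      have h4 : ρ ⟨1, one_mem _⟩ = 1 := map_one ρ
      have hn : f * h D ≠ 0 := mul_ne_zero hf.2.1 (hh D).1
      have h5 := key 1 (f * h D) (one_mem _) (mul_mem hfr (hr D)) hn (by
        rw [← h3]
        exact mul_ne_zero hf0 (hρ0 D)) (by
        rw [g.mem_iff hx]
        intro μ hμ hxμ
        have h6 := hf.2.2 μ hμ hxμ
        rw [μ.ord_div one_ne_zero hn, μ.ord_mul _ _ hf.2.1 (hh D).1, (hh D).2 μ hμ hxμ, μ.ord_one]
        omega)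
      rw [h4, one_div, ← h3] at h5
      exact h5
  · have htop : ∀ w : κ, w ∈ W := by
      intro w
      obtain ⟨⟨f, hf⟩, rfl⟩ := hρs w
      by_contra hw
      have hfV : f ∉ V := by
        rw [hV]
        rintro ⟨_, h2⟩
        exact hw h2
      rw [hμV] at hfV
      push Not at hfV
      have hf0 : f ≠ 0 := by
        rintro rfl
        rw [μ.ord_zero] at hfV
        exact lt_irrefl _ hfV
      have htr : t ∈ ν.ring := by
        change 0 ≤ ν.ord t
        rw [ht]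
        norm_num
      have h1 : ∀ n : ℕ, 0 ≤ (n : ℤ) * μ.ord f + μ.ord t := by
        intro n
        have h2 : f ^ n * t ∈ V := by
          rw [hV]
          refine ⟨mul_mem (_root_.pow_mem hf n) htr, ?_⟩
          have h3 : (⟨f ^ n * t, mul_mem (_root_.pow_mem hf n) htr⟩ : ν.ring) =
              ⟨f, hf⟩ ^ n * ⟨t, htr⟩ := rfl
          have h4 : ρ ⟨t, htr⟩ = 0 := (hρ _).2 (Or.inr (by
            change 0 < ν.ord t
            rw [ht]
            norm_num))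
          rw [h3, map_mul, h4, mul_zero]
          exact W.zero_mem
        rw [hμV, μ.ord_mul _ _ (pow_ne_zero _ hf0) ht0, μ.ord_pow] at h2
        exact h2
      have h2 := h1 ((μ.ord t).toNat + 1)
      have h3 : ((((μ.ord t).toNat + 1 : ℕ) : ℤ)) * μ.ord f ≤
          (((μ.ord t).toNat + 1 : ℕ) : ℤ) * (-1) :=
        mul_le_mul_of_nonneg_left (by omega) (by positivity)
      push_cast at h2 h3
      omega
    refine ⟨fun _ => 1, fun _ => one_ne_zero, fun _ _ => ⟨htop _, htop _⟩,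
      fun _ _ _ => htop _, ?_⟩
    intro D hD
    obtain ⟨x, hx, hxν⟩ := (g.infPts ν hν).nonempty
    obtain ⟨f, hf⟩ := hD x hx
    obtain ⟨hfr, hf0, hfs⟩ := residue_ne_zero_of_gen g hν ρ hρ D.2.2 hxν hf
    exact ⟨ρ ⟨f, hfr⟩, hfs, hf0, htop _⟩

end Pool.Agent.LibCUR
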