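import Pool.Agent.LibCUR.G05

set_option autoImplicit false

open Pool.Agent.LibGMM Pool.Agent.LibK Pool.Agent.LibKB

namespace Pool.Agent.LibCUR

open Pool.Agent.LibKB2 (dlt dlt_self dlt_ne resV mem_resV mem_ring_of_mem_sec finrank_resV resV_mul
  one_mem_resV isDiv_dlt isDiv_ord isDiv_zero IsDiv.add' IsDiv.neg' IsDiv.sub' IsDiv.zsmul'
  exists_compVal)
open Pool.Agent.LibLB (RLR)

variable {L : Type} [Field L] [Algebra ℂ L] {κ : Type} [Field κ] [Algebra ℂ κ]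

/-- PROOF. `choose` from `exists_triv` (for `W` with `¬ Const W` put `γ W D = 1`); `gen` from
`g.gen D` (`D + n • A` as an element of `gnu`, `coe_add_nsmul`); `genA`: at every point `x` there is
a section of `g.A` generating at `x`: `g.sep x' x` for another point `x' ≠ x` (`g.infPts ν hν` is
infinite). -/
theorem exists_trivs (g : Geo L) {ν : DVal L} (hν : ν ∈ g.prm) (ρ : ν.ring →ₐ[ℂ] κ)
    (hρs : Function.Surjective ρ)
    (hρ : ∀ x : ν.ring, ρ x = 0 ↔ ((x : L) = 0 ∨ 0 < ν.ord x)) (X : CurveSys κ (gnu g ν))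
    (hX : ∀ D, X.V D = resV g.prm ρ D) (hXA : (X.A : DVal L → ℤ) = g.A) :
    Nonempty (Trivs X) := by
  classical
  have hT : ∀ W : ValuationSubring κ, ∃ γ : gnu g ν → κ, Const W → ((∀ D, γ D ≠ 0) ∧
      (∀ D E, γ (D + E) / (γ D * γ E) ∈ W ∧ γ D * γ E / γ (D + E) ∈ W) ∧
      (∀ D : gnu g ν, ∀ s ∈ resV g.prm ρ (D : DVal L → ℤ), s * γ D ∈ W) ∧
      ∀ D : gnu g ν, (∀ x ∈ g.pts, ∃ f, Gen g.prm x (D : DVal L → ℤ) f) →
        ∃ s ∈ resV g.prm ρ (D : DVal L → ℤ), s ≠ 0 ∧ (s * γ D)⁻¹ ∈ W) := by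
    intro W
    by_cases hW : Const W
    · obtain ⟨γ, h⟩ := exists_triv g hν ρ hρs hρ W hW
      exact ⟨γ, fun _ => h⟩
    · exact ⟨fun _ => 1, fun h => absurd h hW⟩
  choose γ hγ using hT
  refine ⟨{ γ := γ
            ne := fun W hW D => (hγ W hW).1 D
            add := fun W hW D E => (hγ W hW).2.1 D E
            mem := fun W hW D s hs => (hγ W hW).2.2.1 D s (by rw [← hX]; exact hs)
            gen := ?_
            genA := ?_ }⟩
  · intro D
    obtain ⟨n₀, h⟩ := g.gen (D : DVal L → ℤ) D.2.1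
    refine ⟨n₀, fun n hn W hW => ?_⟩
    obtain ⟨s, hs, hs0, hsW⟩ := (hγ W hW).2.2.2 (D + n • X.A) (fun x hx => by
      rw [coe_add_nsmul, hXA]
      exact h n hn x hx)
    exact ⟨s, by rw [hX]; exact hs, hs0, hsW⟩
  · intro W hW
    obtain ⟨s, hs, hs0, hsW⟩ := (hγ W hW).2.2.2 X.A (fun x hx => by
      obtain ⟨x', hx', hne⟩ := (g.infPts ν hν).nontrivial.exists_ne x
      obtain ⟨f, hf, -⟩ := g.sep x' hx'.1 x hx hne
      exact ⟨f, by rw [hXA]; exact hf⟩)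
    exact ⟨s, by rw [hX]; exact hs, hs0, hsW⟩

end Pool.Agent.LibCUR
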