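import Pool.Agent.LibCUR.Geo
import Pool.Agent.LibGMM.CanRes

set_option autoImplicit false

open Pool.Agent.LibGMM Pool.Agent.LibK Pool.Agent.LibKB

namespace Pool.Agent.LibCUR

variable {L : Type} [Field L] [Algebra ℂ L] {κ : Type} [Field κ] [Algebra ℂ κ]

/-- PROOF: adapt `LibKB2.not_indep_residue` (B07.lean): three algebraically independent elements of
`L` contradict `Algebra.trdeg ℂ L = 2` (`AlgebraicIndependent.cardinalMk_le_trdeg` gives
`#(Option (Fin 2)) ≤ Algebra.trdeg`, a cardinal or natural number depending on the definition of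
`Algebra.trdeg` in this Mathlib; `g.dim`). -/
theorem not_indep_residue (g : Geo L) {ν : DVal L} (ρ : ν.ring →ₐ[ℂ] κ)
    (hρs : Function.Surjective ρ)
    (hρ : ∀ x : ν.ring, ρ x = 0 ↔ ((x : L) = 0 ∨ 0 < ν.ord x)) (a b : κ) :
    ¬ AlgebraicIndependent ℂ ![a, b] := by
  intro hab
  obtain ⟨a', ha'⟩ := hρs a
  obtain ⟨b', hb'⟩ := hρs b
  obtain ⟨t, ht⟩ := ν.exists_ord_one
  have h1 : (fun i => ρ ((![a', b'] : Fin 2 → ν.ring) i)) = ![a, b] := by
    funext i
    fin_cases i
    · exact ha'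
    · exact hb'
  have h2 := algebraicIndependent_residue ν ρ hρ t ht (![a', b'] : Fin 2 → ν.ring)
    (by rw [h1]; exact hab)
  have h7 := h2.cardinalMk_le_trdeg
  rw [g.dim] at h7
  simp only [Cardinal.mk_fin, Cardinal.mk_option] at h7
  have h8 : ((3 : ℕ) : Cardinal) ≤ ((2 : ℕ) : Cardinal) := by
    refine le_trans (le_of_eq ?_) (h7.trans (le_of_eq ?_))
    · norm_num
    · norm_num
  rw [Nat.cast_le] at h8
  omega

end Pool.Agent.LibCUR
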