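import Pool.Agent.LibCUR.Geo

set_option autoImplicit false

open Pool.Agent.LibGMM Pool.Agent.LibK Pool.Agent.LibKB

namespace Pool.Agent.LibCUR

open Pool.Agent.LibKB2 (dlt dlt_self dlt_ne resV mem_resV mem_ring_of_mem_sec finrank_resV resV_mul
  one_mem_resV isDiv_dlt isDiv_ord isDiv_zero IsDiv.add' IsDiv.neg' IsDiv.sub' IsDiv.zsmul'
  exists_compVal)

variable {L : Type} [Field L] [Algebra ℂ L]

private theorem g07_mem {P : Set (DVal L)} {D : DVal L → ℤ} {f : L} (hf : f ≠ 0) (z : L) :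
    z ∈ sec P D ↔ z / f ∈ sec P (D + fun μ => μ.ord f) := by
  rw [mem_sec, mem_sec]
  constructor
  · intro h ν hν hne
    have hz : z ≠ 0 := by
      rintro rfl
      exact hne (zero_div f)
    have h1 := h ν hν hz
    rw [ν.ord_div hz hf, Pi.add_apply]
    linarith
  · intro h ν hν hz
    have h1 := h ν hν (div_ne_zero hz hf)
    rw [ν.ord_div hz hf, Pi.add_apply] at h1
    linarith

/-- Linearly equivalent divisors have the same number of sections.

PROOF. Multiplication with `f` is an isomorphism `sec P (D + div f) → sec P D`. (Compare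
`LibKB2.h0_congr`, B03.lean.) -/
theorem h0_add_ord {P : Set (DVal L)} {D : DVal L → ℤ} {f : L} (hf : f ≠ 0) :
    h0 P (D + fun μ => μ.ord f) = h0 P D := by
  have hinj : Function.Injective (LinearMap.mulLeft ℂ f) := by
    intro a b hab
    simp only [LinearMap.mulLeft_apply] at hab
    exact mul_left_cancel₀ hf hab
  have hmap : sec P D = (sec P (D + fun μ => μ.ord f)).map (LinearMap.mulLeft ℂ f) := by
    ext z
    rw [Submodule.mem_map]
    constructor
    · intro hz
      refine ⟨z / f, (g07_mem hf z).1 hz, ?_⟩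
      rw [LinearMap.mulLeft_apply]
      exact mul_div_cancel₀ z hf
    · rintro ⟨y, hy, rfl⟩
      rw [g07_mem hf, LinearMap.mulLeft_apply, mul_div_cancel_left₀ y hf]
      exact hy
  unfold h0
  rw [hmap]
  exact (Submodule.equivMapOfInjective (LinearMap.mulLeft ℂ f) hinj _).finrank_eq

/-- PROOF. `h ∈ sec D` iff `h / f ∈ sec (D + div f)`, same for `Gen`. -/
theorem gen_add_ord {P : Set (DVal L)} {D : DVal L → ℤ} {x : Subalgebra ℂ L} {f h : L} (hf : f ≠ 0) :
    Gen P x D h ↔ Gen P x (D + fun μ => μ.ord f) (h / f) := by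
  unfold Gen
  rw [← g07_mem hf h]
  constructor
  · rintro ⟨h1, h2, h3⟩
    refine ⟨h1, div_ne_zero h2 hf, fun ν hν hx => ?_⟩
    rw [ν.ord_div h2 hf, Pi.add_apply]
    have := h3 ν hν hx
    linarith
  · rintro ⟨h1, h2, h3⟩
    have hh : h ≠ 0 := by
      rintro rfl
      exact h2 (zero_div f)
    refine ⟨h1, hh, fun ν hν hx => ?_⟩
    have := h3 ν hν hx
    rw [ν.ord_div hh hf, Pi.add_apply] at this
    linarith

private theorem g07_nsmul (D A : DVal L → ℤ) (f : L) (n : ℕ) :
    D + n • (A + fun μ => μ.ord f) = (D + n • A) + fun μ : DVal L => μ.ord (f ^ n) := by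
  funext μ
  show D μ + n • (A μ + μ.ord f) = D μ + n • A μ + μ.ord (f ^ n)
  rw [μ.ord_pow, nsmul_eq_mul, nsmul_eq_mul]
  ring

/-- Moving the ample divisor away from `ν`.

PROOF. `t` with `ν.ord t = 1`, `f = t ^ (- g.A ν)` (`zpow`), `A' = g.A + div f`; all fields of `Geo`
except `sep`, `gen`, `lin` are unchanged (`divA`: `IsDiv.add'`, `isDiv_ord g.finDiv`); `sep`, `gen`
by `gen_add_ord` (`D + n • A' = (D + n • A) + div (f ^ n)`), `lin` by `h0_add_ord` (for
`D + n • A` and `D + n • A - dlt ν`). -/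
theorem exists_move (g : Geo L) (ν : DVal L) : ∃ g' : Geo L, g'.prm = g.prm ∧ g'.pts = g.pts ∧
    g'.A ν = 0 ∧ ∃ f : L, f ≠ 0 ∧ g'.A = g.A + fun μ => μ.ord f := by
  obtain ⟨t, ht⟩ := ν.exists_ord_one
  have ht0 : t ≠ 0 := by
    rintro rfl
    rw [ν.ord_zero] at ht
    exact absurd ht (by norm_num)
  set f : L := t ^ (-g.A ν) with hfdef
  have hf : f ≠ 0 := zpow_ne_zero _ ht0
  have hfν : ν.ord f = -g.A ν := by
    rw [hfdef, ν.ord_zpow, ht, mul_one]
  refine ⟨{ prm := g.prm
            pts := g.pts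
            dim := g.dim
            coord := g.coord
            ess := g.ess
            finDiv := g.finDiv
            centre := g.centre
            infPts := g.infPts
            finSec := g.finSec
            A := g.A + fun μ => μ.ord f
            divA := IsDiv.add' g.divA (LibKB2.isDiv_ord g.finDiv hf)
            sep := ?_
            gen := ?_
            lin := ?_ }, rfl, rfl, ?_, f, hf, rfl⟩
  · intro x hx y hy hxy
    obtain ⟨h, h1, h2⟩ := g.sep x hx y hy hxy
    exact ⟨h / f, (gen_add_ord hf).1 h1, fun h3 => h2 ((gen_add_ord hf).2 h3)⟩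
  · intro D hD
    obtain ⟨n₀, hn₀⟩ := g.gen D hD
    refine ⟨n₀, fun n hn x hx => ?_⟩
    obtain ⟨h, hh⟩ := hn₀ n hn x hx
    refine ⟨h / f ^ n, ?_⟩
    rw [g07_nsmul]
    exact (gen_add_ord (pow_ne_zero n hf)).1 hh
  · intro μ hμ D hD
    obtain ⟨a, e, n₀, hn₀⟩ := g.lin μ hμ D hD
    refine ⟨a, e, n₀, fun n hn => ?_⟩
    have h1 : D + n • (g.A + fun μ => μ.ord f) - dlt μ =
        (D + n • g.A - dlt μ) + fun μ : DVal L => μ.ord (f ^ n) := by
      rw [g07_nsmul]
      exact add_sub_right_comm _ _ _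
    rw [h1, g07_nsmul, h0_add_ord (pow_ne_zero n hf), h0_add_ord (pow_ne_zero n hf)]
    exact hn₀ n hn
  · show g.A ν + ν.ord f = 0
    rw [hfν]
    ring

end Pool.Agent.LibCUR
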