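import Pool.Agent.LibCUR.G02

set_option autoImplicit false

open Pool.Agent.LibGMM Pool.Agent.LibK Pool.Agent.LibKB

namespace Pool.Agent.LibCUR

open Pool.Agent.LibKB2 (dlt dlt_self dlt_ne resV mem_resV mem_ring_of_mem_sec finrank_resV resV_mul
  one_mem_resV isDiv_dlt isDiv_ord isDiv_zero IsDiv.add' IsDiv.neg' IsDiv.sub' IsDiv.zsmul'
  exists_compVal)
open Pool.Agent.LibLB (RLR)

variable {L : Type} [Field L] [Algebra ℂ L] {κ : Type} [Field κ] [Algebra ℂ κ]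

private theorem g09_ord_inv (ν : DVal L) {f : L} (hf : f ≠ 0) : ν.ord f⁻¹ = - ν.ord f := by
  have h1 : ν.ord (1 : L) = 0 := by
    have h2 := ν.ord_mul 1 1 one_ne_zero one_ne_zero
    rw [mul_one] at h2
    omega
  have h := ν.ord_mul f f⁻¹ hf (inv_ne_zero hf)
  rw [mul_inv_cancel₀ hf, h1] at h
  omega

private theorem g09_ord_div (ν : DVal L) {f g : L} (hf : f ≠ 0) (hg : g ≠ 0) :
    ν.ord (f / g) = ν.ord f - ν.ord g := by
  rw [div_eq_mul_inv, ν.ord_mul _ _ hf (inv_ne_zero hg), g09_ord_inv ν hg]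
  ring

/-- Two curves through a point meet there.

PROOF. Let `u = ρ f ≠ 0` (`residue_ne_zero_of_gen` for `D = dlt μ + n • g.A`, `D ν = 0`). By `h`,
`u = ρ t` with `t ∈ sec (0 + n A)` (`mem_resV`). `z = t / f`: for all `l ∈ g.prm` through `x`:
`l.ord z = l.ord t + (dlt μ + n • A) l ≥ dlt μ l ≥ 0` (`hf.2.2`; for `t = 0` trivial), so `z ∈ x`
(`g.mem_iff`); `μ.ord z ≥ 1` or `z = 0`, so `z⁻¹ ∉ x`
(for `z ≠ 0`; `z ≠ 0` since `ρ z = 1`); `ρ z = 1` (`z * f = t`, `ρ f = u = ρ t ≠ 0`; `z ∈ x ≤ ν.ring`); by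
`inv_sub_mem` (`lam = 1`) `(z - 1)⁻¹ ∈ x ≤ ν.ring` and `z - 1 ≠ 0`, but `ρ (z - 1) = 0`:
contradiction (see the end of `LibKB2.inter_pos`, Pool/Agent/LibKB2/T4.lean). -/
theorem not_resV_le (g : Geo L) {ν : DVal L} (hν : ν ∈ g.prm) (hA : g.A ν = 0)
    (ρ : ν.ring →ₐ[ℂ] κ) (hρ : ∀ x : ν.ring, ρ x = 0 ↔ ((x : L) = 0 ∨ 0 < ν.ord x))
    {μ : DVal L} (hμ : μ ∈ g.prm) (hμν : μ ≠ ν) {x : Subalgebra ℂ L} (hx : x ∈ g.pts)
    (hxν : x ≤ ν.ring) (hxμ : x ≤ μ.ring) {n : ℕ} {f : L}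
    (hf : Gen g.prm x (dlt μ + n • g.A) f) :
    ¬ resV g.prm ρ (dlt μ + n • g.A) ≤ resV g.prm ρ (0 + n • g.A) := by
  intro hle
  have hdlt : ∀ l : DVal L, 0 ≤ dlt μ l := by
    intro l
    unfold dlt
    split_ifs <;> omega
  have hDν : (dlt μ + n • g.A) ν = 0 := by
    rw [Pi.add_apply, Pi.smul_apply, hA, smul_zero, add_zero, dlt_ne hμν.symm]
  obtain ⟨hfr, hρf, hmem⟩ := residue_ne_zero_of_gen g hν ρ hρ hDν hxν hf
  obtain ⟨hf1, hf0, hf2⟩ := hf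
  obtain ⟨⟨t, htr⟩, ht, hty⟩ := mem_resV.1 (hle hmem)
  have ht0 : t ≠ 0 := by
    rintro rfl
    apply hρf
    rw [← hty]
    have h1 : (⟨0, htr⟩ : ν.ring) = 0 := rfl
    rw [h1, map_zero]
  have hz0 : t / f ≠ 0 := div_ne_zero ht0 hf0
  have hzord : ∀ l ∈ g.prm, x ≤ l.ring →
      l.ord (t / f) = dlt μ l + (l.ord t + (0 + n • g.A) l) := by
    intro l hl hxl
    rw [g09_ord_div l ht0 hf0]
    have h1 := hf2 l hl hxl
    rw [Pi.add_apply] at h1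
    rw [zero_add]
    linarith
  have htsec : ∀ l ∈ g.prm, 0 ≤ l.ord t + (0 + n • g.A) l := fun l hl => ht l hl ht0
  have hzx : t / f ∈ x := by
    rw [g.mem_iff hx]
    intro l hl hxl
    rw [hzord l hl hxl]
    exact add_nonneg (hdlt l) (htsec l hl)
  have hzx' : (t / f)⁻¹ ∉ x := by
    intro h1
    have h2 : 0 ≤ μ.ord (t / f)⁻¹ := hxμ h1
    rw [g09_ord_inv μ hz0, hzord μ hμ hxμ, dlt_self] at h2
    have h3 := htsec μ hμ
    omega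
  obtain ⟨a, b, hab⟩ := g.coord x hx
  obtain ⟨h5, h6⟩ := inv_sub_mem hab hzx hzx' (one_ne_zero (α := ℂ))
  have h7 : 0 ≤ ν.ord (t / f - algebraMap ℂ L 1)⁻¹ := hxν h5
  rw [g09_ord_inv ν h6] at h7
  have hzr : t / f ∈ ν.ring := hxν hzx
  have h9 : ρ ⟨t / f, hzr⟩ * ρ ⟨f, hfr⟩ = ρ ⟨f, hfr⟩ := by
    conv_rhs => rw [← hty]
    rw [← map_mul]
    congr 1
    exact Subtype.ext (div_mul_cancel₀ _ hf0)
  have h10 : ρ ⟨t / f, hzr⟩ = 1 := by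
    have h11 : (ρ ⟨t / f, hzr⟩ - 1) * ρ ⟨f, hfr⟩ = 0 := by
      rw [sub_mul, h9, one_mul, sub_self]
    have h12 := (mul_eq_zero.1 h11).resolve_right hρf
    exact sub_eq_zero.1 h12
  have h13 : ρ (⟨t / f, hzr⟩ - algebraMap ℂ ν.ring 1) = 0 := by
    rw [map_sub, AlgHom.commutes, h10, map_one, sub_self]
  rcases (hρ _).1 h13 with h11 | h11
  · exact h6 h11
  · change 0 < ν.ord (t / f - algebraMap ℂ L 1) at h11
    omega

end Pool.Agent.LibCUR
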