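import Pool.Agent.LibCUR.G05b
import Pool.Agent.LibCUR.G09
import Pool.Agent.LibCUR.G06

set_option autoImplicit false

open Pool.Agent.LibGMM Pool.Agent.LibK Pool.Agent.LibKB

namespace Pool.Agent.LibCUR

open Pool.Agent.LibKB2 (dlt dlt_self dlt_ne resV mem_resV mem_ring_of_mem_sec finrank_resV resV_mul
  one_mem_resV isDiv_dlt isDiv_ord isDiv_zero IsDiv.add' IsDiv.neg' IsDiv.sub' IsDiv.zsmul'
  exists_compVal)

variable {L : Type} [Field L] [Algebra ℂ L]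

/-- PROOF. `κ, ρ` from `ν.exists_residue`, `X` from `exists_curveSys`, `Γ` from `exists_trivs`,
`curve_theorem Γ (not_indep_residue g ρ ..)`; `e D = X.e ⟨D, _⟩` for `D ∈ gnu g ν` (and `0`
otherwise; use `Classical`/`dif_pos`), `a = X.a`; `finrank (resV D) = h0 D - h0 (D - dlt ν)`
(`finrank_resV`; `V D ≠ ⊥` iff `h0 (D - dlt ν) < h0 D`). Last two claims, `μ ≠ ν`: `dlt μ ∈ gnu`;
`1 ∈ sec (dlt μ)`, so `1 ∈ V (dlt μ) ≠ ⊥` and `e 0 ≤ e (dlt μ)`. Suppose `e (dlt μ) = e 0` and `x` is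
a point on `ν` and `μ`. For large `n`: `V (0 + n A) ≤ V (dlt μ + n A)` (multiplication with `1`) have
the same finite dimension, so are equal: contradicts `not_resV_le` (G09.lean; `f` from `g.gen`). -/
theorem geo_curve₀ (g : Geo L) {ν : DVal L} (hν : ν ∈ g.prm) (hA : g.A ν = 0) :
    ∃ (a : ℤ) (e : (DVal L → ℤ) → ℤ), 0 < a ∧
      (∀ D, IsDiv g.prm D → D ν = 0 → ∃ n₀ : ℕ, ∀ n : ℕ, n₀ ≤ n →
        (h0 g.prm (D + n • g.A) : ℤ) - h0 g.prm (D + n • g.A - dlt ν) = e D + n * a) ∧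
      (∀ D E, IsDiv g.prm D → D ν = 0 → IsDiv g.prm E → E ν = 0 → e (D + E) + e 0 = e D + e E) ∧
      e 0 ≤ 1 ∧
      (∀ D, IsDiv g.prm D → D ν = 0 → h0 g.prm (D - dlt ν) < h0 g.prm D → e 0 ≤ e D) ∧
      (∀ D, IsDiv g.prm D → D ν = 0 → e 0 ≤ e D →
        (h0 g.prm D : ℤ) ≤ h0 g.prm (D - dlt ν) + (e D - e 0 + 1)) ∧
      (∃ c₀ : ℤ, ∀ D, IsDiv g.prm D → D ν = 0 → c₀ ≤ e D →
        (h0 g.prm D : ℤ) ≤ h0 g.prm (D - dlt ν) + e D) ∧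
      (∀ μ ∈ g.prm, μ ≠ ν → e 0 ≤ e (dlt μ)) ∧
      ∀ μ ∈ g.prm, μ ≠ ν → ∀ x ∈ g.pts, x ≤ ν.ring → x ≤ μ.ring → e 0 + 1 ≤ e (dlt μ) := by
  classical
  obtain ⟨κ, _, _, ρ, hρs, hρ⟩ := ν.exists_residue
  obtain ⟨X, hX, hXA⟩ := exists_curveSys g hν hA ρ hρ
  obtain ⟨Γ⟩ := exists_trivs g hν ρ hρs hρ X hX hXA
  obtain ⟨c1, c2, c3, c4, c₀, c5⟩ := curve_theorem Γ (not_indep_residue g ρ hρs hρ)
  obtain ⟨e, he⟩ : ∃ e : (DVal L → ℤ) → ℤ, ∀ D (h : IsDiv g.prm D ∧ D ν = 0), e D = X.e ⟨D, h⟩ :=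
    ⟨fun D => if h : IsDiv g.prm D ∧ D ν = 0 then X.e ⟨D, h⟩ else 0, fun D h => dif_pos h⟩
  have he0 : e 0 = X.e 0 := he 0 ⟨isDiv_zero _, rfl⟩
  have hfr : ∀ D : gnu g ν, (Module.finrank ℂ (X.V D) : ℤ) =
      (h0 g.prm (D : DVal L → ℤ) : ℤ) - h0 g.prm ((D : DVal L → ℤ) - dlt ν) := by
    intro D
    have := g.finSec (D : DVal L → ℤ) D.2.1
    rw [hX]
    exact (finrank_resV hν hρ D.2.2).2
  have hcoe : ∀ (D : gnu g ν) (n : ℕ), ((D + n • X.A : gnu g ν) : DVal L → ℤ) =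
      (D : DVal L → ℤ) + n • g.A := by
    intro D n
    rw [coe_add_nsmul, hXA]
  have hone : ∀ μ ∈ g.prm, μ ≠ ν → ∀ hD : IsDiv g.prm (dlt μ) ∧ dlt μ ν = 0,
      (1 : κ) ∈ X.V ⟨dlt μ, hD⟩ := by
    intro μ _ _ hD
    rw [hX, mem_resV]
    refine ⟨1, ?_, map_one ρ⟩
    intro l _ _
    show 0 ≤ l.ord (1 : L) + dlt μ l
    have h1 := l.ord_const 1
    rw [map_one] at h1
    rw [h1, zero_add]
    by_cases hl : l = μ
    · rw [hl, dlt_self]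
      exact zero_le_one
    · rw [dlt_ne hl]
  have hmu : ∀ μ ∈ g.prm, μ ≠ ν → IsDiv g.prm (dlt μ) ∧ dlt μ ν = 0 := fun μ _ hμν =>
    ⟨isDiv_dlt _ _, dlt_ne hμν.symm⟩
  have hge : ∀ μ ∈ g.prm, μ ≠ ν → e 0 ≤ e (dlt μ) := by
    intro μ hμ hμν
    rw [he0, he _ (hmu μ hμ hμν)]
    apply c3
    intro hbot
    have h1 := hone μ hμ hμν (hmu μ hμ hμν)
    rw [hbot, Submodule.mem_bot] at h1
    exact one_ne_zero h1
  refine ⟨X.a, e, X.apos, ?_, ?_, ?_, ?_, ?_, ?_, hge, ?_⟩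
  · intro D hD hDν
    obtain ⟨n₀, hn⟩ := X.asym ⟨D, hD, hDν⟩
    refine ⟨n₀, fun n hn' => ?_⟩
    have h1 := hn n hn'
    rw [hfr, hcoe] at h1
    rw [he D ⟨hD, hDν⟩]
    exact h1
  · intro D E hD hDν hE hEν
    have h1 := c1 ⟨D, hD, hDν⟩ ⟨E, hE, hEν⟩
    have hDE : IsDiv g.prm (D + E) ∧ (D + E) ν = 0 :=
      ⟨IsDiv.add' hD hE, by rw [Pi.add_apply, hDν, hEν, add_zero]⟩
    rw [he0, he D ⟨hD, hDν⟩, he E ⟨hE, hEν⟩, he (D + E) hDE]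
    exact h1
  · rw [he0]
    exact c2
  · intro D hD hDν hlt
    rw [he0, he D ⟨hD, hDν⟩]
    apply c3
    intro hbot
    have h1 := hfr ⟨D, hD, hDν⟩
    rw [hbot, finrank_bot] at h1
    have h2 : (h0 g.prm (D - dlt ν) : ℤ) < h0 g.prm D := by exact_mod_cast hlt
    have h3 : ((0 : ℕ) : ℤ) = (h0 g.prm D : ℤ) - h0 g.prm (D - dlt ν) := h1
    push_cast at h3
    omega
  · intro D hD hDν hle
    rw [he0, he D ⟨hD, hDν⟩] at hle ⊢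
    have h1 := c4 _ hle
    rw [hfr] at h1
    have h2 : (h0 g.prm D : ℤ) - h0 g.prm (D - dlt ν) ≤ X.e ⟨D, hD, hDν⟩ - X.e 0 + 1 := h1
    linarith
  · refine ⟨c₀, fun D hD hDν hle => ?_⟩
    rw [he D ⟨hD, hDν⟩] at hle ⊢
    have h1 := c5 _ hle
    rw [hfr] at h1
    have h2 : (h0 g.prm D : ℤ) - h0 g.prm (D - dlt ν) ≤ X.e ⟨D, hD, hDν⟩ := h1
    linarith
  · intro μ hμ hμν x hx hxν hxμ
    by_contra hcon
    have heq : e (dlt μ) = e 0 := le_antisymm (by omega) (hge μ hμ hμν)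
    rw [he0, he _ (hmu μ hμ hμν)] at heq
    obtain ⟨n₁, h1⟩ := X.asym 0
    obtain ⟨n₂, h2⟩ := X.asym ⟨dlt μ, hmu μ hμ hμν⟩
    obtain ⟨n₃, h3⟩ := g.gen (dlt μ) (isDiv_dlt _ _)
    obtain ⟨n, hn⟩ : ∃ n : ℕ, n = n₁ + n₂ + n₃ := ⟨_, rfl⟩
    have h4 := h1 n (by omega)
    have h5 := h2 n (by omega)
    obtain ⟨f, hf⟩ := h3 n (by omega) x hx
    have hle : X.V (0 + n • X.A) ≤ X.V (⟨dlt μ, hmu μ hμ hμν⟩ + n • X.A) := by
      intro y hy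
      have h6 := X.mul _ _ _ _ (hone μ hμ hμν (hmu μ hμ hμν)) hy
      rw [one_mul, zero_add] at h6
      exact h6
    have hfin : Module.finrank ℂ (X.V (0 + n • X.A)) =
        Module.finrank ℂ (X.V (⟨dlt μ, hmu μ hμ hμν⟩ + n • X.A)) := by
      have h6 : (Module.finrank ℂ (X.V (0 + n • X.A)) : ℤ) =
          Module.finrank ℂ (X.V (⟨dlt μ, hmu μ hμ hμν⟩ + n • X.A)) := by
        rw [h4, h5, heq]
      exact_mod_cast h6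
    have hVV := Submodule.eq_of_le_of_finrank_eq hle hfin
    refine not_resV_le g hν hA ρ hρ hμ hμν hx hxν hxμ hf ?_
    have h7 : resV g.prm ρ (dlt μ + n • g.A) = X.V (⟨dlt μ, hmu μ hμ hμν⟩ + n • X.A) := by
      rw [hX, hcoe]
    have h8 : resV g.prm ρ (0 + n • g.A) = X.V (0 + n • X.A) := by
      rw [hX, hcoe]
      rfl
    rw [h7, h8, hVV]

end Pool.Agent.LibCUR
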