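import Pool.Agent.LibCUR.G07
import Pool.Agent.LibCUR.G08a

set_option autoImplicit false

open Pool.Agent.LibGMM Pool.Agent.LibK Pool.Agent.LibKB

namespace Pool.Agent.LibCUR

open Pool.Agent.LibKB2 (dlt dlt_self dlt_ne resV mem_resV mem_ring_of_mem_sec finrank_resV resV_mul
  one_mem_resV isDiv_dlt isDiv_ord isDiv_zero IsDiv.add' IsDiv.neg' IsDiv.sub' IsDiv.zsmul'
  exists_compVal)

variable {L : Type} [Field L] [Algebra ℂ L]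

/-- **The facts on a curve.**

PROOF. `g'`, `f` from `exists_move g ν`; `a, e₀` from `geo_curve₀ g'`. `t` with `ν.ord t = 1`; for a
divisor `D` let `m D = D + div (t ^ (- D ν))` (`(m D) ν = 0`, `m` is additive, `m 0 = 0`,
`m (dlt μ) = dlt μ` for `μ ≠ ν` since `dlt μ ν = 0`), and `e D = e₀ (m D)`. `h0 (m D) = h0 D`,
`h0 (m D - dlt ν) = h0 (D - dlt ν)` (`h0_add_ord`), and
`m D + n • g'.A = (D + n • g.A) + div (t ^ (- D ν) * f ^ n)`. -/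
theorem geo_curve (g : Geo L) {ν : DVal L} (hν : ν ∈ g.prm) :
    ∃ (a : ℤ) (e : (DVal L → ℤ) → ℤ), 0 < a ∧
      (∀ D, IsDiv g.prm D → ∃ n₀ : ℕ, ∀ n : ℕ, n₀ ≤ n →
        (h0 g.prm (D + n • g.A) : ℤ) - h0 g.prm (D + n • g.A - dlt ν) = e D + n * a) ∧
      (∀ D E, IsDiv g.prm D → IsDiv g.prm E → e (D + E) + e 0 = e D + e E) ∧
      e 0 ≤ 1 ∧
      (∀ D, IsDiv g.prm D → h0 g.prm (D - dlt ν) < h0 g.prm D → e 0 ≤ e D) ∧
      (∀ D, IsDiv g.prm D → e 0 ≤ e D →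
        (h0 g.prm D : ℤ) ≤ h0 g.prm (D - dlt ν) + (e D - e 0 + 1)) ∧
      (∃ c₀ : ℤ, ∀ D, IsDiv g.prm D → c₀ ≤ e D →
        (h0 g.prm D : ℤ) ≤ h0 g.prm (D - dlt ν) + e D) ∧
      (∀ μ ∈ g.prm, μ ≠ ν → e 0 ≤ e (dlt μ)) ∧
      ∀ μ ∈ g.prm, μ ≠ ν → ∀ x ∈ g.pts, x ≤ ν.ring → x ≤ μ.ring → e 0 + 1 ≤ e (dlt μ) := by
  obtain ⟨g', hprm, hpts, hA, f, hf, hgA⟩ := exists_move g ν
  obtain ⟨a, e₀, ha, c1, c2, c3, c4, c5, ⟨c₀, c6⟩, c7, c8⟩ :=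
    geo_curve₀ g' (by rw [hprm]; exact hν) hA
  rw [hprm] at c1 c2 c4 c5 c6 c7 c8
  rw [hpts] at c8
  rw [hgA] at c1
  obtain ⟨t, ht⟩ := ν.exists_ord_one
  have ht0 : t ≠ 0 := by
    rintro rfl
    rw [ν.ord_zero] at ht
    exact absurd ht (by norm_num)
  have htz : ∀ k : ℤ, t ^ k ≠ 0 := fun k => zpow_ne_zero k ht0
  let m : (DVal L → ℤ) → (DVal L → ℤ) := fun D => D + fun μ => μ.ord (t ^ (-D ν))
  have mdef : ∀ D, m D = D + fun μ => μ.ord (t ^ (-D ν)) := fun D => rfl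
  have mdiv : ∀ D, IsDiv g.prm D → IsDiv g.prm (m D) := fun D hD =>
    IsDiv.add' hD (LibKB2.isDiv_ord g.finDiv (htz _))
  have mν : ∀ D, (m D) ν = 0 := by
    intro D
    show D ν + ν.ord (t ^ (-D ν)) = 0
    rw [ν.ord_zpow, ht]
    ring
  have madd : ∀ D E, m (D + E) = m D + m E := by
    intro D E
    funext μ
    show D μ + E μ + μ.ord (t ^ (-(D ν + E ν))) =
      D μ + μ.ord (t ^ (-D ν)) + (E μ + μ.ord (t ^ (-E ν)))
    rw [μ.ord_zpow, μ.ord_zpow, μ.ord_zpow]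
    ring
  have m0 : m 0 = 0 := by
    funext μ
    show (0 : ℤ) + μ.ord (t ^ (-(0 : ℤ))) = 0
    rw [μ.ord_zpow]
    ring
  have mdlt : ∀ μ, μ ≠ ν → m (dlt μ) = dlt μ := by
    intro μ hμ
    funext μ'
    show dlt μ μ' + μ'.ord (t ^ (-(dlt μ ν))) = dlt μ μ'
    rw [dlt_ne (Ne.symm hμ), μ'.ord_zpow]
    ring
  have mh : ∀ D, h0 g.prm (m D) = h0 g.prm D := fun D => h0_add_ord (htz _)
  have mh' : ∀ D, h0 g.prm (m D - dlt ν) = h0 g.prm (D - dlt ν) := by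
    intro D
    have h1 : m D - dlt ν = (D - dlt ν) + fun μ => μ.ord (t ^ (-D ν)) :=
      add_sub_right_comm _ _ _
    rw [h1]
    exact h0_add_ord (htz _)
  refine ⟨a, fun D => e₀ (m D), ha, ?_, ?_, ?_, ?_, ?_, ⟨c₀, ?_⟩, ?_, ?_⟩
  · intro D hD
    obtain ⟨n₀, hn₀⟩ := c1 (m D) (mdiv D hD) (mν D)
    refine ⟨n₀, fun n hn => ?_⟩
    have h1 := hn₀ n hn
    have hne : t ^ (-D ν) * f ^ n ≠ 0 := mul_ne_zero (htz _) (pow_ne_zero n hf)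
    have h2 : m D + n • (g.A + fun μ => μ.ord f) =
        (D + n • g.A) + fun μ : DVal L => μ.ord (t ^ (-D ν) * f ^ n) := by
      funext μ
      show D μ + μ.ord (t ^ (-D ν)) + n • (g.A μ + μ.ord f) =
        D μ + n • g.A μ + μ.ord (t ^ (-D ν) * f ^ n)
      rw [μ.ord_mul _ _ (htz _) (pow_ne_zero n hf), μ.ord_pow, nsmul_eq_mul, nsmul_eq_mul]
      ring
    have h3 : (D + n • g.A) + (fun μ : DVal L => μ.ord (t ^ (-D ν) * f ^ n)) - dlt ν =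
        (D + n • g.A - dlt ν) + fun μ : DVal L => μ.ord (t ^ (-D ν) * f ^ n) :=
      add_sub_right_comm _ _ _
    rw [h2, h3, h0_add_ord hne, h0_add_ord hne] at h1
    exact h1
  · intro D E hD hE
    show e₀ (m (D + E)) + e₀ (m 0) = e₀ (m D) + e₀ (m E)
    rw [madd, m0]
    exact c2 (m D) (m E) (mdiv D hD) (mν D) (mdiv E hE) (mν E)
  · show e₀ (m 0) ≤ 1
    rw [m0]
    exact c3
  · intro D hD h
    show e₀ (m 0) ≤ e₀ (m D)
    rw [m0]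
    apply c4 (m D) (mdiv D hD) (mν D)
    rw [mh, mh']
    exact h
  · intro D hD h
    have h' : e₀ (m 0) ≤ e₀ (m D) := h
    show (h0 g.prm D : ℤ) ≤ h0 g.prm (D - dlt ν) + (e₀ (m D) - e₀ (m 0) + 1)
    rw [m0] at h' ⊢
    have h1 := c5 (m D) (mdiv D hD) (mν D) h'
    rw [mh, mh'] at h1
    exact h1
  · intro D hD h
    have h1 := c6 (m D) (mdiv D hD) (mν D) h
    rw [mh, mh'] at h1
    exact h1
  · intro μ hμ hne
    show e₀ (m 0) ≤ e₀ (m (dlt μ))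
    rw [m0, mdlt μ hne]
    exact c7 μ hμ hne
  · intro μ hμ hne x hx h1 h2
    show e₀ (m 0) + 1 ≤ e₀ (m (dlt μ))
    rw [m0, mdlt μ hne]
    exact c8 μ hμ hne x hx h1 h2

end Pool.Agent.LibCUR
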