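import Pool.Agent.LibCUR.E05
import Pool.Agent.LibKB2.B02
import Pool.Agent.LibKB2.B06
import Pool.Agent.LibLB.Loc

/-!
THEOREM K+, block CUR: the geometric data of a smooth projective surface which are used to study its
curves.
-/

set_option autoImplicit false

open Pool.Agent.LibGMM Pool.Agent.LibK Pool.Agent.LibKB

namespace Pool.Agent.LibCUR

open Pool.Agent.LibKB2 (dlt dlt_self dlt_ne resV mem_resV mem_ring_of_mem_sec finrank_resV resV_mul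
  one_mem_resV isDiv_dlt isDiv_ord isDiv_zero IsDiv.add' IsDiv.neg' IsDiv.sub' IsDiv.zsmul'
  exists_compVal)
open Pool.Agent.LibLB (RLR)

/-- A smooth projective surface with a very ample divisor `A`. For every prime divisor `ν` and every
divisor `D` the number `h⁰(D + n A) - h⁰(D + n A - ν)` is a polynomial of degree at most one in `n`,
for large `n`. -/
structure Geo (L : Type) [Field L] [Algebra ℂ L] where
  prm : Set (DVal L)
  pts : Set (Subalgebra ℂ L)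
  dim : Algebra.trdeg ℂ L = 2
  coord : ∀ x ∈ pts, ∃ a b, RLR x a b
  ess : ∀ x ∈ pts, ∀ ν, ν ∈ Ess x ↔ ν ∈ prm ∧ x ≤ ν.ring
  finDiv : FinDiv prm
  centre : ∀ V : ValuationSubring L, (∀ c : ℂ, algebraMap ℂ L c ∈ V) → V ≠ ⊤ →
    (∃ x ∈ pts, VDom x V) ∨ ∃ ν ∈ prm, ∀ f, f ∈ V ↔ 0 ≤ ν.ord f
  infPts : ∀ ν ∈ prm, {x | x ∈ pts ∧ x ≤ ν.ring}.Infinite
  finSec : ∀ D, IsDiv prm D → Module.Finite ℂ (sec prm D)
  A : DVal L → ℤ
  divA : IsDiv prm A
  sep : ∀ x ∈ pts, ∀ y ∈ pts, x ≠ y → ∃ f, Gen prm y A f ∧ ¬ Gen prm x A f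
  gen : ∀ D, IsDiv prm D → ∃ n₀ : ℕ, ∀ n : ℕ, n₀ ≤ n → ∀ x ∈ pts, ∃ f, Gen prm x (D + n • A) f
  lin : ∀ ν ∈ prm, ∀ D, IsDiv prm D → ∃ (a e : ℤ) (n₀ : ℕ), ∀ n : ℕ, n₀ ≤ n →
    (h0 prm (D + n • A) : ℤ) - h0 prm (D + n • A - dlt ν) = e + n * a

namespace Geo

variable {L : Type} [Field L] [Algebra ℂ L] (g : Geo L)

/-! ### Local rings -/

theorem mem_iff {x : Subalgebra ℂ L} (hx : x ∈ g.pts) (f : L) :
    f ∈ x ↔ ∀ ν ∈ g.prm, x ≤ ν.ring → 0 ≤ ν.ord f := by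
  obtain ⟨a, b, hab⟩ := g.coord x hx
  rw [hab.mem_iff]
  constructor
  · intro h ν hν hxν
    exact h ν ((g.ess x hx ν).2 ⟨hν, hxν⟩)
  · intro h ν hν
    obtain ⟨h1, h2⟩ := (g.ess x hx ν).1 hν
    exact h ν h1 h2

theorem exists_loc {x : Subalgebra ℂ L} (hx : x ∈ g.pts) {D : DVal L → ℤ} (hD : IsDiv g.prm D) :
    ∃ h, LocEqn g.prm x D h := by
  obtain ⟨a, b, hab⟩ := g.coord x hx
  obtain ⟨h, h1, h2⟩ := hab.factorial D (hD.subset fun ν hν => ⟨((g.ess x hx ν).1 hν.1).1, hν.2⟩)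
  exact ⟨h, h1, fun ν hν hxν => h2 ν ((g.ess x hx ν).2 ⟨hν, hxν⟩)⟩

end Geo

section

variable {L : Type} [Field L] [Algebra ℂ L]

/-- Nonunits plus nonzero constants are units. -/
theorem inv_sub_mem {x : Subalgebra ℂ L} {a b : L} (h : RLR x a b) {z : L} (hz : z ∈ x)
    (hz' : z⁻¹ ∉ x) {lam : ℂ} (hl : lam ≠ 0) :
    (z - algebraMap ℂ L lam)⁻¹ ∈ x ∧ z - algebraMap ℂ L lam ≠ 0 := by
  obtain ⟨p, hp, q, hq, h1⟩ := (h.unit z hz).resolve_left hz'
  have hcon : ∀ p' ∈ x, ∀ q' ∈ x, z - algebraMap ℂ L lam ≠ a * p' + b * q' := by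
    intro p' hp' q' hq' h2
    have h3 : algebraMap ℂ L lam ≠ 0 := by
      rw [Ne, FaithfulSMul.algebraMap_eq_zero_iff]
      exact hl
    have h4 : algebraMap ℂ L lam⁻¹ ∈ x := x.algebraMap_mem _
    refine h.nonunit _ (x.mul_mem h4 (x.sub_mem hp hp')) _ (x.mul_mem h4 (x.sub_mem hq hq')) ?_
    have h5 : a * (p - p') + b * (q - q') = algebraMap ℂ L lam := by
      linear_combination h2 - h1
    have h6 : algebraMap ℂ L lam⁻¹ * algebraMap ℂ L lam = 1 := by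
      rw [← map_mul, inv_mul_cancel₀ hl, map_one]
    linear_combination algebraMap ℂ L lam⁻¹ * h5 + h6
  constructor
  · rcases h.unit _ (x.sub_mem hz (x.algebraMap_mem lam)) with h2 | ⟨p', hp', q', hq', h2⟩
    · exact h2
    · exact absurd h2 (hcon p' hp' q' hq')
  · intro h2
    apply hz'
    have h3 : z = algebraMap ℂ L lam := by linear_combination h2
    rw [h3, ← map_inv₀]
    exact x.algebraMap_mem _

end

end Pool.Agent.LibCUR
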