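import Pool.Agent.LibCUR.Q01

set_option autoImplicit false

open Pool.Agent.LibGMM Pool.Agent.LibK Pool.Agent.LibKB

namespace Pool.Agent.LibCUR

open Pool.Agent.LibKB2 (dlt dlt_self dlt_ne isDiv_dlt isDiv_ord isDiv_zero IsDiv.add' IsDiv.neg'
  IsDiv.sub' IsDiv.zsmul')
open Pool.Agent.LibLB (RLR PSurf)

variable {L : Type} [Field L] [Algebra ℂ L]

/-- Induction on divisors.

PROOF. Induction on the size `∑ ν, |D ν|` over the finite support of `D` on `P`, or: first for
functions `m • dlt ν` added (`ℤ` induction), then induction on the finite support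
(`Set.Finite.induction_on` or `Finset.induction_on` for `D = ∑ ν ∈ s, D ν • dlt ν` on `P`). -/
theorem isDiv_induction {P : Set (DVal L)} {M : (DVal L → ℤ) → Prop}
    (congr : ∀ D D', (∀ ν ∈ P, D ν = D' ν) → M D → M D') (zero : M 0)
    (add : ∀ ν ∈ P, ∀ D, IsDiv P D → M D → M (D + dlt ν))
    (sub : ∀ ν ∈ P, ∀ D, IsDiv P D → M D → M (D - dlt ν)) :
    ∀ D, IsDiv P D → M D := by
  classical
  have key : ∀ s : Finset (DVal L), (∀ ν ∈ s, ν ∈ P) → ∀ D : DVal L → ℤ,
      (∀ ν ∈ P, D ν ≠ 0 → ν ∈ s) → M D := by
    intro s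
    induction s using Finset.induction_on with
    | empty =>
      intro _ D hD
      refine congr 0 D (fun ν hν => ?_) zero
      by_contra h
      exact absurd (hD ν hν (fun h' => h h'.symm)) (Finset.notMem_empty ν)
    | insert ν s hνs ih =>
      intro hs D hD
      have hν : ν ∈ P := hs ν (Finset.mem_insert_self ν s)
      have hsP : ∀ μ ∈ s, μ ∈ P := fun μ hμ => hs μ (Finset.mem_insert_of_mem hμ)
      set D' : DVal L → ℤ := D - D ν • dlt ν with hD'
      have hD'ne : ∀ μ, μ ≠ ν → D' μ = D μ := by
        intro μ hμ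
        show D μ - D ν * dlt ν μ = D μ
        rw [dlt_ne hμ]
        ring
      have hD'ν : D' ν = 0 := by
        show D ν - D ν * dlt ν ν = 0
        rw [dlt_self]
        ring
      have hsupp : ∀ μ ∈ P, D' μ ≠ 0 → μ ∈ s := by
        intro μ hμ hne
        have hμν : μ ≠ ν := by
          rintro rfl
          exact hne hD'ν
        rw [hD'ne μ hμν] at hne
        rcases Finset.mem_insert.1 (hD μ hμ hne) with h | h
        · exact absurd h hμν
        · exact h
      have hMD' : M D' := ih hsP D' hsupp
      have hdiv' : IsDiv P D' := by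
        refine (s.finite_toSet).subset ?_
        rintro μ ⟨h1, h2⟩
        exact hsupp μ h1 h2
      have hdiv : ∀ k : ℤ, IsDiv P (D' + k • dlt ν) := fun k =>
        IsDiv.add' hdiv' (IsDiv.zsmul' (isDiv_dlt P ν) k)
      have hall : ∀ k : ℤ, M (D' + k • dlt ν) := by
        intro k
        induction k using Int.induction_on with
        | zero =>
          rw [zero_smul, add_zero]
          exact hMD'
        | succ k ihk =>
          have h1 := add ν hν _ (hdiv k) ihk
          have h2 : D' + (k : ℤ) • dlt ν + dlt ν = D' + ((k : ℤ) + 1) • dlt ν := by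
            rw [add_smul, one_smul, add_assoc]
          rw [h2] at h1
          exact h1
        | pred k ihk =>
          have h1 := sub ν hν _ (hdiv (-(k : ℤ))) ihk
          have h2 : D' + (-(k : ℤ)) • dlt ν - dlt ν = D' + (-(k : ℤ) - 1) • dlt ν := by
            rw [sub_smul, one_smul, add_sub_assoc]
          rw [h2] at h1
          exact h1
      have h3 := hall (D ν)
      have h4 : D' + D ν • dlt ν = D := by
        rw [hD', sub_add_cancel]
      rw [h4] at h3
      exact h3
  intro D hD
  have hfin : {ν | ν ∈ P ∧ D ν ≠ 0}.Finite := hD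
  refine key hfin.toFinset (fun ν hν => ((Set.Finite.mem_toFinset hfin).1 hν).1) D
    (fun ν hν hne => (Set.Finite.mem_toFinset hfin).2 ⟨hν, hne⟩)

namespace BaseData

variable (B : BaseData L)

private theorem q02a_congr {D D' : DVal L → ℤ} (hD : IsDiv B.prm D)
    (h : ∀ ν ∈ B.prm, D ν = D' ν) : B.chi D' = B.chi D := by
  refine (B.chi_lin hD one_ne_zero (fun ν hν => ?_)).1
  rw [LibKB.ord_one, add_zero]
  exact (h ν hν).symm

/-- **The theorem of the cube.**

PROOF. `isDiv_induction` on `E`. `congr`: `B.chi_lin` with `f = 1` (`ν.ord 1 = 0`). `add`: with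
`e X = χ X - χ (X - dlt ν)`, `e (X + Y) + e 0 = e X + e Y` (`exists_deg`), the difference of the
claims for `E + dlt ν` and `E` is
`e (D + D' + E + dlt ν) + e (E + dlt ν) = e (D + E + dlt ν) + e (D' + E + dlt ν)`; both sides plus
`e 0` equal `e` of the same sum (`D + D' + E + dlt ν + (E + dlt ν)`). `sub`: the same with
`e (X)` at `X = .. + E`. -/
theorem cube {E : DVal L → ℤ} (hE : IsDiv B.prm E) : ∀ D D', IsDiv B.prm D → IsDiv B.prm D' →
    B.chi (D + D' + E) + B.chi D + B.chi D' + B.chi E =
      B.chi (D + D') + B.chi (D + E) + B.chi (D' + E) + B.chi 0 := by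
  have key : ∀ E, IsDiv B.prm E → (IsDiv B.prm E → ∀ D D', IsDiv B.prm D → IsDiv B.prm D' →
      B.chi (D + D' + E) + B.chi D + B.chi D' + B.chi E =
      B.chi (D + D') + B.chi (D + E) + B.chi (D' + E) + B.chi 0) := by
    apply isDiv_induction
    · intro E E' hcon hM hE' D D' hD hD'
      have hE : IsDiv B.prm E := by
        refine Set.Finite.subset hE' ?_
        rintro ν ⟨h1, h2⟩
        exact ⟨h1, by rw [← hcon ν h1]; exact h2⟩
      have h0 := hM hE D D' hD hD'
      have h1 : B.chi (D + D' + E') = B.chi (D + D' + E) :=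
        B.q02a_congr (IsDiv.add' (IsDiv.add' hD hD') hE) (fun ν hν => by
          show D ν + D' ν + E ν = D ν + D' ν + E' ν
          rw [hcon ν hν])
      have h2 : B.chi E' = B.chi E := B.q02a_congr hE hcon
      have h3 : B.chi (D + E') = B.chi (D + E) :=
        B.q02a_congr (IsDiv.add' hD hE) (fun ν hν => by
          show D ν + E ν = D ν + E' ν
          rw [hcon ν hν])
      have h4 : B.chi (D' + E') = B.chi (D' + E) :=
        B.q02a_congr (IsDiv.add' hD' hE) (fun ν hν => by
          show D' ν + E ν = D' ν + E' ν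
          rw [hcon ν hν])
      rw [h1, h2, h3, h4]
      exact h0
    · intro _ D D' _ _
      rw [add_zero, add_zero, add_zero]
    · intro ν hν E hE hM _ D D' hD hD'
      have h0 := hM hE D D' hD hD'
      obtain ⟨a, -, -, hdeg⟩ := B.exists_deg hν
      have hEδ : IsDiv B.prm (E + dlt ν) := IsDiv.add' hE (isDiv_dlt _ ν)
      have r1 := hdeg (D + (E + dlt ν)) (D' + (E + dlt ν)) (IsDiv.add' hD hEδ) (IsDiv.add' hD' hEδ)
      have r2 := hdeg (D + D' + (E + dlt ν)) (E + dlt ν) (IsDiv.add' (IsDiv.add' hD hD') hEδ) hEδ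
      have e1 : D + (E + dlt ν) + (D' + (E + dlt ν)) = D + D' + (E + dlt ν) + (E + dlt ν) := by abel
      have e2 : D + (E + dlt ν) - dlt ν = D + E := by abel
      have e3 : D' + (E + dlt ν) - dlt ν = D' + E := by abel
      have e4 : D + D' + (E + dlt ν) - dlt ν = D + D' + E := by abel
      have e5 : E + dlt ν - dlt ν = E := by abel
      rw [e1, e2, e3] at r1
      rw [e4, e5] at r2
      linear_combination h0 + r1 - r2
    · intro ν hν E hE hM _ D D' hD hD'
      have h0 := hM hE D D' hD hD'
      obtain ⟨a, -, -, hdeg⟩ := B.exists_deg hν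
      have r1 := hdeg (D + E) (D' + E) (IsDiv.add' hD hE) (IsDiv.add' hD' hE)
      have r2 := hdeg (D + D' + E) E (IsDiv.add' (IsDiv.add' hD hD') hE) hE
      have e1 : D + E + (D' + E) = D + D' + E + E := by abel
      have e2 : D + (E - dlt ν) = D + E - dlt ν := by abel
      have e3 : D' + (E - dlt ν) = D' + E - dlt ν := by abel
      have e4 : D + D' + (E - dlt ν) = D + D' + E - dlt ν := by abel
      rw [e1] at r1
      rw [e2, e3, e4]
      linear_combination h0 - r1 + r2
  exact key E hE hE

end BaseData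

end Pool.Agent.LibCUR
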