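import Pool.Agent.LibCUR.Q02a

set_option autoImplicit false

open Pool.Agent.LibGMM Pool.Agent.LibK Pool.Agent.LibKB

namespace Pool.Agent.LibCUR

open Pool.Agent.LibKB2 (dlt dlt_self dlt_ne isDiv_dlt isDiv_ord isDiv_zero IsDiv.add' IsDiv.neg'
  IsDiv.sub' IsDiv.zsmul')
open Pool.Agent.LibLB (RLR PSurf)

variable {L : Type} [Field L] [Algebra ℂ L]

namespace BaseData

variable (B : BaseData L)

/-- The intersection number. -/
def bil (D E : DVal L → ℤ) : ℤ := B.chi (D + E) - B.chi D - B.chi E + B.chi 0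

theorem bil_comm (D E : DVal L → ℤ) : B.bil D E = B.bil E D := by
  unfold bil
  rw [add_comm D E]
  ring

/-- PROOF. `cube`. -/
theorem bil_add {D D' E : DVal L → ℤ} (hD : IsDiv B.prm D) (hD' : IsDiv B.prm D')
    (hE : IsDiv B.prm E) : B.bil (D + D') E = B.bil D E + B.bil D' E := by
  have h := B.cube hE D D' hD hD'
  unfold bil
  linear_combination h

theorem bil_zero (E : DVal L → ℤ) : B.bil 0 E = 0 := by
  unfold bil
  rw [zero_add]
  ring

theorem bil_neg {D E : DVal L → ℤ} (hD : IsDiv B.prm D) (hE : IsDiv B.prm E) :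
    B.bil (-D) E = - B.bil D E := by
  have h := B.bil_add hD (IsDiv.neg' hD) hE
  rw [add_neg_cancel, B.bil_zero] at h
  linear_combination -h

/-- PROOF. Linear equivalence does not change `χ` (`chi_lin` for `D + E` and for `D`). -/
theorem bil_lin {D D' E : DVal L → ℤ} (hD : IsDiv B.prm D) (hE : IsDiv B.prm E) {f : L}
    (hf : f ≠ 0) (h : ∀ ν ∈ B.prm, D' ν = D ν + ν.ord f) : B.bil D' E = B.bil D E := by
  have h1 := (B.chi_lin hD hf h).1
  have h2 := (B.chi_lin (D := D + E) (D' := D' + E) (IsDiv.add' hD hE) hf (by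
    intro ν hν
    rw [Pi.add_apply, Pi.add_apply, h ν hν]
    ring)).1
  unfold bil
  rw [h1, h2]

/-- **Riemann-Roch.**

PROOF. `q D = 2 χ D - 2 χ 0 - bil D D` is additive (`bil_add`, `bil_comm`, definition of
`bil D E`), so `q (-D) = - q D`. `B.dual D`: `χ (K - D) = χ D`, `B.dual 0`: `χ K = χ 0`, and
`χ (K + (-D)) = bil K (-D) + χ K + χ (-D) - χ 0 = - bil K D + χ (-D)`. So
`q D + 2 χ 0 + bil D D = 2 χ D = - 2 bil K D + 2 χ 0 + bil D D - q D`, `q D = - bil K D`. -/
theorem two_chi {D : DVal L → ℤ} (hD : IsDiv B.prm D) :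
    2 * B.chi D = 2 * B.chi 0 + B.bil D D - B.bil B.K D := by
  have h1 := B.bil_neg hD hD
  have h2 := B.bil_neg hD B.divK
  rw [B.bil_comm D B.K] at h2
  have h3 := B.dual D hD
  have h4 := B.dual 0 (isDiv_zero _)
  rw [sub_zero] at h4
  rw [sub_eq_add_neg, add_comm] at h3
  have e1 : B.bil (-D) D = B.chi (-D + D) - B.chi (-D) - B.chi D + B.chi 0 := rfl
  have e2 : B.bil (-D) B.K = B.chi (-D + B.K) - B.chi (-D) - B.chi B.K + B.chi 0 := rfl
  rw [neg_add_cancel] at e1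
  linear_combination e1 - e2 - h1 + h2 - h3 + h4

/-- PROOF. `two_chi` for `-D`: `bil D D + bil K D = 2 (χ (-D) - χ 0)`. -/
theorem parity {D : DVal L → ℤ} (hD : IsDiv B.prm D) : Even (B.bil D D + B.bil B.K D) := by
  have h := B.two_chi hD
  exact ⟨B.chi 0 + B.bil D D - B.chi D, by linear_combination h⟩

/-- PROOF. `2 bil A A = 2 χ (2 • A) - 4 χ (1 • A) + 2 χ 0` and `chi_add_nsmul` for `D = 0`,
`k = 1, 2`. -/
theorem bil_A_A : B.bil B.A B.A = B.d := by
  have h1 := (B.chi_add_nsmul (isDiv_zero B.prm) 1).1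
  have h2 := (B.chi_add_nsmul (isDiv_zero B.prm) 2).1
  rw [zero_add, one_nsmul] at h1
  rw [zero_add, two_nsmul] at h2
  push_cast at h1 h2
  have e : B.bil B.A B.A = B.chi (B.A + B.A) - B.chi B.A - B.chi B.A + B.chi 0 := rfl
  have h3 : 2 * B.bil B.A B.A = 2 * B.d := by linear_combination 2 * e + h2 - 2 * h1
  omega

/-- PROOF. `chi_add_nsmul` (`k = 1`) for `D` and `two_chi` for `D + A` and `D` give
`b D = 2 bil D A - bil K A` (`bil_A_A`), and `b 0 - b (0 - dlt ν) = 2 a` (`exists_deg`) gives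
`bil A (dlt ν) = a > 0`. -/
theorem bil_A_pos {ν : DVal L} (hν : ν ∈ B.prm) : 0 < B.bil B.A (dlt ν) := by
  obtain ⟨a, ha, hb, -⟩ := B.exists_deg hν
  have key : ∀ D, IsDiv B.prm D →
      B.b D = 2 * B.bil D B.A - B.d + 2 * B.chi B.A - 2 * B.chi 0 := by
    intro D hD
    have h1 := (B.chi_add_nsmul hD 1).1
    rw [one_nsmul] at h1
    push_cast at h1
    have e : B.bil D B.A = B.chi (D + B.A) - B.chi D - B.chi B.A + B.chi 0 := rfl
    linear_combination -h1 - 2 * e
  have hd : IsDiv B.prm (dlt ν) := isDiv_dlt _ _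
  have h1 := hb 0 (isDiv_zero _)
  rw [zero_sub, key 0 (isDiv_zero _), key _ (IsDiv.neg' hd), B.bil_zero, B.bil_neg hd B.divA] at h1
  rw [B.bil_comm]
  linarith

end BaseData

end Pool.Agent.LibCUR
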