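import Pool.Agent.LibCUR.Q02b

set_option autoImplicit false

open Pool.Agent.LibGMM Pool.Agent.LibK Pool.Agent.LibKB

namespace Pool.Agent.LibCUR

open Pool.Agent.LibKB2 (dlt dlt_self dlt_ne isDiv_dlt isDiv_ord isDiv_zero IsDiv.add' IsDiv.neg'
  IsDiv.sub' IsDiv.zsmul')
open Pool.Agent.LibLB (RLR PSurf)

variable {L : Type} [Field L] [Algebra ℂ L]

namespace BaseData

variable (B : BaseData L)

/-- The group of divisors. -/
def dv : AddSubgroup (DVal L → ℤ) where
  carrier := {D | IsDiv B.prm D}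
  zero_mem' := isDiv_zero _
  add_mem' := fun h1 h2 => IsDiv.add' h1 h2
  neg_mem' := fun h1 => IsDiv.neg' h1

theorem dv_mem (D : B.dv) : IsDiv B.prm (D : DVal L → ℤ) := D.2

/-- The principal divisors. -/
def prin : AddSubgroup B.dv where
  carrier := {D | ∃ f : L, f ≠ 0 ∧ ∀ ν ∈ B.prm, (D : DVal L → ℤ) ν = ν.ord f}
  zero_mem' := ⟨1, one_ne_zero, fun ν _ => by rw [LibKB.ord_one]; rfl⟩
  add_mem' := by
    rintro D E ⟨f, hf, h1⟩ ⟨g, hg, h2⟩
    refine ⟨f * g, mul_ne_zero hf hg, fun ν hν => ?_⟩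
    rw [ν.ord_mul _ _ hf hg, ← h1 ν hν, ← h2 ν hν]
    rfl
  neg_mem' := by
    rintro D ⟨f, hf, h1⟩
    refine ⟨f⁻¹, inv_ne_zero hf, fun ν hν => ?_⟩
    rw [LibKB.ord_inv ν hf, ← h1 ν hν]
    rfl

/-- The class group. -/
abbrev Cl : Type := B.dv ⧸ B.prin

/-- The class of a divisor. -/
def cla (D : B.dv) : B.Cl := QuotientAddGroup.mk' B.prin D

theorem cla_add (D E : B.dv) : B.cla (D + E) = B.cla D + B.cla E := map_add _ _ _

theorem cla_surj (α : B.Cl) : ∃ D, B.cla D = α := QuotientAddGroup.mk'_surjective B.prin α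

theorem cla_eq {D E : B.dv} : B.cla D = B.cla E ↔
    ∃ f : L, f ≠ 0 ∧ ∀ ν ∈ B.prm, (E : DVal L → ℤ) ν = (D : DVal L → ℤ) ν + ν.ord f := by
  have h1 : B.cla D = B.cla E ↔ -D + E ∈ B.prin := QuotientAddGroup.eq
  rw [h1]
  constructor
  · rintro ⟨f, hf, h⟩
    refine ⟨f, hf, fun ν hν => ?_⟩
    have h2 := h ν hν
    change -(D : DVal L → ℤ) ν + (E : DVal L → ℤ) ν = _ at h2
    linarith
  · rintro ⟨f, hf, h⟩
    refine ⟨f, hf, fun ν hν => ?_⟩
    change -(D : DVal L → ℤ) ν + (E : DVal L → ℤ) ν = _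
    linarith [h ν hν]

/-- The prime divisor `ν` as an element of the group of divisors. -/
noncomputable def pd (ν : DVal L) : B.dv := ⟨dlt ν, isDiv_dlt _ _⟩

/-- The class of a prime divisor. -/
noncomputable def cls (ν : DVal L) : B.Cl := B.cla (B.pd ν)

/-- The form on divisors. -/
def bilDv : B.dv →+ B.dv →+ ℤ where
  toFun D :=
    { toFun := fun E => B.bil D E
      map_zero' := by
        change B.bil D 0 = 0
        rw [B.bil_comm, B.bil_zero]
      map_add' := fun E E' => by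
        change B.bil D (E + E') = _
        rw [B.bil_comm, B.bil_add E.2 E'.2 D.2, B.bil_comm E, B.bil_comm E'] }
  map_zero' := by
    ext E
    exact B.bil_zero _
  map_add' D D' := by
    ext E
    exact B.bil_add D.2 D'.2 E.2

private theorem q03a_zero {D : B.dv} (hD : D ∈ B.prin) (E : B.dv) :
    B.bil (D : DVal L → ℤ) E = 0 := by
  obtain ⟨f, hf, h⟩ := hD
  have h1 : B.bil (D : DVal L → ℤ) E = B.bil 0 E :=
    B.bil_lin (isDiv_zero _) E.2 hf fun ν hν => by rw [h ν hν, Pi.zero_apply, zero_add]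
  rw [h1, B.bil_zero]

/-- The intersection form. HINT: `QuotientAddGroup.lift B.prin _ _` twice (`bil_lin`: a principal
divisor `D` is `0 + div f`, so `bil D E = bil 0 E = 0`), `AddMonoidHom.toIntLinearMap`. -/
theorem exists_form : ∃ form : B.Cl →ₗ[ℤ] B.Cl →ₗ[ℤ] ℤ, ∀ D E : B.dv,
    form (B.cla D) (B.cla E) = B.bil D E := by
  let f1 : B.Cl →+ B.dv →+ ℤ := QuotientAddGroup.lift B.prin B.bilDv (fun D hD => by
    ext E
    exact B.q03a_zero hD E)
  have h1 : ∀ D E : B.dv, f1 (B.cla D) E = B.bil D E := fun D E => rfl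
  let f2 : B.Cl →+ B.Cl →+ ℤ := QuotientAddGroup.lift B.prin f1.flip (fun E hE => by
    ext D
    change B.bil D E = 0
    rw [B.bil_comm]
    exact B.q03a_zero hE D)
  have h2 : ∀ D E : B.dv, f2 (B.cla D) (B.cla E) = B.bil D E := by
    intro D E
    change B.bil E D = B.bil D E
    exact B.bil_comm _ _
  refine ⟨LinearMap.mk₂ ℤ (fun α β => f2 α β) ?_ ?_ ?_ ?_, fun D E => ?_⟩
  · intro a b c
    simp only [map_add, AddMonoidHom.add_apply]
  · intro n a b
    simp only [map_zsmul]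
    rfl
  · intro a b c
    simp only [map_add]
  · intro n a b
    simp only [map_zsmul]
  · exact h2 D E

/-- The intersection form. -/
noncomputable def form : B.Cl →ₗ[ℤ] B.Cl →ₗ[ℤ] ℤ := B.exists_form.choose

theorem form_mk (D E : B.dv) : B.form (B.cla D) (B.cla E) = B.bil D E :=
  B.exists_form.choose_spec D E

end BaseData

end Pool.Agent.LibCUR
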