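import Pool.Agent.LibCUR.Q03a

set_option autoImplicit false

open Pool.Agent.LibGMM Pool.Agent.LibK Pool.Agent.LibKB

namespace Pool.Agent.LibCUR

open Pool.Agent.LibKB2 (dlt dlt_self dlt_ne isDiv_dlt isDiv_ord isDiv_zero IsDiv.add' IsDiv.neg'
  IsDiv.sub' IsDiv.zsmul')
open Pool.Agent.LibLB (RLR PSurf)

variable {L : Type} [Field L] [Algebra ℂ L]

section

variable {Λ : Type} [AddCommGroup Λ] (P : Set (DVal L)) (cls : DVal L → Λ)

theorem q03b_fin {D : DVal L → ℤ} (hD : IsDiv P D) :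
    (P ∩ Function.support fun ν => D ν • cls ν).Finite := by
  refine Set.Finite.subset hD ?_
  rintro ν ⟨h1, h2⟩
  refine ⟨h1, fun h3 => h2 ?_⟩
  show D ν • cls ν = 0
  rw [h3, zero_smul]

theorem q03b_add {D E : DVal L → ℤ} (hD : IsDiv P D) (hE : IsDiv P E) :
    LibLB.clOf P cls (D + E) = LibLB.clOf P cls D + LibLB.clOf P cls E := by
  unfold LibLB.clOf
  rw [← finsum_mem_add_distrib' (q03b_fin P cls hD) (q03b_fin P cls hE)]
  refine finsum_mem_congr rfl fun ν _ => ?_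
  rw [Pi.add_apply, add_smul]

theorem q03b_zero : LibLB.clOf P cls (0 : DVal L → ℤ) = 0 := by
  unfold LibLB.clOf
  have h : ∀ ν ∈ P, (0 : DVal L → ℤ) ν • cls ν = 0 := fun ν _ => by rw [Pi.zero_apply, zero_smul]
  rw [finsum_mem_congr rfl h]
  exact finsum_mem_zero P

theorem q03b_dlt {ν : DVal L} (hν : ν ∈ P) : LibLB.clOf P cls (dlt ν) = cls ν := by
  unfold LibLB.clOf
  rw [finsum_mem_def, finsum_eq_single _ ν]
  · rw [Set.indicator_of_mem hν, dlt_self, one_smul]
  · intro μ hμ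
    by_cases hP : μ ∈ P
    · rw [Set.indicator_of_mem hP, dlt_ne hμ, zero_smul]
    · rw [Set.indicator_of_notMem hP]

end

namespace BaseData

variable (B : BaseData L)

/-- PROOF. Both sides are additive in `D` and depend only on `D` on `B.prm` (`cla_eq` with
`f = 1`; `finsum_mem_congr`); for `D = dlt ν` both are `cls ν`. `isDiv_induction` (with the
statement `∀ h : IsDiv B.prm D, clOf B.prm B.cls D = B.cla ⟨D, h⟩`), or the proofs of
`LibKB2.clOf_add`, `clOf_dlt`, `clOf_sub` (B01.lean), which work for every group `Λ`. -/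
theorem clOf_eq (D : B.dv) : LibLB.clOf B.prm B.cls (D : DVal L → ℤ) = B.cla D := by
  have key : ∀ D : DVal L → ℤ, IsDiv B.prm D →
      ∀ h : IsDiv B.prm D, LibLB.clOf B.prm B.cls D = B.cla ⟨D, h⟩ := by
    refine isDiv_induction
      (M := fun D => ∀ h : IsDiv B.prm D, LibLB.clOf B.prm B.cls D = B.cla ⟨D, h⟩) ?_ ?_ ?_ ?_
    · intro D D' hDD h h'
      have h1 : IsDiv B.prm D := by
        refine Set.Finite.subset h' ?_
        rintro ν ⟨h2, h3⟩
        exact ⟨h2, by rw [← hDD ν h2]; exact h3⟩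
      have h2 : LibLB.clOf B.prm B.cls D' = LibLB.clOf B.prm B.cls D := by
        unfold LibLB.clOf
        exact finsum_mem_congr rfl fun ν hν => by rw [hDD ν hν]
      rw [h2, h h1, B.cla_eq]
      refine ⟨1, one_ne_zero, fun ν hν => ?_⟩
      rw [LibKB.ord_one, add_zero]
      exact (hDD ν hν).symm
    · intro h
      rw [q03b_zero]
      exact (map_zero (QuotientAddGroup.mk' B.prin)).symm
    · intro ν hν D hD hM h
      have h1 : (⟨D + dlt ν, h⟩ : B.dv) = ⟨D, hD⟩ + B.pd ν := rfl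
      rw [q03b_add B.prm B.cls hD (isDiv_dlt _ _), q03b_dlt B.prm B.cls hν, hM hD, h1, B.cla_add]
      rfl
    · intro ν hν D hD hM h
      have h1 : (⟨D, hD⟩ : B.dv) = ⟨D - dlt ν, h⟩ + B.pd ν := by
        apply Subtype.ext
        show D = D - dlt ν + dlt ν
        rw [sub_add_cancel]
      have h2 := q03b_add B.prm B.cls h (isDiv_dlt B.prm ν)
      rw [sub_add_cancel, q03b_dlt B.prm B.cls hν, hM hD, h1, B.cla_add] at h2
      exact (add_right_cancel h2).symm
  exact key D D.2 D.2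

/-- PROOF. The classes of the (finitely many) `E ∈ T` of `hB.fg` span: for `D : B.dv`,
`D = ∑ E ∈ T, c E • E + div f` on `B.prm`, so `cla D = ∑ c E • cla ⟨E, _⟩` (`cla_eq`; sums:
`map_sum`; `T.attach`). `Module.Finite` from `Submodule.fg_def` / `⟨⟨T.attach.image .., _⟩⟩`. -/
theorem fin_Cl (hB : B.Reg) : Module.Finite ℤ B.Cl := by
  classical
  obtain ⟨T, hT, hT2⟩ := hB.fg
  refine ⟨⟨T.attach.image (fun E => B.cla ⟨E.1, hT E.1 E.2⟩), ?_⟩⟩
  rw [eq_top_iff]
  intro x _
  obtain ⟨D, rfl⟩ := B.cla_surj x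
  obtain ⟨c, f, hf, h⟩ := hT2 D D.2
  have h1 : B.cla D = B.cla (∑ E ∈ T.attach, c E.1 • (⟨E.1, hT E.1 E.2⟩ : B.dv)) := by
    symm
    rw [B.cla_eq]
    refine ⟨f, hf, fun ν hν => ?_⟩
    rw [h ν hν]
    congr 1
    rw [AddSubgroup.val_finsetSum, Finset.sum_apply, ← Finset.sum_attach T fun E => c E * E ν]
    refine Finset.sum_congr rfl fun E _ => ?_
    rfl
  rw [h1]
  unfold cla
  rw [map_sum]
  refine Submodule.sum_mem _ fun E hE => ?_
  rw [map_zsmul]
  refine Submodule.smul_mem _ _ (Submodule.subset_span ?_)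
  rw [Finset.coe_image]
  exact ⟨E, hE, rfl⟩

end BaseData

end Pool.Agent.LibCUR
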