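import Pool.Agent.LibCUR.Q03b

set_option autoImplicit false

open Pool.Agent.LibGMM Pool.Agent.LibK Pool.Agent.LibKB

namespace Pool.Agent.LibCUR

open Pool.Agent.LibKB2 (dlt dlt_self dlt_ne isDiv_dlt isDiv_ord isDiv_zero IsDiv.add' IsDiv.neg'
  IsDiv.sub' IsDiv.zsmul')
open Pool.Agent.LibLB (RLR PSurf)

variable {L : Type} [Field L] [Algebra ℂ L]

namespace BaseData

variable (B : BaseData L)

/-- A divisor with a section has nonnegative degree.

PROOF. A section `f ≠ 0` of `D` gives `E = D + div f` with `0 ≤ E ν` on `B.prm`,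
`bil A D = bil A E` (`bil_comm`, `bil_lin`), `= form (cla A) (clOf E)` (`form_mk`, `clOf_eq`), and
`form (cla A)` of the finite sum `clOf E = ∑ᶠ ν ∈ B.prm, E ν • cls ν` is nonnegative
(`finsum_mem_induction` for the predicate `0 ≤ form (cla A) x`; `form_mk`, `bil_A_pos`). -/
theorem deg_nonneg {D : DVal L → ℤ} (hD : IsDiv B.prm D) (h : 0 < h0 B.prm D) :
    0 ≤ B.bil B.A D := by
  obtain ⟨f, hf, hf0⟩ : ∃ f ∈ sec B.prm D, f ≠ 0 := by
    by_contra hcon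
    push Not at hcon
    have h1 : sec B.prm D = ⊥ := by
      rw [Submodule.eq_bot_iff]
      exact hcon
    unfold h0 at h
    rw [h1, finrank_bot] at h
    exact lt_irrefl _ h
  obtain ⟨E, hE⟩ : ∃ E : DVal L → ℤ, E = D + fun ν => ν.ord f := ⟨_, rfl⟩
  have hEd : IsDiv B.prm E := by
    rw [hE]
    exact IsDiv.add' hD (B.finDiv f hf0)
  have hE' : ∀ ν ∈ B.prm, E ν = D ν + ν.ord f := by
    intro ν _
    rw [hE]
    rfl
  have hpos : ∀ ν ∈ B.prm, 0 ≤ E ν := by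
    intro ν hν
    rw [hE' ν hν]
    have h1 := hf ν hν hf0
    linarith
  have h1 : B.bil B.A D = B.bil B.A E := by
    rw [B.bil_comm B.A D, B.bil_comm B.A E]
    exact (B.bil_lin hD B.divA hf0 hE').symm
  rw [h1]
  have h2 := B.form_mk (⟨B.A, B.divA⟩ : B.dv) (⟨E, hEd⟩ : B.dv)
  have h3 := B.clOf_eq (⟨E, hEd⟩ : B.dv)
  have h4 : 0 ≤ B.form (B.cla (⟨B.A, B.divA⟩ : B.dv)) (B.cla (⟨E, hEd⟩ : B.dv)) := by
    rw [← h3]
    unfold LibLB.clOf
    refine finsum_mem_induction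
      (fun x => 0 ≤ B.form (B.cla (⟨B.A, B.divA⟩ : B.dv)) x) ?_ ?_ ?_
    · rw [map_zero]
    · intro x y hx hy
      rw [map_add]
      exact add_nonneg hx hy
    · intro ν hν
      rw [map_smul, smul_eq_mul]
      refine mul_nonneg (hpos ν hν) ?_
      have h5 := B.form_mk (⟨B.A, B.divA⟩ : B.dv) (B.pd ν)
      have h6 := B.bil_A_pos hν
      have h7 : B.form (B.cla (⟨B.A, B.divA⟩ : B.dv)) (B.cls ν) = B.bil B.A (dlt ν) := h5
      rw [h7]
      exact h6.le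
  rw [h2] at h4
  exact h4

/-- PROOF. `t` large: `bil A (K - t • A - n • D) = bil A K - t * d < 0`, so
`h0 (K - (t • A + n • D)) = 0` (`deg_nonneg`), and by `B.rr`:
`h0 (t • A + n • D) ≥ χ (t • A + n • D)`, `2 χ (t • A + n • D) = 2 χ 0 + t ^ 2 * d - t * bil K A`
(`two_chi`, all terms with `D` are `0`), positive for large `t`. -/
theorem exists_bound {D : DVal L → ℤ} (hD : IsDiv B.prm D)
    (h : ∀ E, IsDiv B.prm E → B.bil D E = 0) :
    ∃ t : ℕ, ∀ n : ℤ, 0 < h0 B.prm (t • B.A + n • D) := by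
  obtain ⟨t, ht⟩ : ∃ t : ℕ, (t : ℤ) = |B.bil B.K B.A| + 2 * |B.chi 0| + 1 :=
    ⟨(|B.bil B.K B.A| + 2 * |B.chi 0| + 1).toNat, Int.toNat_of_nonneg (by positivity)⟩
  refine ⟨t, fun n => ?_⟩
  have hδ1 : ∀ Y : B.dv, B.form (B.cla (⟨D, hD⟩ : B.dv)) (B.cla Y) = 0 := by
    intro Y
    rw [B.form_mk]
    exact h _ Y.2
  have hδ2 : ∀ Y : B.dv, B.form (B.cla Y) (B.cla (⟨D, hD⟩ : B.dv)) = 0 := by
    intro Y
    rw [B.form_mk, B.bil_comm]
    exact h _ Y.2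
  have haa : B.form (B.cla (⟨B.A, B.divA⟩ : B.dv)) (B.cla (⟨B.A, B.divA⟩ : B.dv)) = B.d := by
    rw [B.form_mk]
    exact B.bil_A_A
  obtain ⟨X, hX⟩ : ∃ X : B.dv, X = (t : ℤ) • (⟨B.A, B.divA⟩ : B.dv) + n • (⟨D, hD⟩ : B.dv) :=
    ⟨_, rfl⟩
  have hXc : (X : DVal L → ℤ) = t • B.A + n • D := by
    rw [hX]
    change (t : ℤ) • B.A + n • D = t • B.A + n • D
    rw [natCast_zsmul]
  have hXcl : B.cla X = (t : ℤ) • B.cla (⟨B.A, B.divA⟩ : B.dv) + n • B.cla (⟨D, hD⟩ : B.dv) := by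
    rw [hX]
    change QuotientAddGroup.mk' B.prin _ = _
    rw [map_add, map_zsmul, map_zsmul]
    rfl
  have hXX : B.bil X X = t ^ 2 * B.d := by
    rw [← B.form_mk, hXcl]
    simp only [map_add, map_smul, LinearMap.add_apply, LinearMap.smul_apply, smul_eq_mul, hδ1, hδ2,
      haa]
    ring
  have hKX : B.bil B.K X = t * B.bil B.K B.A := by
    have h1 := B.form_mk (⟨B.K, B.divK⟩ : B.dv) X
    have h2 := B.form_mk (⟨B.K, B.divK⟩ : B.dv) (⟨B.A, B.divA⟩ : B.dv)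
    rw [hXcl] at h1
    simp only [map_add, map_smul, smul_eq_mul, hδ2] at h1
    rw [h2] at h1
    rw [← h1]
    ring
  have hAX : B.bil B.A (B.K - X) = B.bil B.K B.A - t * B.d := by
    have h1 := B.form_mk (⟨B.A, B.divA⟩ : B.dv) ((⟨B.K, B.divK⟩ : B.dv) - X)
    have h2 := B.form_mk (⟨B.A, B.divA⟩ : B.dv) (⟨B.K, B.divK⟩ : B.dv)
    have h3 : B.cla ((⟨B.K, B.divK⟩ : B.dv) - X) = B.cla (⟨B.K, B.divK⟩ : B.dv) - B.cla X :=
      map_sub (QuotientAddGroup.mk' B.prin) _ _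
    rw [h3, map_sub, h2, hXcl] at h1
    simp only [map_add, map_smul, smul_eq_mul, hδ2, haa] at h1
    have h4 : (((⟨B.K, B.divK⟩ : B.dv) - X : B.dv) : DVal L → ℤ) = B.K - (X : DVal L → ℤ) := rfl
    rw [h4] at h1
    rw [← h1, B.bil_comm B.K B.A]
    ring
  have hd := B.dpos
  have hb1 := le_abs_self (B.bil B.K B.A)
  have hb2 := neg_abs_le (B.bil B.K B.A)
  have hc1 := neg_abs_le (B.chi 0)
  have hb0 := abs_nonneg (B.bil B.K B.A)
  have hc0 := abs_nonneg (B.chi 0)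
  have ht1 : (1 : ℤ) ≤ t := by linarith
  have htd : (t : ℤ) ≤ t * B.d := by nlinarith
  have hneg : h0 B.prm (B.K - X) = 0 := by
    by_contra hne
    have h1 := B.deg_nonneg (IsDiv.sub' B.divK X.2) (Nat.pos_of_ne_zero hne)
    rw [hAX] at h1
    linarith
  have hrr := B.rr X X.2
  have h2c := B.two_chi X.2
  rw [hneg] at hrr
  rw [hXX, hKX] at h2c
  have hbig : 0 < B.chi X := by
    have h1 : (t : ℤ) * (2 * |B.chi 0| + 1) ≤ t ^ 2 * B.d - t * B.bil B.K B.A := by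
      have h2 : (2 * |B.chi 0| + 1) ≤ t * B.d - B.bil B.K B.A := by linarith
      have h3 := mul_le_mul_of_nonneg_left h2 (show (0 : ℤ) ≤ t by linarith)
      calc (t : ℤ) * (2 * |B.chi 0| + 1) ≤ t * (t * B.d - B.bil B.K B.A) := h3
        _ = t ^ 2 * B.d - t * B.bil B.K B.A := by ring
    have h4 : (2 * |B.chi 0| + 1) ≤ (t : ℤ) * (2 * |B.chi 0| + 1) := by nlinarith
    linarith
  rw [← hXc]
  push_cast at hrr
  have h9 : (0 : ℤ) < (h0 B.prm X : ℤ) := by linarith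
  exact_mod_cast h9

end BaseData

end Pool.Agent.LibCUR
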