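import Pool.Agent.LibCUR.Q03c

set_option autoImplicit false

open Pool.Agent.LibGMM Pool.Agent.LibK Pool.Agent.LibKB

namespace Pool.Agent.LibCUR

open Pool.Agent.LibKB2 (dlt dlt_self dlt_ne isDiv_dlt isDiv_ord isDiv_zero IsDiv.add' IsDiv.neg'
  IsDiv.sub' IsDiv.zsmul')
open Pool.Agent.LibLB (RLR PSurf)

variable {L : Type} [Field L] [Algebra ℂ L]

namespace BaseData

variable (B : BaseData L)


/-- Every divisor of class `cla D₀` is `D₀ + div f` on `B.prm` and has the same `h⁰`, `χ`.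

PROOF. `clOf_eq`, `cla_eq`, `LibKB.h0_lin`, `chi_lin`. -/
theorem of_clOf {D : DVal L → ℤ} (hD : IsDiv B.prm D) {D₀ : B.dv}
    (h : LibLB.clOf B.prm B.cls D = B.cla D₀) : (∃ f : L, f ≠ 0 ∧ ∀ ν ∈ B.prm,
      D ν = (D₀ : DVal L → ℤ) ν + ν.ord f) ∧ h0 B.prm D = h0 B.prm D₀ ∧
      B.chi D = B.chi D₀ := by
  rw [B.clOf_eq ⟨D, hD⟩] at h
  obtain ⟨f, hf, h1⟩ := B.cla_eq.1 h.symm
  exact ⟨⟨f, hf, h1⟩, LibKB.h0_lin hf h1, (B.chi_lin D₀.2 hf h1).1⟩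

/-- The class of `A`. -/
def clA : B.Cl := B.cla ⟨B.A, B.divA⟩

/-- The class of `K`. -/
def clK : B.Cl := B.cla ⟨B.K, B.divK⟩

/-- PROOF. `clOf_eq` for `D`, `two_chi`, `form_mk`, `clK`. -/
theorem two_chi_cl {D : DVal L → ℤ} (hD : IsDiv B.prm D) : 2 * B.chi D =
    2 * B.chi 0 + B.form (LibLB.clOf B.prm B.cls D) (LibLB.clOf B.prm B.cls D - B.clK) := by
  rw [B.clOf_eq ⟨D, hD⟩, clK, map_sub, B.form_mk, B.form_mk, B.two_chi hD, B.bil_comm B.K D]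
  ring

theorem cl_div (f : L) (hf : f ≠ 0) : LibLB.clOf B.prm B.cls (fun ν => ν.ord f) = 0 := by
  rw [B.clOf_eq ⟨fun ν => ν.ord f, LibKB.isDiv_ord B.finDiv hf⟩]
  have h1 : B.cla 0 = B.cla ⟨fun ν => ν.ord f, LibKB.isDiv_ord B.finDiv hf⟩ :=
    B.cla_eq.2 ⟨f, hf, fun ν _ => (zero_add _).symm⟩
  rw [← h1]
  exact map_zero _

theorem ex_div (D : DVal L → ℤ) (hD : IsDiv B.prm D) (h : LibLB.clOf B.prm B.cls D = 0) :
    ∃ f : L, f ≠ 0 ∧ ∀ ν ∈ B.prm, ν.ord f = D ν := by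
  have h1 : LibLB.clOf B.prm B.cls D = B.cla 0 := by
    rw [h]
    exact (map_zero _).symm
  obtain ⟨⟨f, hf, h2⟩, -, -⟩ := B.of_clOf hD h1
  refine ⟨f, hf, fun ν hν => ?_⟩
  rw [h2 ν hν]
  exact (zero_add _).symm

theorem cl_surj (α : B.Cl) : ∃ D, IsDiv B.prm D ∧ LibLB.clOf B.prm B.cls D = α := by
  obtain ⟨D, rfl⟩ := B.cla_surj α
  exact ⟨D, D.2, B.clOf_eq D⟩

theorem form_symm (a b : B.Cl) : B.form a b = B.form b a := by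
  obtain ⟨D, rfl⟩ := B.cla_surj a
  obtain ⟨E, rfl⟩ := B.cla_surj b
  rw [B.form_mk, B.form_mk, B.bil_comm]

theorem parity_cl (D : B.Cl) : Even (B.form D D + B.form B.clK D) := by
  obtain ⟨D₀, rfl⟩ := B.cla_surj D
  rw [clK, B.form_mk, B.form_mk]
  exact B.parity D₀.2

/-- PROOF. `D'` is linearly equivalent to `K - D` (`of_clOf`), `B.rr`, `two_chi_cl`. -/
theorem rr_cl (D D' : DVal L → ℤ) (hD : IsDiv B.prm D) (hD' : IsDiv B.prm D')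
    (h : LibLB.clOf B.prm B.cls D' = B.clK - LibLB.clOf B.prm B.cls D) :
    2 * B.chi 0 + B.form (LibLB.clOf B.prm B.cls D) (LibLB.clOf B.prm B.cls D - B.clK) ≤
      2 * ((h0 B.prm D : ℤ) + h0 B.prm D') := by
  rw [← B.two_chi_cl hD]
  have h1 : LibLB.clOf B.prm B.cls D' = B.cla (⟨B.K, B.divK⟩ - ⟨D, hD⟩) := by
    rw [h, clK, B.clOf_eq ⟨D, hD⟩]
    exact (map_sub _ _ _).symm
  obtain ⟨-, h2, -⟩ := B.of_clOf hD' h1
  have h3 : h0 B.prm D' = h0 B.prm (B.K - D) := h2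
  rw [h3]
  have h4 := B.rr D hD
  linarith

theorem chi0_cl (hB : B.Reg) (D : DVal L → ℤ) (hD : IsDiv B.prm D) (h : LibLB.clOf B.prm B.cls D = B.clK) :
    B.chi 0 = 1 + h0 B.prm D := by
  obtain ⟨-, h2, -⟩ := B.of_clOf hD (D₀ := ⟨B.K, B.divK⟩) h
  have h3 : h0 B.prm D = h0 B.prm B.K := h2
  rw [h3]
  exact hB.chi0

theorem canon_cl (ω : TopForm L) (hω : ω ≠ 0) : IsDiv B.prm (fun ν => canOrd ν ω) ∧
    LibLB.clOf B.prm B.cls (fun ν => canOrd ν ω) = B.clK := by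
  obtain ⟨h1, f, hf, h2⟩ := B.canon ω hω
  refine ⟨h1, ?_⟩
  rw [B.clOf_eq ⟨fun ν => canOrd ν ω, h1⟩, clK]
  exact (B.cla_eq.2 ⟨f, hf, h2⟩).symm

end BaseData

end Pool.Agent.LibCUR
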