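import Pool.Agent.LibCUR.Q04a

set_option autoImplicit false

open Pool.Agent.LibGMM Pool.Agent.LibK Pool.Agent.LibKB

namespace Pool.Agent.LibCUR

open Pool.Agent.LibKB2 (dlt dlt_self dlt_ne isDiv_dlt isDiv_ord isDiv_zero IsDiv.add' IsDiv.neg'
  IsDiv.sub' IsDiv.zsmul')
open Pool.Agent.LibLB (RLR PSurf)

variable {L : Type} [Field L] [Algebra ℂ L]

theorem curQ04b_sec {P : Set (DVal L)} {A D : DVal L → ℤ} {φ : L} (hφ : φ ≠ 0)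
    (h : ∀ ν ∈ P, D ν = A ν + ν.ord φ) {f : L} (hf : f ∈ sec P A) : f / φ ∈ sec P D := by
  intro ν hν h0
  have hf0 : f ≠ 0 := fun h1 => h0 (by rw [h1, zero_div])
  have h2 := hf ν hν hf0
  have h3 : ν.ord f = ν.ord (f / φ) + ν.ord φ := by
    rw [← ν.ord_mul _ _ h0 hφ, div_mul_cancel₀ f hφ]
  rw [h ν hν]
  omega

theorem curQ04b_gen {P : Set (DVal L)} {A D : DVal L → ℤ} {φ : L} (hφ : φ ≠ 0)
    (h : ∀ ν ∈ P, D ν = A ν + ν.ord φ) {x : Subalgebra ℂ L} {f : L} (hf : Gen P x A f) :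
    Gen P x D (f / φ) := by
  obtain ⟨h1, h2, h3⟩ := hf
  have h4 : f / φ ≠ 0 := div_ne_zero h2 hφ
  refine ⟨curQ04b_sec hφ h h1, h4, fun ν hν hx => ?_⟩
  have h5 := h3 ν hν hx
  have h6 : ν.ord f = ν.ord (f / φ) + ν.ord φ := by
    rw [← ν.ord_mul _ _ h4 hφ, div_mul_cancel₀ f hφ]
  rw [h ν hν]
  omega

namespace BaseData

variable (B : BaseData L)

/-- The divisors of class `clA` are linearly equivalent to `A`. -/
theorem curQ04b_lin {D : DVal L → ℤ} (hD : IsDiv B.prm D)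
    (h : LibLB.clOf B.prm B.cls D = B.clA) : ∃ φ : L, φ ≠ 0 ∧
      (∀ ν ∈ B.prm, D ν = B.A ν + ν.ord φ) ∧ ∀ ν ∈ B.prm, B.A ν = D ν + ν.ord φ⁻¹ := by
  obtain ⟨⟨φ, hφ, h1⟩, _⟩ := B.of_clOf hD (D₀ := ⟨B.A, B.divA⟩) h
  refine ⟨φ, hφ, h1, fun ν hν => ?_⟩
  have h2 : ν.ord (φ * φ⁻¹) = ν.ord φ + ν.ord φ⁻¹ := ν.ord_mul _ _ hφ (inv_ne_zero hφ)
  have h3 : ν.ord (1 : L) = 0 := by
    have := ν.ord_const 1
    rwa [map_one] at this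
  rw [mul_inv_cancel₀ hφ, h3] at h2
  have h4 := h1 ν hν
  change D ν = B.A ν + ν.ord φ at h4
  omega

theorem sep_cl (D : DVal L → ℤ) (hD : IsDiv B.prm D) (h : LibLB.clOf B.prm B.cls D = B.clA)
    (x : Subalgebra ℂ L) (hx : x ∈ B.pts) (y : Subalgebra ℂ L) (hy : y ∈ B.pts) (hxy : x ≠ y) :
    ∃ f, Gen B.prm y D f ∧ ¬ Gen B.prm x D f := by
  obtain ⟨φ, hφ, h1, h2⟩ := B.curQ04b_lin hD h
  obtain ⟨f, hf, hf'⟩ := B.sep x hx y hy hxy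
  refine ⟨f / φ, curQ04b_gen hφ h1 hf, fun h3 => hf' ?_⟩
  have h4 := curQ04b_gen (inv_ne_zero hφ) h2 h3
  rwa [div_inv_eq_mul, div_mul_cancel₀ f hφ] at h4

/-- PROOF. `D = A + div φ`; `g / φ` is a local equation of `A`; `f` from `B.jet` for `g / φ`, take
`f / φ`: `(f / φ) * g = f * (g / φ)`. -/
theorem jet_cl (D : DVal L → ℤ) (hD : IsDiv B.prm D) (h : LibLB.clOf B.prm B.cls D = B.clA)
    (x : Subalgebra ℂ L) (hx : x ∈ B.pts) (E : DVal L) (hE : LibLB.IsOrd x E) (g : L)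
    (hg : LocEqn B.prm x D g) (z : L) (hz : z ∈ x) : ∃ f ∈ sec B.prm D, Ge E 2 (f * g - z) := by
  obtain ⟨φ, hφ, h1, h2⟩ := B.curQ04b_lin hD h
  have hg' : LocEqn B.prm x B.A (g / φ) := by
    refine ⟨div_ne_zero hg.1 hφ, fun ν hν hxν => ?_⟩
    have h3 : ν.ord g = ν.ord (g / φ) + ν.ord φ := by
      rw [← ν.ord_mul _ _ (div_ne_zero hg.1 hφ) hφ, div_mul_cancel₀ g hφ]
    have h4 := hg.2 ν hν hxν
    have h5 := h1 ν hν
    omega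
  obtain ⟨f, hf, hfE⟩ := B.jet x hx E hE (g / φ) hg' z hz
  refine ⟨f / φ, curQ04b_sec hφ h1 hf, ?_⟩
  have h6 : f / φ * g - z = f * (g / φ) - z := by
    rw [div_mul_eq_mul_div, mul_div_assoc]
  rw [h6]
  exact hfE

end BaseData

end Pool.Agent.LibCUR
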