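import Pool.Agent.LibCUR.Q04a

set_option autoImplicit false

open Pool.Agent.LibGMM Pool.Agent.LibK Pool.Agent.LibKB

namespace Pool.Agent.LibCUR

open Pool.Agent.LibKB2 (dlt dlt_self dlt_ne isDiv_dlt isDiv_ord isDiv_zero IsDiv.add' IsDiv.neg'
  IsDiv.sub' IsDiv.zsmul')
open Pool.Agent.LibLB (RLR PSurf)

variable {L : Type} [Field L] [Algebra ℂ L]

namespace BaseData

variable (B : BaseData L)


/-- PROOF. `F = cla F₀`. `n₀` from `B.poly F₀`, `B.gen F₀`, `B.van (K - F₀)`. `D` is linearly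
equivalent to `F₀ + k • A` (`of_clOf`), so
`2 h0 D = 2 h0 (F₀ + k • A) = d k ^ 2 + b F₀ k + 2 χ F₀ = 2 χ (F₀ + k • A) = 2 χ D`
(`chi_add_nsmul`), `two_chi_cl`. `D'` is linearly equivalent to `(K - F₀) - k • A`. `Gen`: divide the
section of `F₀ + k • A` by `φ` (`LibKB.Gen.div`). -/
theorem serre_cl (F : B.Cl) : ∃ k0 : ℕ, ∀ k : ℕ, k0 ≤ k → ∀ D, IsDiv B.prm D →
    LibLB.clOf B.prm B.cls D = k • B.clA + F →
    2 * (h0 B.prm D : ℤ) = 2 * B.chi 0 +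
      B.form (LibLB.clOf B.prm B.cls D) (LibLB.clOf B.prm B.cls D - B.clK) ∧
    (∀ D', IsDiv B.prm D' → LibLB.clOf B.prm B.cls D' = B.clK - LibLB.clOf B.prm B.cls D →
      h0 B.prm D' = 0) ∧
    ∀ x ∈ B.pts, ∃ f, Gen B.prm x D f := by
  obtain ⟨F₀, rfl⟩ := B.cla_surj F
  obtain ⟨n₁, hn₁⟩ := B.poly F₀ F₀.2
  obtain ⟨n₂, hn₂⟩ := B.gen F₀ F₀.2
  have hKF : IsDiv B.prm (B.K - (F₀ : DVal L → ℤ)) := IsDiv.sub' B.divK F₀.2
  obtain ⟨n₃, hn₃⟩ := B.van (B.K - (F₀ : DVal L → ℤ)) hKF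
  refine ⟨max n₁ (max n₂ n₃), fun k hk D hD h => ?_⟩
  have hk1 : n₁ ≤ k := le_trans (le_max_left _ _) hk
  have hk2 : n₂ ≤ k := le_trans (le_trans (le_max_left _ _) (le_max_right _ _)) hk
  have hk3 : n₃ ≤ k := le_trans (le_trans (le_max_right _ _) (le_max_right _ _)) hk
  have hA : k • B.clA = B.cla (k • ⟨B.A, B.divA⟩) :=
    (map_nsmul (QuotientAddGroup.mk' B.prin) k ⟨B.A, B.divA⟩).symm
  have h1 : LibLB.clOf B.prm B.cls D = B.cla (F₀ + k • ⟨B.A, B.divA⟩) := by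
    rw [h, B.cla_add, hA, add_comm]
  have hco : ((F₀ + k • ⟨B.A, B.divA⟩ : B.dv) : DVal L → ℤ) = (F₀ : DVal L → ℤ) + k • B.A := rfl
  obtain ⟨⟨φ, hφ, h2⟩, h3, h4⟩ := B.of_clOf hD h1
  rw [hco] at h2 h3 h4
  refine ⟨?_, fun D' hD' h' => ?_, fun x hx => ?_⟩
  · rw [← B.two_chi_cl hD, h4, h3, (B.chi_add_nsmul F₀.2 k).1]
    exact hn₁ k hk1
  · have h5 : LibLB.clOf B.prm B.cls D' =
        B.cla ((⟨B.K, B.divK⟩ - F₀) - k • ⟨B.A, B.divA⟩) := by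
      rw [h', h1]
      change QuotientAddGroup.mk' B.prin _ - QuotientAddGroup.mk' B.prin _ =
        QuotientAddGroup.mk' B.prin _
      rw [← map_sub]
      congr 1
      abel
    have hco' : (((⟨B.K, B.divK⟩ - F₀) - k • ⟨B.A, B.divA⟩ : B.dv) : DVal L → ℤ) =
        (B.K - (F₀ : DVal L → ℤ)) - k • B.A := rfl
    obtain ⟨-, h6, -⟩ := B.of_clOf hD' h5
    rw [hco'] at h6
    rw [h6]
    exact hn₃ k hk3
  · obtain ⟨f, hf⟩ := hn₂ k hk2 x hx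
    have h7 := hf.div hφ
    exact ⟨f / φ, h7.congr fun ν hν => (h2 ν hν).symm⟩

/-- PROOF. `exists_bound`, `hB.num`: `m • D` is principal, so `m • cla D = 0` (`cla_eq`). -/
theorem num_cl (hB : B.Reg) (D : B.Cl) (h : ∀ E, B.form D E = 0) : ∃ n : ℕ, 0 < n ∧ n • D = 0 := by
  obtain ⟨D₀, rfl⟩ := B.cla_surj D
  have h1 : ∀ E, IsDiv B.prm E → B.bil D₀ E = 0 := by
    intro E hE
    have h2 := h (B.cla ⟨E, hE⟩)
    rw [B.form_mk] at h2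
    exact h2
  obtain ⟨m, f, hm, hf, h3⟩ := hB.num D₀ D₀.2 (B.exists_bound D₀.2 h1)
  refine ⟨m, hm, ?_⟩
  have h4 : m • B.cla D₀ = B.cla (m • D₀) :=
    (map_nsmul (QuotientAddGroup.mk' B.prin) m D₀).symm
  have h5 : B.cla 0 = B.cla (m • D₀) := by
    rw [B.cla_eq]
    refine ⟨f, hf, fun ν hν => ?_⟩
    have h6 := h3 ν hν
    change (m • (D₀ : DVal L → ℤ)) ν = 0 + ν.ord f
    rw [zero_add, ← h6]
    simp [Pi.smul_apply]
  rw [h4, ← h5]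
  exact map_zero (QuotientAddGroup.mk' B.prin)

end BaseData

end Pool.Agent.LibCUR
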