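import Pool.Agent.LibCUR.Q04b
import Pool.Agent.LibCUR.Q04c

set_option autoImplicit false

open Pool.Agent.LibGMM Pool.Agent.LibK Pool.Agent.LibKB

namespace Pool.Agent.LibCUR

open Pool.Agent.LibKB2 (dlt dlt_self dlt_ne isDiv_dlt isDiv_ord isDiv_zero IsDiv.add' IsDiv.neg'
  IsDiv.sub' IsDiv.zsmul')
open Pool.Agent.LibLB (RLR PSurf)

variable {L : Type} [Field L] [Algebra ℂ L]

namespace BaseData

variable (B : BaseData L)


/-- **The surface of the data.** -/
noncomputable def toPSurf : PSurf L where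
  prm := B.prm
  pts := B.pts
  Λ := B.Cl
  form := B.form
  K := B.clK
  cls := B.cls
  A := B.clA
  chi0 := B.chi 0
  symm := B.form_symm
  parity := B.parity_cl
  ptsNe := B.ptsNe
  coord := B.coord
  ess := B.ess
  finDiv := B.finDiv
  centre := B.centre
  infPts := B.infPts
  cl_div := B.cl_div
  ex_div := B.ex_div
  cl_surj := B.cl_surj
  finSec := B.finSec
  rr := B.rr_cl
  canon := B.canon_cl
  A_sq := by
    have h1 := B.form_mk ⟨B.A, B.divA⟩ ⟨B.A, B.divA⟩
    have h2 := B.bil_A_A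
    have h3 := B.dpos
    change 1 ≤ B.form (B.cla ⟨B.A, B.divA⟩) (B.cla ⟨B.A, B.divA⟩)
    rw [h1]
    change 1 ≤ B.bil B.A B.A
    omega
  sep := B.sep_cl
  jet := B.jet_cl
  serre := B.serre_cl
  dim := B.dim


theorem toPSurf_reg (hB : B.Reg) : B.toPSurf.Reg where
  fg := B.fin_Cl hB
  chi0_eq := B.chi0_cl hB
  num := B.num_cl hB

end BaseData

end Pool.Agent.LibCUR
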