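import Pool.Agent.LibKB.Api
import Pool.Agent.LibGMM.Api
import Pool.Agent.LibL.Base

set_option autoImplicit false

open Pool.Agent.LibGMM Pool.Agent.LibK Pool.Agent.LibKB

namespace Pool.Agent.LibCUR

variable {L : Type} [Field L] [Algebra ℂ L]

/-- PROOF. The cast commutes with the infimum of a finite nonempty family (`Y.ι` is finite and
nonempty); compare `hypZ_cast` in LibGMM/B5.lean. -/
theorem q06_iInf_cast (Y : NormalModel L) (Q : DVal L) : (hypZ Y Q : ℝ) = Y.hyperplane Q := by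
  have := Y.fin
  have := Y.ne
  unfold hypZ NormalModel.hyperplane
  obtain ⟨i0, hi0⟩ := exists_eq_ciInf_of_finite (f := fun i : Y.ι => Q.ord (Y.g i : L))
  rw [← hi0]
  push_cast
  congr 1
  apply le_antisymm
  · refine le_ciInf fun i => ?_
    have h : Q.ord (Y.g i0 : L) ≤ Q.ord (Y.g i : L) := by
      rw [hi0]
      exact ciInf_le (Set.finite_range _).bddBelow i
    exact_mod_cast h
  · exact ciInf_le (f := fun i : Y.ι => (Q.ord (Y.g i : L) : ℝ)) (Set.finite_range _).bddBelow i0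

/-- PROOF. `ε > 0`; let `n ≥ 1` with `t ≤ n ε`, `i : Y.ι`. A section `f ≠ 0` of
`t • hypZ + n • D` gives on the prime divisors `Q.ord f + t hypZ Q + n D Q ≥ 0`, and
`hyperplane Q + Q.ord (Y.g i) ≥ 0` (`ciInf_le`, `Y.ι` is finite), so
`D + ε hyperplane + (1 / n) div f + (ε - t / n) div (Y.g i) ≥ 0`. For `REffective` take
`Finsupp.single f (1 / n) + Finsupp.single (Y.g i) (ε - t / n)` (`ordR_add`, `ordR_single` in
LibGMM/Api.lean). -/
theorem pseudoEff_of_sections (Y : NormalModel L) (D : DVal L → ℤ) (t : ℕ)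
    (h : ∀ n : ℕ, 0 < h0 (primes Y) ((t : ℤ) • hypZ Y + (n : ℤ) • D)) :
    PseudoEff Y (fun ν => (D ν : ℝ)) := by
  have := Y.fin
  have := Y.ne
  intro ε hε
  obtain ⟨i⟩ := Y.ne
  obtain ⟨n, hn1, hn2⟩ : ∃ n : ℕ, 0 < n ∧ (t : ℝ) ≤ n * ε := by
    obtain ⟨m, hm⟩ := exists_nat_ge ((t : ℝ) / ε)
    refine ⟨m + 1, Nat.succ_pos _, ?_⟩
    rw [div_le_iff₀ hε] at hm
    push_cast
    nlinarith
  have h1 := h n
  unfold h0 at h1
  have := Module.nontrivial_of_finrank_pos h1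
  obtain ⟨⟨f, hf⟩, hf0⟩ := exists_ne (0 : sec (primes Y) ((t : ℤ) • hypZ Y + (n : ℤ) • D))
  have hfne : f ≠ 0 := fun h2 => hf0 (Subtype.ext h2)
  refine ⟨Finsupp.single (Units.mk0 f hfne) (1 / (n : ℝ)) +
    Finsupp.single (Y.g i) (ε - (t : ℝ) / n), fun Q hQ => ?_⟩
  have h3 : (0 : ℤ) ≤ Q.ord f + ((t : ℤ) • hypZ Y + (n : ℤ) • D) Q := hf Q hQ hfne
  simp only [Pi.add_apply, Pi.smul_apply, smul_eq_mul] at h3
  have h4 : (0 : ℝ) ≤ (Q.ord f : ℝ) + ((t : ℝ) * (hypZ Y Q : ℝ) + (n : ℝ) * (D Q : ℝ)) := by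
    exact_mod_cast h3
  rw [q06_iInf_cast] at h4
  have h5 : 0 ≤ Y.hyperplane Q + (Q.ord (Y.g i : L) : ℝ) := by
    unfold NormalModel.hyperplane
    have := ciInf_le (f := fun i : Y.ι => (Q.ord (Y.g i : L) : ℝ)) (Set.finite_range _).bddBelow i
    linarith
  rw [ordR_add, ordR_single, ordR_single]
  have hn : (0 : ℝ) < n := by exact_mod_cast hn1
  have h6 : 0 ≤ ε - (t : ℝ) / n := by
    rw [sub_nonneg, div_le_iff₀ hn]
    linarith
  have h7 : (D Q : ℝ) + ε * Y.hyperplane Q + (1 / (n : ℝ) * ((Q.ord ((Units.mk0 f hfne : Lˣ) : L) : ℤ) : ℝ) +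
      (ε - (t : ℝ) / n) * (Q.ord (Y.g i : L) : ℝ)) =
      1 / (n : ℝ) * ((Q.ord f : ℝ) + ((t : ℝ) * Y.hyperplane Q + (n : ℝ) * (D Q : ℝ))) +
        (ε - (t : ℝ) / n) * (Y.hyperplane Q + (Q.ord (Y.g i : L) : ℝ)) := by
    rw [Units.val_mk0]
    field_simp
    ring
  rw [h7]
  exact add_nonneg (mul_nonneg (by positivity) h4) (mul_nonneg h6 h5)

end Pool.Agent.LibCUR
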