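import Pool.Agent.LibCUR.Q05
import Pool.Agent.LibGMM.Api

/-!
THEOREM K++, block CUR: pseudo-effective divisors and numerically trivial divisors on the base.
-/

set_option autoImplicit false

open Pool.Agent.LibGMM Pool.Agent.LibK Pool.Agent.LibKB

namespace Pool.Agent.LibCUR

open Pool.Agent.LibKB2 (dlt dlt_self dlt_ne isDiv_dlt isDiv_ord isDiv_zero IsDiv.add' IsDiv.neg'
  IsDiv.sub' IsDiv.zsmul')
open Pool.Agent.LibLB (RLR PSurf)

variable {L : Type} [Field L] [Algebra ℂ L]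

namespace BaseData

variable (B : BaseData L)

/-- PROOF. `geo_curve B.toGeo hν` gives `e`; as in the proof of `exists_deg` (Q01.lean)
`e D = χ D - χ (D - dlt ν)` for every divisor `D` (`exists_lin`, `lin_unique`). The fifth part gives
`e 0 ≤ e D`, and additivity for `D + dlt ν`: `e (D + dlt ν) + e 0 = e D + e (dlt ν)`, i.e.
`bil D (dlt ν) = χ (D + dlt ν) - χ D - χ (dlt ν) + χ 0 = e (D + dlt ν) - e (dlt ν) = e D - e 0`. -/
theorem bil_dlt_nonneg {ν : DVal L} (hν : ν ∈ B.prm) {D : DVal L → ℤ} (hD : IsDiv B.prm D)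
    (h : h0 B.prm (D - dlt ν) < h0 B.prm D) : 0 ≤ B.bil D (dlt ν) := by
  obtain ⟨a, e, ha, h1, h2, -, h4, -⟩ := geo_curve B.toGeo hν
  have h3 : ∀ D, IsDiv B.prm D → e D = B.chi D - B.chi (D - dlt ν) := by
    intro D hD
    obtain ⟨n₀, k1⟩ := h1 D hD
    obtain ⟨a', -, n₁, k2⟩ := B.exists_lin hν hD
    have k3 : ∀ n : ℕ, max n₀ n₁ ≤ n →
        a * n + e D = a' * n + (B.chi D - B.chi (D - dlt ν)) := by
      intro n hn
      have k4 := k1 n ((le_max_left _ _).trans hn)
      have k5 := k2 n ((le_max_right _ _).trans hn)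
      have k6 : e D + n * a = (B.chi D - B.chi (D - dlt ν)) + n * a' := k4.symm.trans k5
      linear_combination k6
    exact (lin_unique k3).2
  have hd : IsDiv B.prm (dlt ν) := isDiv_dlt _ _
  have k1 : e 0 ≤ e D := h4 D hD h
  have k2 : e (D + dlt ν) + e 0 = e D + e (dlt ν) := h2 D (dlt ν) hD hd
  have k3 := h3 _ (IsDiv.add' hD hd)
  have k4 := h3 _ hd
  rw [add_sub_cancel_right] at k3
  rw [sub_self] at k4
  unfold bil
  linarith

/-- A divisor which is generated by its sections is nef.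

PROOF. Let `x` be a point on `ν` (`B.infPts`), `f` with `Gen B.prm x E f`: `ν.ord f + E ν = 0`, so
`f ∈ sec E`, `f ∉ sec (E - dlt ν) ≤ sec E` (`LibKB.sec_mono`), and
`Submodule.finrank_lt_finrank_of_lt` (`B.finSec`); `bil_dlt_nonneg`. -/
theorem bil_nonneg_of_gen {E : DVal L → ℤ} (hE : IsDiv B.prm E)
    (hg : ∀ x ∈ B.pts, ∃ f, Gen B.prm x E f) {ν : DVal L} (hν : ν ∈ B.prm) :
    0 ≤ B.bil E (dlt ν) := by
  obtain ⟨x, hx, hxν⟩ := (B.infPts ν hν).nonempty
  obtain ⟨f, hf, hf0, hfg⟩ := hg x hx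
  refine B.bil_dlt_nonneg hν hE ?_
  have hle : sec B.prm (E - dlt ν) ≤ sec B.prm E := by
    refine sec_mono fun μ _ => ?_
    show E μ - dlt ν μ ≤ E μ
    by_cases hμ : μ = ν
    · rw [hμ, dlt_self]
      omega
    · rw [dlt_ne hμ]
      omega
  have hlt : sec B.prm (E - dlt ν) < sec B.prm E := by
    refine lt_of_le_of_ne hle fun heq => ?_
    have k1 : f ∈ sec B.prm (E - dlt ν) := by
      rw [heq]
      exact hf
    have k2 : 0 ≤ ν.ord f + (E ν - dlt ν ν) := k1 ν hν hf0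
    have k3 := hfg ν hν hxν
    rw [dlt_self] at k2
    omega
  have := B.finSec E hE
  exact Submodule.finrank_lt_finrank_of_lt hlt

end BaseData

end Pool.Agent.LibCUR
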