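import Pool.Agent.LibCUR.Q07a

set_option autoImplicit false

open Pool.Agent.LibGMM Pool.Agent.LibK Pool.Agent.LibKB

namespace Pool.Agent.LibCUR

open Pool.Agent.LibKB2 (dlt dlt_self dlt_ne isDiv_dlt isDiv_ord isDiv_zero IsDiv.add' IsDiv.neg'
  IsDiv.sub' IsDiv.zsmul')
open Pool.Agent.LibLB (RLR PSurf)

variable {L : Type} [Field L] [Algebra ℂ L]

namespace BaseData

variable (B : BaseData L)

/-- PROOF. `isDiv_induction` on `D` (`congr`: `bil_comm`, `bil_lin` with `f = 1` and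
`finsum_mem_congr`; `add`: `bil_add` and `finsum_mem_add_distrib'`, the support of
`fun ν => D ν * _` on `B.prm` is finite), or apply `B.form (B.cla E)` to `clOf_eq`
(`AddMonoidHom.map_finsum_mem'`). -/
theorem bil_eq_finsum {D E : DVal L → ℤ} (hD : IsDiv B.prm D) (hE : IsDiv B.prm E) :
    B.bil E D = ∑ᶠ ν ∈ B.prm, D ν * B.bil E (dlt ν) := by
  have h1 := B.clOf_eq ⟨D, hD⟩
  have h2 : B.form (B.cla ⟨E, hE⟩) (B.cla ⟨D, hD⟩) = B.bil E D := B.form_mk _ _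
  rw [← h2, ← h1]
  unfold LibLB.clOf
  have h3 := AddMonoidHom.map_finsum_mem' (f := fun ν => (D ν) • B.cls ν) (s := B.prm)
    (B.form (B.cla ⟨E, hE⟩)).toAddMonoidHom (q03b_fin B.prm B.cls hD)
  refine h3.trans (finsum_mem_congr rfl fun ν hν => ?_)
  have h4 : B.form (B.cla ⟨E, hE⟩) (B.cls ν) = B.bil E (dlt ν) := B.form_mk ⟨E, hE⟩ (B.pd ν)
  change B.form (B.cla ⟨E, hE⟩) (D ν • B.cls ν) = _
  rw [map_zsmul, h4, smul_eq_mul]

theorem q07b_div {E : DVal L → ℤ} (hE : IsDiv B.prm E) (u : Lˣ) :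
    B.bil E (fun ν => ν.ord (u : L)) = 0 := by
  rw [B.bil_comm, B.bil_lin (D := 0) (D' := fun ν => ν.ord (u : L)) (isDiv_zero _) hE u.ne_zero
    (fun ν _ => by rw [Pi.zero_apply, zero_add]), B.bil_zero]

theorem q07b_sum {E T : DVal L → ℤ} (hE : IsDiv B.prm E) (hT : IsDiv B.prm T)
    {s : Finset (DVal L)} (hs : ∀ ν ∈ s, ν ∈ B.prm) (hTs : ∀ ν ∈ B.prm, T ν ≠ 0 → ν ∈ s) :
    (B.bil E T : ℝ) = ∑ ν ∈ s, (T ν : ℝ) * (B.bil E (dlt ν) : ℝ) := by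
  rw [B.bil_eq_finsum hT hE]
  rw [finsum_mem_eq_sum_of_inter_support_eq (t := s)]
  · push_cast
    rfl
  · ext ν
    simp only [Set.mem_inter_iff, Function.mem_support, Finset.mem_coe]
    constructor
    · rintro ⟨h1, h2⟩
      exact ⟨hTs ν h1 (left_ne_zero_of_mul h2), h2⟩
    · rintro ⟨h1, h2⟩
      exact ⟨hs ν h1, h2⟩

/-- PROOF. Let `w ν = bil E (dlt ν) ≥ 0`. For `ε > 0` and `f : Lˣ →₀ ℝ` as in `h`:
`0 ≤ ∑ᶠ ν ∈ B.prm, (D ν + ε * A ν + ordR ν f) * w ν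
   = bil E D + ε * bil E A + ∑ u ∈ f.support, f u * bil E (div u) = bil E D + ε * bil E A`
(`bil_eq_finsum`, cast to `ℝ`; all sums over the finite set
`{ν ∈ B.prm | D ν ≠ 0 ∨ A ν ≠ 0 ∨ ∃ u ∈ f.support, ν.ord u ≠ 0}`, e.g. by
`finsum_mem_eq_sum_of_inter_support_eq` or `finsum_mem_eq_finite_toFinset_sum`; `bil E (div u) = 0` by
`bil_comm`, `bil_lin` with `D = 0`, `bil_zero`). So `0 ≤ bil E D + ε * bil E A` for every `ε > 0`. -/
theorem bil_nonneg_of_psef {D E : DVal L → ℤ} (hD : IsDiv B.prm D) (hE : IsDiv B.prm E)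
    (hw : ∀ ν ∈ B.prm, 0 ≤ B.bil E (dlt ν))
    (h : ∀ ε : ℝ, 0 < ε → ∃ f : Lˣ →₀ ℝ, ∀ ν ∈ B.prm, 0 ≤ (D ν : ℝ) + ε * (B.A ν : ℝ) + ordR ν f) :
    0 ≤ B.bil E D := by
  classical
  have key : ∀ ε : ℝ, 0 < ε → 0 ≤ (B.bil E D : ℝ) + ε * (B.bil E B.A : ℝ) := by
    intro ε hε
    obtain ⟨f, hf⟩ := h ε hε
    have hfin : ({ν | ν ∈ B.prm ∧ D ν ≠ 0} ∪ {ν | ν ∈ B.prm ∧ B.A ν ≠ 0} ∪
        ⋃ u ∈ f.support, {ν | ν ∈ B.prm ∧ ν.ord (u : L) ≠ 0}).Finite := by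
      refine Set.Finite.union (Set.Finite.union hD B.divA) ?_
      exact Set.Finite.biUnion f.support.finite_toSet fun u _ =>
        LibKB2.isDiv_ord B.finDiv u.ne_zero
    obtain ⟨s, hs⟩ := hfin.exists_finset_coe
    have hs' : ∀ ν, ν ∈ s ↔ ν ∈ ({ν | ν ∈ B.prm ∧ D ν ≠ 0} ∪ {ν | ν ∈ B.prm ∧ B.A ν ≠ 0} ∪
        ⋃ u ∈ f.support, {ν | ν ∈ B.prm ∧ ν.ord (u : L) ≠ 0}) := by
      intro ν
      rw [← hs, Finset.mem_coe]
    have hsP : ∀ ν ∈ s, ν ∈ B.prm := by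
      intro ν hν
      rw [hs'] at hν
      rcases hν with (h1 | h1) | h1
      · exact h1.1
      · exact h1.1
      · simp only [Set.mem_iUnion] at h1
        obtain ⟨u, _, h2⟩ := h1
        exact h2.1
    have e1 := B.q07b_sum hE hD hsP (fun ν h1 h2 => (hs' ν).2 (Or.inl (Or.inl ⟨h1, h2⟩)))
    have e2 := B.q07b_sum hE B.divA hsP (fun ν h1 h2 => (hs' ν).2 (Or.inl (Or.inr ⟨h1, h2⟩)))
    have e3 : ∀ u ∈ f.support, ∑ ν ∈ s, (ν.ord (u : L) : ℝ) * (B.bil E (dlt ν) : ℝ) = 0 := by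
      intro u hu
      have h1 := B.q07b_sum hE (LibKB2.isDiv_ord B.finDiv u.ne_zero) hsP (fun ν h1 h2 =>
        (hs' ν).2 (Or.inr (by
          simp only [Set.mem_iUnion]
          exact ⟨u, hu, h1, h2⟩)))
      rw [← h1, B.q07b_div hE u, Int.cast_zero]
    have e4 : 0 ≤ ∑ ν ∈ s, ((D ν : ℝ) + ε * (B.A ν : ℝ) + ordR ν f) * (B.bil E (dlt ν) : ℝ) := by
      refine Finset.sum_nonneg fun ν hν => mul_nonneg (hf ν (hsP ν hν)) ?_
      exact_mod_cast hw ν (hsP ν hν)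
    have e5 : ∑ ν ∈ s, ordR ν f * (B.bil E (dlt ν) : ℝ) = 0 := by
      have h1 : ∀ ν ∈ s, ordR ν f * (B.bil E (dlt ν) : ℝ) =
          ∑ u ∈ f.support, f u * ((ν.ord (u : L) : ℝ) * (B.bil E (dlt ν) : ℝ)) := by
        intro ν _
        unfold ordR
        rw [Finsupp.sum, Finset.sum_mul]
        exact Finset.sum_congr rfl fun u _ => by ring
      rw [Finset.sum_congr rfl h1, Finset.sum_comm]
      refine Finset.sum_eq_zero fun u hu => ?_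
      rw [← Finset.mul_sum, e3 u hu, mul_zero]
    have e6 : ∑ ν ∈ s, ((D ν : ℝ) + ε * (B.A ν : ℝ) + ordR ν f) * (B.bil E (dlt ν) : ℝ) =
        ∑ ν ∈ s, (D ν : ℝ) * (B.bil E (dlt ν) : ℝ) +
          ε * ∑ ν ∈ s, (B.A ν : ℝ) * (B.bil E (dlt ν) : ℝ) +
          ∑ ν ∈ s, ordR ν f * (B.bil E (dlt ν) : ℝ) := by
      rw [Finset.mul_sum, ← Finset.sum_add_distrib, ← Finset.sum_add_distrib]
      exact Finset.sum_congr rfl fun ν _ => by ring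
    rw [e6, e5, ← e1, ← e2, add_zero] at e4
    exact e4
  by_contra hneg
  push Not at hneg
  have h1 : (B.bil E D : ℝ) ≤ -1 := by
    have h2 : B.bil E D ≤ -1 := by omega
    exact_mod_cast h2
  have h3 : (0 : ℝ) < 1 / (2 * (|(B.bil E B.A : ℝ)| + 1)) := by positivity
  have h4 := key _ h3
  have h5 : 1 / (2 * (|(B.bil E B.A : ℝ)| + 1)) * (B.bil E B.A : ℝ) ≤ 1 / 2 := by
    rw [div_mul_eq_mul_div, one_mul, div_le_div_iff₀ (by positivity) (by norm_num)]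
    have h6 := le_abs_self (B.bil E B.A : ℝ)
    linarith
  linarith

/-- PROOF. For every divisor `E` let `n ≥ 1` be so large that `0 + n • A` and `E + n • A` are
generated (`B.gen`); `bil_nonneg_of_gen`, `bil_nonneg_of_psef` for `D` and `-D` (`bil_neg`) give
`bil (n • A) D = 0` and `bil (E + n • A) D = 0`, so `bil E D = 0`. -/
theorem num_triv {D : DVal L → ℤ} (hD : IsDiv B.prm D)
    (h : ∀ ε : ℝ, 0 < ε → ∃ f : Lˣ →₀ ℝ, ∀ ν ∈ B.prm, 0 ≤ (D ν : ℝ) + ε * (B.A ν : ℝ) + ordR ν f)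
    (h' : ∀ ε : ℝ, 0 < ε → ∃ f : Lˣ →₀ ℝ, ∀ ν ∈ B.prm,
      0 ≤ -(D ν : ℝ) + ε * (B.A ν : ℝ) + ordR ν f) :
    ∀ E, IsDiv B.prm E → B.bil D E = 0 := by
  intro E hE
  obtain ⟨n₀, g0⟩ := B.gen 0 (isDiv_zero _)
  obtain ⟨n₁, g1⟩ := B.gen E hE
  have hA : IsDiv B.prm (max n₀ n₁ • B.A) := by
    have h1 := IsDiv.zsmul' B.divA ((max n₀ n₁ : ℕ) : ℤ)
    rwa [natCast_zsmul] at h1
  have hN : IsDiv B.prm (0 + max n₀ n₁ • B.A) := IsDiv.add' (isDiv_zero _) hA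
  have hM : IsDiv B.prm (E + max n₀ n₁ • B.A) := IsDiv.add' hE hA
  have h'' : ∀ ε : ℝ, 0 < ε → ∃ f : Lˣ →₀ ℝ, ∀ ν ∈ B.prm,
      0 ≤ (((-D) ν : ℤ) : ℝ) + ε * (B.A ν : ℝ) + ordR ν f := by
    intro ε hε
    obtain ⟨f, hf⟩ := h' ε hε
    refine ⟨f, fun ν hν => ?_⟩
    have h1 := hf ν hν
    rw [Pi.neg_apply, Int.cast_neg]
    exact h1
  have key : ∀ F : DVal L → ℤ, IsDiv B.prm F → (∀ x ∈ B.pts, ∃ f, Gen B.prm x F f) →
      B.bil F D = 0 := by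
    intro F hF hg
    have hw : ∀ ν ∈ B.prm, 0 ≤ B.bil F (dlt ν) := fun ν hν => B.bil_nonneg_of_gen hF hg hν
    have h1 := B.bil_nonneg_of_psef hD hF hw h
    have h2 := B.bil_nonneg_of_psef (IsDiv.neg' hD) hF hw h''
    rw [B.bil_comm, B.bil_neg hD hF, B.bil_comm] at h2
    omega
  have h1 := key _ hN (g0 _ (le_max_left _ _))
  have h2 := key _ hM (g1 _ (le_max_right _ _))
  rw [B.bil_add (isDiv_zero _) hA hD, B.bil_zero] at h1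
  rw [B.bil_add hE hA hD] at h2
  rw [B.bil_comm]
  omega

end BaseData

end Pool.Agent.LibCUR
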