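import Pool.Agent.LibCUR.Q06
import Pool.Agent.LibCUR.Q07b
import Pool.Agent.LibLG.Surf

set_option autoImplicit false

open Pool.Agent.LibGMM Pool.Agent.LibK Pool.Agent.LibKB

namespace Pool.Agent.LibCUR

open Pool.Agent.LibKB2 (dlt dlt_self dlt_ne isDiv_dlt isDiv_ord isDiv_zero IsDiv.add' IsDiv.neg'
  IsDiv.sub' IsDiv.zsmul')
open Pool.Agent.LibLB (RLR PSurf)

variable {L : Type} [Field L] [Algebra ℂ L]

/-- PROOF. Values at three consecutive integers. -/
theorem quad_unique {d e c d' e' c' : ℤ} {n₀ : ℕ}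
    (h : ∀ n : ℕ, n₀ ≤ n → 2 * c + d * n ^ 2 + e * n = 2 * c' + d' * n ^ 2 + e' * n) :
    d = d' ∧ e = e' ∧ c = c' := by
  have h1 := h n₀ le_rfl
  have h2 := h (n₀ + 1) (Nat.le_succ _)
  have h3 := h (n₀ + 2) (by omega)
  push_cast at h2 h3
  have h4' : 2 * d = 2 * d' := by linear_combination h3 - 2 * h2 + h1
  have h4 : d = d' := by omega
  subst h4
  have h5 : e = e' := by linear_combination h2 - h1
  subst h5
  have h6 : 2 * c = 2 * c' := by linear_combination h1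
  exact ⟨rfl, rfl, by omega⟩

/-- PROOF. The two submodules have the same elements (cast of integers to `ℚ`). -/
theorem h0Y_eq (Y : NormalModel L) (D : DVal L → ℤ) : LibL.h0Y Y D = h0 (primes Y) D := by
  have h : H0 (primes Y) (fun ν => (D ν : ℚ)) = sec (primes Y) D := by
    ext f
    rw [mem_H0, mem_sec]
    constructor
    · intro hf ν hν h0
      have := hf ν hν h0
      exact_mod_cast this
    · intro hf ν hν h0
      have := hf ν hν h0
      exact_mod_cast this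
  unfold LibL.h0Y h0
  rw [h]

/-- The data `B` belong to the model `Y`. -/
structure BaseData.Of (B : BaseData L) (Y : NormalModel L) : Prop where
  prm : B.prm = primes Y
  A : ∀ ν ∈ primes Y, B.A ν = hypZ Y ν
  K : ∃ ω : TopForm L, ω ≠ 0 ∧ ∀ ν ∈ primes Y, B.K ν = canOrd ν ω

variable {B : BaseData L} {Y : NormalModel L}

/-- PROOF. `B.poly 0`, `h0Y_eq`, `LibKB.h0_congr` (`0 + n • A = n * hypZ` on the primes),
`quad_unique`. -/
theorem chi_eq (hB : B.Of Y) {c d e : ℤ} {n₀ : ℕ} (h : ∀ n : ℕ, n₀ ≤ n →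
    2 * (LibL.h0Y Y (fun ν => n * hypZ Y ν) : ℤ) = 2 * c + d * n ^ 2 + e * n) : B.chi 0 = c := by
  obtain ⟨n₁, h1⟩ := B.poly 0 isDiv_zero
  have h2 : ∀ n : ℕ, max n₀ n₁ ≤ n →
      2 * B.chi 0 + B.d * n ^ 2 + B.b 0 * n = 2 * c + d * n ^ 2 + e * n := by
    intro n hn
    have h3 := h n ((le_max_left _ _).trans hn)
    have h4 := h1 n ((le_max_right _ _).trans hn)
    have h5 : h0 B.prm (0 + n • B.A) = LibL.h0Y Y (fun ν => n * hypZ Y ν) := by
      rw [h0Y_eq, hB.prm]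
      refine LibKB.h0_congr fun ν hν => ?_
      rw [Pi.add_apply, Pi.zero_apply, zero_add, Pi.smul_apply, nsmul_eq_mul, hB.A ν hν]
    rw [h5, h3] at h4
    linear_combination -h4
  exact (quad_unique h2).2.2

/-- PROOF. `chi0`: `hr.chi ω`, `chi_eq` and `h0Y_eq`, `LibKB.h0_congr`. `fg`: `hr.fg`. `num`: from
`0 < h0 B.prm (t • A + n • D)` for all `n : ℤ` and `pseudoEff_of_sections` (Q06.lean) for `D` and
`-D` (`h0_congr`), then `hr.num`. -/
theorem reg_of_regular (hB : B.Of Y) (hr : LibL.Regular Y) : B.Reg where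
  chi0 := by
    obtain ⟨ω, hω, hK⟩ := hB.K
    obtain ⟨d, e, n₀, h1⟩ := hr.chi ω hω
    have h2 : h0 B.prm B.K = LibL.h0Y Y fun ν => canOrd ν ω := by
      rw [h0Y_eq, hB.prm]
      exact LibKB.h0_congr hK
    rw [h2]
    exact chi_eq hB h1
  fg := by
    obtain ⟨T, h1, h2⟩ := hr.fg
    rw [hB.prm]
    exact ⟨T, h1, h2⟩
  num := by
    intro D hD ⟨t, ht⟩
    have hA : ∀ ν ∈ primes Y, ∀ k : ℤ, ((t : ℤ) • hypZ Y + k • D) ν = (t • B.A + k • D) ν := by
      intro ν hν k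
      rw [Pi.add_apply, Pi.add_apply, Pi.smul_apply, Pi.smul_apply, Pi.smul_apply, hB.A ν hν,
        natCast_zsmul]
    have h1 : ∀ n : ℕ, 0 < h0 (primes Y) ((t : ℤ) • hypZ Y + (n : ℤ) • D) := by
      intro n
      have h3 := ht n
      rw [hB.prm] at h3
      rw [LibKB.h0_congr fun ν hν => hA ν hν n]
      exact h3
    have h2 : ∀ n : ℕ, 0 < h0 (primes Y) ((t : ℤ) • hypZ Y + (n : ℤ) • (-D)) := by
      intro n
      have h3 := ht (-n)
      rw [hB.prm] at h3
      have h4 : ((t : ℤ) • hypZ Y + (n : ℤ) • (-D)) = ((t : ℤ) • hypZ Y + (-(n : ℤ)) • D) := by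
        rw [smul_neg, neg_smul]
      rw [h4, LibKB.h0_congr fun ν hν => hA ν hν (-(n : ℤ))]
      exact h3
    have h5 := pseudoEff_of_sections Y D t h1
    have h6 := pseudoEff_of_sections Y (-D) t h2
    have hD' : {ν | ν ∈ primes Y ∧ D ν ≠ 0}.Finite := by
      rw [← hB.prm]
      exact hD
    rw [hB.prm]
    refine hr.num D hD' h5 ?_
    have h7 : (fun ν : DVal L => -(D ν : ℝ)) = fun ν => (((-D) ν : ℤ) : ℝ) := by
      funext ν
      rw [Pi.neg_apply, Int.cast_neg]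
    rw [h7]
    exact h6

end Pool.Agent.LibCUR
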