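import Pool.Agent.LibCUR.Q08a

set_option autoImplicit false

open Pool.Agent.LibGMM Pool.Agent.LibK Pool.Agent.LibKB

namespace Pool.Agent.LibCUR

open Pool.Agent.LibKB2 (dlt dlt_self dlt_ne isDiv_dlt isDiv_ord isDiv_zero IsDiv.add' IsDiv.neg'
  IsDiv.sub' IsDiv.zsmul')
open Pool.Agent.LibLB (RLR PSurf)

variable {L : Type} [Field L] [Algebra ℂ L]

variable {B : BaseData L} {Y : NormalModel L}

/-- PROOF. Unfold `PseudoEff`, `REffective`, `q06_iInf_cast`. -/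
theorem psef_iff (hB : B.Of Y) (D : DVal L → ℤ) : PseudoEff Y (fun ν => (D ν : ℝ)) →
    ∀ ε : ℝ, 0 < ε → ∃ f : Lˣ →₀ ℝ, ∀ ν ∈ B.prm, 0 ≤ (D ν : ℝ) + ε * (B.A ν : ℝ) + ordR ν f := by
  intro h ε hε
  obtain ⟨f, hf⟩ := h ε hε
  refine ⟨f, fun ν hν => ?_⟩
  rw [hB.prm] at hν
  have h1 := hf ν hν
  rw [hB.A ν hν, q06_iInf_cast]
  exact h1

/-- The classes `B.cla ⟨D i, _⟩`, `i : ℕ`, are numerically trivial and pairwise different. -/
theorem inf_of_infinite (hB : B.Of Y) (hi : LibLG.InfiniteNumTrivial Y) :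
    {D : B.toPSurf.Λ | ∀ E, B.toPSurf.form D E = 0}.Infinite := by
  obtain ⟨D, hfin, hps, hne⟩ := hi
  have hdiv : ∀ i, IsDiv B.prm (D i) := by
    intro i
    have h := hfin i
    rw [← hB.prm] at h
    exact h
  change {D : B.Cl | ∀ E, B.form D E = 0}.Infinite
  refine Set.infinite_of_injective_forall_mem (f := fun i => B.cla ⟨D i, hdiv i⟩) ?_ ?_
  · intro i j hij
    by_contra hne'
    obtain ⟨f, hf, h⟩ := B.cla_eq.1 hij
    apply hne j i (Ne.symm hne')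
    refine ⟨f, hf, fun ν hν => ?_⟩
    rw [← hB.prm] at hν
    have h1 : D j ν = D i ν + ν.ord f := h ν hν
    rw [h1]
    ring
  · intro i
    change ∀ E, B.form _ E = 0
    intro α
    obtain ⟨E, rfl⟩ := B.cla_surj α
    rw [B.form_mk]
    refine B.num_triv (hdiv i) (psef_iff hB (D i) (hps i).1) ?_ E.1 E.2
    have h3 : PseudoEff Y (fun ν => (((-D i ν : ℤ)) : ℝ)) := by
      have h4 := (hps i).2
      simpa using h4
    intro ε hε
    obtain ⟨f, hf⟩ := psef_iff hB (fun ν => -D i ν) h3 ε hε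
    refine ⟨f, fun ν hν => ?_⟩
    have h5 := hf ν hν
    push_cast at h5
    exact h5

/-- The case `χ(𝒪) ≥ 1`. -/
theorem pos_of_chiPos (hB : B.Of Y) (hi : LibLG.ChiPos Y) : 1 ≤ B.toPSurf.chi0 ∧
    (B.toPSurf.chi0 = 1 → {D : B.toPSurf.Λ | ∀ E, B.toPSurf.form D E = 0}.Infinite) := by
  obtain ⟨c, d, e, n₀, hc, hinf, h⟩ := hi
  have h1 : B.chi 0 = c := chi_eq hB h
  have h2 : B.toPSurf.chi0 = c := h1
  rw [h2]
  exact ⟨hc, fun h3 => inf_of_infinite hB (hinf h3)⟩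

end Pool.Agent.LibCUR
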