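import Pool.Agent.LibCUR.Q08b
import Pool.Agent.LibBG.Exists

/-!
THEOREM K++, block CUR: the base surface.
-/

set_option autoImplicit false

open Pool.Agent.LibGMM Pool.Agent.LibK Pool.Agent.LibKB
open Pool.Agent.LibLB (PSurf)

namespace Pool.Agent.LibCUR

/-- The data of a smooth projective surface. -/
theorem exists_data {L : Type} [Field L] [Algebra ℂ L] (Y : NormalModel L)
    (hY : LibL.IsSmoothSurface Y) : ∃ B : BaseData L, B.Of Y ∧ B.pts = LibLB.closedPts Y := by
  obtain ⟨B, h1, h2, h3, ω, hω, h4⟩ := LibBG.exists_baseData Y hY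
  refine ⟨B, ⟨h1, fun ν _ => by rw [h3], ω, hω, fun ν _ => by rw [h4]⟩, h2⟩

/-- The base surface. -/
theorem exists_base {L : Type} [Field L] [Algebra ℂ L] (Y : NormalModel L)
    (hY : LibL.IsSmoothSurface Y) : ∃ S : PSurf L, S.prm = primes Y ∧
      (LibL.Regular Y → S.Reg) ∧
      (LibLG.ChiPos Y → 1 ≤ S.chi0 ∧
        (S.chi0 = 1 → {D : S.Λ | ∀ E, S.form D E = 0}.Infinite)) := by
  obtain ⟨B, hB, -⟩ := exists_data Y hY
  exact ⟨B.toPSurf, hB.prm, fun hr => B.toPSurf_reg (reg_of_regular hB hr),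
    fun hi => pos_of_chiPos hB hi⟩

end Pool.Agent.LibCUR
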